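import Mathlib

set_option autoImplicit false

open Finset Filter Topology MeasureTheory Set

namespace Pool.H232R3

/-- summatory function -/
noncomputable def SS (f : ℕ → ℂ) (N : ℕ) : ℂ := ∑ k ∈ Finset.Icc 1 N, f k

lemma SS_zero (f : ℕ → ℂ) : SS f 0 = 0 := by simp [SS]

/-- Mellin transform of the summatory function -/
noncomputable def Phi (f : ℕ → ℂ) (s : ℂ) : ℂ :=
  mellin (fun t : ℝ => SS f ⌊t⌋₊) (-s)

lemma bound_of_tendsto (f : ℕ → ℂ)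
    (h : Tendsto (fun N : ℕ => Real.sqrt N * ‖SS f N‖) atTop (𝓝 0)) :
    ∃ C : ℝ, 0 < C ∧ ∀ N : ℕ, Real.sqrt N * ‖SS f N‖ ≤ C := by
  obtain ⟨C, hC⟩ := h.bddAbove_range
  refine ⟨|C| + 1, by positivity, fun N => ?_⟩
  have h1 : Real.sqrt N * ‖SS f N‖ ≤ C := hC (Set.mem_range_self N)
  have h2 := le_abs_self C
  linarith

lemma norm_SS_le_const (f : ℕ → ℂ) (C : ℝ) (hC : 0 < C)
    (h : ∀ N : ℕ, Real.sqrt N * ‖SS f N‖ ≤ C) (N : ℕ) : ‖SS f N‖ ≤ C := by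
  rcases Nat.eq_zero_or_pos N with h0 | hpos
  · rw [h0, SS_zero]; simpa using hC.le
  · have h1 : (1 : ℝ) ≤ Real.sqrt N := by
      rw [Real.one_le_sqrt]
      exact_mod_cast hpos
    calc ‖SS f N‖ = 1 * ‖SS f N‖ := (one_mul _).symm
      _ ≤ Real.sqrt N * ‖SS f N‖ := by gcongr
      _ ≤ C := h N

lemma measurable_SSfloor (f : ℕ → ℂ) : Measurable (fun t : ℝ => SS f ⌊t⌋₊) :=
  (measurable_from_nat (f := SS f)).comp Nat.measurable_floor

lemma locInt_SSfloor (f : ℕ → ℂ) (C : ℝ) (hC : ∀ N : ℕ, ‖SS f N‖ ≤ C) :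
    LocallyIntegrableOn (fun t : ℝ => SS f ⌊t⌋₊) (Ioi 0) := by
  refine LocallyIntegrable.locallyIntegrableOn ?_ _
  refine (locallyIntegrable_const C).mono (measurable_SSfloor f).aestronglyMeasurable ?_
  refine Eventually.of_forall fun t => ?_
  exact (hC _).trans (le_abs_self C)

/-- pointwise estimate for real argument -/
lemma SSfloor_bound (f : ℕ → ℂ) (C : ℝ) (N₀ : ℕ)
    (h : ∀ N : ℕ, N₀ ≤ N → Real.sqrt N * ‖SS f N‖ ≤ C) (t : ℝ) (ht1 : 1 ≤ t) (ht : (N₀ : ℝ) ≤ t) :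
    ‖SS f ⌊t⌋₊‖ ≤ 2 * C * t ^ (-(1/2) : ℝ) := by
  have ht0 : 0 < t := by linarith
  have hN : N₀ ≤ ⌊t⌋₊ := Nat.le_floor ht
  have h1 := h _ hN
  have hfl : t < ⌊t⌋₊ + 1 := Nat.lt_floor_add_one t
  have hf1 : (1 : ℝ) ≤ ⌊t⌋₊ := by
    have : 1 ≤ ⌊t⌋₊ := Nat.le_floor (by simpa using ht1)
    exact_mod_cast this
  have h4 : t ≤ 4 * (⌊t⌋₊ : ℝ) := by linarith
  have hsq : Real.sqrt t ≤ 2 * Real.sqrt (⌊t⌋₊ : ℝ) := by
    have : Real.sqrt t ≤ Real.sqrt (4 * (⌊t⌋₊ : ℝ)) := Real.sqrt_le_sqrt h4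
    rw [Real.sqrt_mul (by norm_num)] at this
    have h2 : Real.sqrt 4 = 2 := by
      rw [show (4 : ℝ) = 2 ^ 2 by norm_num]
      exact Real.sqrt_sq (by norm_num)
    rwa [h2] at this
  have hst : 0 < Real.sqrt t := Real.sqrt_pos.mpr ht0
  have hrw : t ^ (-(1/2) : ℝ) = (Real.sqrt t)⁻¹ := by
    rw [Real.rpow_neg ht0.le, ← Real.sqrt_eq_rpow]
  rw [hrw, ← div_eq_mul_inv, le_div_iff₀ hst]
  calc ‖SS f ⌊t⌋₊‖ * Real.sqrt t ≤ ‖SS f ⌊t⌋₊‖ * (2 * Real.sqrt (⌊t⌋₊ : ℝ)) := by gcongr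
    _ = 2 * (Real.sqrt (⌊t⌋₊ : ℝ) * ‖SS f ⌊t⌋₊‖) := by ring
    _ ≤ 2 * C := by gcongr

lemma SSfloor_lt_one (f : ℕ → ℂ) (t : ℝ) (ht : t < 1) : SS f ⌊t⌋₊ = 0 := by
  rw [Nat.floor_eq_zero.mpr ht, SS_zero]

lemma Phi_differentiableAt (f : ℕ → ℂ)
    (h : Tendsto (fun N : ℕ => Real.sqrt N * ‖SS f N‖) atTop (𝓝 0)) (s : ℂ)
    (hs : -(1/2) < s.re) : DifferentiableAt ℂ (Phi f) s := by
  obtain ⟨C, hC0, hC⟩ := bound_of_tendsto f h
  have hb := norm_SS_le_const f C hC0 hC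
  have key : DifferentiableAt ℂ (mellin (fun t : ℝ => SS f ⌊t⌋₊)) (-s) := by
    refine mellin_differentiableAt_of_isBigO_rpow (a := 1/2) (b := (-s).re - 1)
      (locInt_SSfloor f C hb) ?_ ?_ ?_ ?_
    · refine Asymptotics.IsBigO.of_bound (2 * C) ?_
      filter_upwards [eventually_ge_atTop (1 : ℝ)] with t ht
      have h1 := SSfloor_bound f C 0 (fun N _ => hC N) t ht (by simp; linarith)
      rw [Real.norm_eq_abs, abs_of_nonneg (by positivity)]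
      exact h1
    · rw [Complex.neg_re]; linarith
    · refine Asymptotics.IsBigO.of_bound 1 ?_
      have : ∀ᶠ t in 𝓝[>] (0 : ℝ), t < 1 :=
        (nhdsWithin_le_nhds) (Iio_mem_nhds one_pos)
      filter_upwards [this] with t ht
      rw [SSfloor_lt_one f t ht, norm_zero]
      positivity
    · linarith
  exact key.comp s (differentiable_neg s)

lemma Phi_eq_integral (f : ℕ → ℂ) (s : ℂ) :
    Phi f s = ∫ t in Ioi (1 : ℝ), SS f ⌊t⌋₊ * (t : ℂ) ^ (-(s + 1)) := by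
  unfold Phi mellin
  rw [← Set.Ioc_union_Ioi_eq_Ioi (zero_le_one (α := ℝ))]
  have hz : ∀ t ∈ Ioc (0 : ℝ) 1, t ≠ 1 → (t : ℂ) ^ (-s - 1) • SS f ⌊t⌋₊ = 0 := by
    intro t ht ht1
    rw [SSfloor_lt_one f t (lt_of_le_of_ne ht.2 ht1), smul_zero]
  have hae : (fun t : ℝ => (t : ℂ) ^ (-s - 1) • SS f ⌊t⌋₊) =ᵐ[volume.restrict (Ioc (0 : ℝ) 1)]
      fun _ => 0 := by
    rw [Filter.EventuallyEq, ae_restrict_iff' measurableSet_Ioc]
    have : ∀ᵐ t : ℝ, t ≠ 1 := by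
      rw [ae_iff]
      simp
    filter_upwards [this] with t ht1 ht
    exact hz t ht ht1
  have h0 : ∫ t in Ioc (0 : ℝ) 1, (t : ℂ) ^ (-s - 1) • SS f ⌊t⌋₊ = 0 := by
    rw [integral_congr_ae hae, integral_zero]
  by_cases hI : IntegrableOn (fun t : ℝ => (t : ℂ) ^ (-s - 1) • SS f ⌊t⌋₊) (Ioi 1)
  · rw [setIntegral_union Set.Ioc_disjoint_Ioi_same measurableSet_Ioi ?_ hI, h0, zero_add]
    · refine integral_congr_ae (Eventually.of_forall fun t => ?_)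
      show (t : ℂ) ^ (-s - 1) • SS f ⌊t⌋₊ = SS f ⌊t⌋₊ * (t : ℂ) ^ (-(s + 1))
      rw [smul_eq_mul, mul_comm]
      congr 2
      ring
    · exact (integrable_zero _ _ _).congr hae.symm
  · rw [integral_undef, integral_undef]
    · intro hI2
      apply hI
      refine hI2.congr (Eventually.of_forall fun t => ?_)
      show SS f ⌊t⌋₊ * (t : ℂ) ^ (-(s + 1)) = (t : ℂ) ^ (-s - 1) • SS f ⌊t⌋₊
      rw [smul_eq_mul, mul_comm]
      congr 2
      ring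
    · intro hI2
      apply hI
      have : IntegrableOn (fun t : ℝ => (t : ℂ) ^ (-s - 1) • SS f ⌊t⌋₊) (Ioc 0 1 ∪ Ioi 1) := hI2
      exact this.mono_set Set.subset_union_right

lemma Phi_LSeries (f : ℕ → ℂ)
    (h : Tendsto (fun N : ℕ => Real.sqrt N * ‖SS f N‖) atTop (𝓝 0)) (s : ℂ)
    (hs : 0 < s.re) (hS : LSeriesSummable f s) : LSeries f s = s * Phi f s := by
  obtain ⟨C, hC0, hC⟩ := bound_of_tendsto f h
  have hb := norm_SS_le_const f C hC0 hC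
  rw [Phi_eq_integral]
  refine LSeries_eq_mul_integral f le_rfl hs hS ?_
  refine Asymptotics.IsBigO.of_bound C ?_
  refine Eventually.of_forall fun n => ?_
  simp only [Real.rpow_zero, norm_one, mul_one]
  exact hb n

lemma Phi_small (f : ℕ → ℂ)
    (h : Tendsto (fun N : ℕ => Real.sqrt N * ‖SS f N‖) atTop (𝓝 0)) (ε : ℝ) (hε : 0 < ε) :
    ∃ B : ℝ, 0 ≤ B ∧ ∀ x : ℝ, -(1/2) < x → ‖Phi f x‖ ≤ B + ε / (x + 1/2) := by
  obtain ⟨C, hC0, hC⟩ := bound_of_tendsto f h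
  have hb := norm_SS_le_const f C hC0 hC
  have hev : ∀ᶠ N : ℕ in atTop, Real.sqrt N * ‖SS f N‖ < ε / 2 :=
    (tendsto_order.mp h).2 _ (by positivity)
  obtain ⟨N₀, hN₀⟩ := eventually_atTop.mp hev
  set T : ℝ := max N₀ 1 with hT
  have hT1 : 1 ≤ T := le_max_right _ _
  refine ⟨C * (T - 1), by nlinarith, fun x hx => ?_⟩
  rw [Phi_eq_integral]
  have hint1 : IntegrableOn (fun t : ℝ => ε * t ^ (-x - 3/2 : ℝ)) (Ioi 1) :=
    ((integrableOn_Ioi_rpow_of_lt (by linarith) one_pos).const_mul ε)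
  have hint2 : IntegrableOn (fun t : ℝ => (Ioc (1 : ℝ) T).indicator (fun _ => C) t) (Ioi 1) := by
    refine (Integrable.integrableOn ?_)
    rw [integrable_indicator_iff measurableSet_Ioc]
    exact integrableOn_const (by simp)
  have hle : ‖∫ t in Ioi (1 : ℝ), SS f ⌊t⌋₊ * (t : ℂ) ^ (-((x : ℂ) + 1))‖
      ≤ ∫ t in Ioi (1 : ℝ), ((Ioc (1 : ℝ) T).indicator (fun _ => C) t
        + ε * t ^ (-x - 3/2 : ℝ)) := by
    refine norm_integral_le_of_norm_le (hint2.add hint1) ?_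
    rw [ae_restrict_iff' measurableSet_Ioi]
    refine Eventually.of_forall fun t ht => ?_
    have ht1 : (1 : ℝ) < t := ht
    have ht0 : 0 < t := by linarith
    rw [norm_mul, Complex.norm_cpow_eq_rpow_re_of_pos ht0]
    have hre : (-((x : ℂ) + 1)).re = -x - 1 := by simp; ring
    rw [hre]
    by_cases htT : t ≤ T
    · rw [Set.indicator_of_mem (show t ∈ Ioc 1 T from ⟨ht1, htT⟩)]
      have h1 : t ^ (-x - 1 : ℝ) ≤ t ^ (-(1/2) : ℝ) :=
        Real.rpow_le_rpow_of_exponent_le ht1.le (by linarith)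
      have h2 : t ^ (-(1/2) : ℝ) ≤ 1 := Real.rpow_le_one_of_one_le_of_nonpos ht1.le (by norm_num)
      have h3 : 0 ≤ ε * t ^ (-x - 3/2 : ℝ) := by positivity
      calc ‖SS f ⌊t⌋₊‖ * t ^ (-x - 1 : ℝ) ≤ C * 1 := by
            refine mul_le_mul (hb _) (h1.trans h2) (by positivity) hC0.le
        _ ≤ C + ε * t ^ (-x - 3/2 : ℝ) := by linarith
    · rw [Set.indicator_of_notMem (show t ∉ Ioc 1 T from fun h => htT h.2), zero_add]
      push Not at htT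
      have h1 := SSfloor_bound f (ε/2) N₀ (fun N hN => (hN₀ N hN).le) t ht1.le
        ((le_max_left _ _).trans htT.le)
      have h2 : t ^ (-x - 3/2 : ℝ) = t ^ (-(1/2) : ℝ) * t ^ (-x - 1 : ℝ) := by
        rw [← Real.rpow_add ht0]
        congr 1
        ring
      rw [h2, ← mul_assoc]
      have h3 : 2 * (ε / 2) = ε := by ring
      rw [h3] at h1
      gcongr
  refine hle.trans ?_
  rw [integral_add hint2 hint1]
  have e1 : ∫ t in Ioi (1 : ℝ), (Ioc (1 : ℝ) T).indicator (fun _ => C) t = C * (T - 1) := by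
    rw [setIntegral_indicator measurableSet_Ioc]
    have : Ioi (1 : ℝ) ∩ Ioc 1 T = Ioc 1 T := by
      ext t; simp
    rw [this, setIntegral_const]
    simp [Real.volume_real_Ioc_of_le hT1, mul_comm]
  have e2 : ∫ t in Ioi (1 : ℝ), ε * t ^ (-x - 3/2 : ℝ) = ε / (x + 1/2) := by
    rw [integral_const_mul, integral_Ioi_rpow_of_lt (by linarith) one_pos]
    rw [Real.one_rpow]
    have : -x - 3/2 + 1 = -(x + 1/2) := by ring
    rw [this, neg_div_neg_eq, mul_one_div]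
  rw [e1, e2]

end Pool.H232R3
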