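import Mathlib

set_option autoImplicit false

open ArithmeticFunction Finset
open scoped ComplexOrder

namespace Pool.H232R3

/-- multiplication by log, as an operator on arithmetic functions -/
noncomputable def DL (f : ArithmeticFunction ℂ) : ArithmeticFunction ℂ :=
  ⟨fun n => (Real.log n : ℂ) * f n, by simp⟩

lemma DL_apply (f : ArithmeticFunction ℂ) (n : ℕ) : DL f n = (Real.log n : ℂ) * f n := rfl

lemma DL_mul (f g : ArithmeticFunction ℂ) : DL (f * g) = DL f * g + f * DL g := by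
  ext n
  rw [DL_apply, ArithmeticFunction.add_apply, mul_apply, mul_apply, mul_apply, Finset.mul_sum, ← Finset.sum_add_distrib]
  refine Finset.sum_congr rfl ?_
  intro p hp
  rw [Nat.mem_divisorsAntidiagonal] at hp
  obtain ⟨h1, h2⟩ := hp
  have ha : p.1 ≠ 0 := by rintro h; rw [h, zero_mul] at h1; exact h2 h1.symm
  have hb : p.2 ≠ 0 := by rintro h; rw [h, mul_zero] at h1; exact h2 h1.symm
  rw [DL_apply, DL_apply, ← h1, Nat.cast_mul,
    Real.log_mul (Nat.cast_ne_zero.mpr ha) (Nat.cast_ne_zero.mpr hb)]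
  push_cast
  ring

/-- g times the von Mangoldt function -/
noncomputable def gL (g : ArithmeticFunction ℂ) : ArithmeticFunction ℂ :=
  ⟨fun n => g n * ((vonMangoldt n : ℝ) : ℂ), by simp⟩

lemma gL_apply (g : ArithmeticFunction ℂ) (n : ℕ) :
    gL g n = g n * ((vonMangoldt n : ℝ) : ℂ) := rfl

lemma DL_cm (g : ArithmeticFunction ℂ) (hg : ∀ m n, g (m * n) = g m * g n) :
    DL g = gL g * g := by
  ext n
  rw [DL_apply, mul_apply]
  have h : ∀ p ∈ n.divisorsAntidiagonal, gL g p.1 * g p.2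
      = g n * ((vonMangoldt p.1 : ℝ) : ℂ) := by
    intro p hp
    rw [Nat.mem_divisorsAntidiagonal] at hp
    rw [gL_apply, ← hp.1, hg]
    ring
  rw [Finset.sum_congr rfl h, ← Finset.mul_sum, mul_comm]
  congr 1
  rw [← vonMangoldt_sum]
  rw [Nat.sum_divisorsAntidiagonal (f := fun i _ => ((vonMangoldt i : ℝ) : ℂ))]
  push_cast
  rfl

lemma nonneg_of_DL (r c : ArithmeticFunction ℂ) (h1 : r 1 = 1) (hc1 : c 1 = 0)
    (hc : ∀ n, 0 ≤ c n) (hD : DL r = c * r) : ∀ n, 0 ≤ r n := by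
  intro n
  induction n using Nat.strong_induction_on with
  | _ n ih =>
    rcases Nat.eq_zero_or_pos n with h0 | hpos
    · rw [h0]; simp
    rcases Nat.eq_or_lt_of_le (Nat.succ_le_of_lt hpos) with h1' | h2
    · rw [← h1', h1]; exact zero_le_one
    have h := congrArg (fun F : ArithmeticFunction ℂ => F n) hD
    simp only [DL_apply, mul_apply] at h
    have hs : 0 ≤ ∑ x ∈ n.divisorsAntidiagonal, c x.1 * r x.2 := by
      refine Finset.sum_nonneg ?_
      intro p hp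
      rw [Nat.mem_divisorsAntidiagonal] at hp
      obtain ⟨hp1, hp2⟩ := hp
      by_cases hq : p.1 = 1
      · rw [hq, hc1, zero_mul]
      · refine mul_nonneg (hc _) (ih _ ?_)
        have ha : p.1 ≠ 0 := by rintro h; rw [h, zero_mul] at hp1; exact hp2 hp1.symm
        have hb : p.2 ≠ 0 := by rintro h; rw [h, mul_zero] at hp1; exact hp2 hp1.symm
        have : 1 < p.1 := by omega
        rw [← hp1]
        exact lt_mul_of_one_lt_left (Nat.pos_of_ne_zero hb) this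
    rw [← h] at hs
    have hl : 0 < Real.log n := Real.log_pos (by exact_mod_cast h2)
    have h3 : r n = ((Real.log n)⁻¹ : ℝ) * ((Real.log n : ℂ) * r n) := by
      push_cast
      rw [← mul_assoc, inv_mul_cancel₀ (by exact_mod_cast hl.ne'), one_mul]
    rw [h3]
    refine mul_nonneg ?_ hs
    rw [Complex.zero_le_real]
    positivity

lemma gL_one (g : ArithmeticFunction ℂ) : gL g 1 = 0 := by
  rw [gL_apply]; simp

/-- positivity of the fourfold product -/
lemma four_nonneg (g₁ g₂ g₃ g₄ : ArithmeticFunction ℂ)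
    (h₁ : ∀ m n, g₁ (m * n) = g₁ m * g₁ n) (h₂ : ∀ m n, g₂ (m * n) = g₂ m * g₂ n)
    (h₃ : ∀ m n, g₃ (m * n) = g₃ m * g₃ n) (h₄ : ∀ m n, g₄ (m * n) = g₄ m * g₄ n)
    (o₁ : g₁ 1 = 1) (o₂ : g₂ 1 = 1) (o₃ : g₃ 1 = 1) (o₄ : g₄ 1 = 1)
    (hpos : ∀ p k : ℕ, p.Prime → 0 < k → 0 ≤ g₁ (p ^ k) + g₂ (p ^ k) + g₃ (p ^ k) + g₄ (p ^ k)) :
    ∀ n, 0 ≤ (g₁ * g₂ * (g₃ * g₄)) n := by
  refine nonneg_of_DL _ (gL g₁ + gL g₂ + gL g₃ + gL g₄) ?_ ?_ ?_ ?_
  · rw [mul_apply]; simp [mul_apply, o₁, o₂, o₃, o₄]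
  · simp [gL_one]
  · intro n
    simp only [ArithmeticFunction.add_apply, gL_apply]
    rw [← add_mul, ← add_mul, ← add_mul]
    by_cases hn : IsPrimePow n
    · obtain ⟨p, k, hp, hk, rfl⟩ := hn
      refine mul_nonneg (hpos p k hp.nat_prime hk) ?_
      rw [Complex.zero_le_real]
      exact vonMangoldt_nonneg
    · rw [vonMangoldt_eq_zero_iff.mpr hn]; simp
  · rw [DL_mul, DL_mul, DL_mul, DL_cm g₁ h₁, DL_cm g₂ h₂, DL_cm g₃ h₃, DL_cm g₄ h₄]
    ring

end Pool.H232R3
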