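import Mathlib

set_option autoImplicit false

open ArithmeticFunction Finset
open scoped ComplexOrder

namespace Pool.H232R3

open Classical in
/-- the restriction of an arithmetic function to the y-smooth numbers -/
noncomputable def trunc (g : ArithmeticFunction ℂ) (y : ℕ) : ArithmeticFunction ℂ :=
  ⟨fun n => if n ∈ Nat.smoothNumbers y then g n else 0, by simp⟩

open Classical in
lemma trunc_apply (g : ArithmeticFunction ℂ) (y n : ℕ) :
    trunc g y n = if n ∈ Nat.smoothNumbers y then g n else 0 := rfl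

lemma trunc_mul (g h : ArithmeticFunction ℂ) (y : ℕ) :
    trunc g y * trunc h y = trunc (g * h) y := by
  ext n
  rw [trunc_apply, mul_apply, mul_apply]
  by_cases hn : n ∈ Nat.smoothNumbers y
  · rw [if_pos hn]
    refine Finset.sum_congr rfl ?_
    intro p hp
    rw [Nat.mem_divisorsAntidiagonal] at hp
    rw [trunc_apply, trunc_apply,
      if_pos (Nat.mem_smoothNumbers_of_dvd hn (Dvd.intro _ hp.1)),
      if_pos (Nat.mem_smoothNumbers_of_dvd hn (Dvd.intro_left _ hp.1))]
  · rw [if_neg hn]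
    refine Finset.sum_eq_zero ?_
    intro p hp
    rw [Nat.mem_divisorsAntidiagonal] at hp
    rw [trunc_apply, trunc_apply]
    by_cases h1 : p.1 ∈ Nat.smoothNumbers y
    · by_cases h2 : p.2 ∈ Nat.smoothNumbers y
      · exfalso
        apply hn
        rw [← hp.1]
        exact Nat.mul_mem_smoothNumbers h1 h2
      · rw [if_neg h2, mul_zero]
    · rw [if_neg h1, zero_mul]

lemma sub_trunc_nonneg (r : ArithmeticFunction ℂ) (hr : ∀ n, 0 ≤ r n) (y n : ℕ) :
    0 ≤ r n - trunc r y n := by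
  rw [trunc_apply]
  split_ifs
  · simp
  · simpa using hr n

lemma trunc_nonneg (r : ArithmeticFunction ℂ) (hr : ∀ n, 0 ≤ r n) (y n : ℕ) :
    0 ≤ trunc r y n := by
  rw [trunc_apply]
  split_ifs
  · exact hr n
  · exact le_rfl

/-- the twisted summand as a monoid homomorphism -/
noncomputable def tw (g : ArithmeticFunction ℂ) (h1 : g 1 = 1)
    (hg : ∀ m n, g (m * n) = g m * g n) (s : ℂ) : ℕ →* ℂ where
  toFun n := g n * (n : ℂ) ^ (-s)
  map_one' := by simp [h1]
  map_mul' m n := by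
    rw [hg, Nat.cast_mul, Complex.natCast_mul_natCast_cpow]
    ring

/-- the finite Euler product -/
noncomputable def EP (g : ArithmeticFunction ℂ) (y : ℕ) (s : ℂ) : ℂ :=
  ∏ p ∈ y.primesBelow, (1 - g p * (p : ℂ) ^ (-s))⁻¹

lemma trunc_hasSum (g : ArithmeticFunction ℂ) (h1 : g 1 = 1)
    (hg : ∀ m n, g (m * n) = g m * g n) (s : ℂ)
    (hs : ∀ p : ℕ, p.Prime → ‖g p * (p : ℂ) ^ (-s)‖ < 1) (y : ℕ) :
    LSeriesHasSum (fun n => trunc g y n) s (EP g y s) := by
  have h := (EulerProduct.summable_and_hasSum_smoothNumbers_prod_primesBelow_geometric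
    (f := tw g h1 hg s) (fun {p} hp => hs p hp) y).2
  have h2 := (hasSum_subtype_iff_indicator (f := fun m => tw g h1 hg s m)
    (s := Nat.smoothNumbers y)).mp h
  unfold LSeriesHasSum EP
  convert! h2 using 1
  ext n
  rw [LSeries.term_def]
  by_cases h0 : n = 0
  · rw [if_pos h0, h0]
    have : (0 : ℕ) ∉ Nat.smoothNumbers y := fun h => Nat.ne_zero_of_mem_smoothNumbers h rfl
    rw [Set.indicator_of_notMem this]
  · rw [if_neg h0, trunc_apply]
    by_cases hn : n ∈ Nat.smoothNumbers y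
    · rw [if_pos hn, Set.indicator_of_mem hn]
      show g n / (n : ℂ) ^ s = g n * (n : ℂ) ^ (-s)
      rw [Complex.cpow_neg]
      rfl
    · rw [if_neg hn, Set.indicator_of_notMem hn, zero_div]

lemma EP_differentiableAt (g : ArithmeticFunction ℂ) (y : ℕ) (s : ℂ)
    (hs : ∀ p : ℕ, p.Prime → ‖g p * (p : ℂ) ^ (-s)‖ < 1) : DifferentiableAt ℂ (EP g y) s := by
  unfold EP
  refine DifferentiableAt.fun_finsetProd ?_
  intro p hp
  have hpp : p.Prime := Nat.prime_of_mem_primesBelow hp
  have hp0 : (p : ℂ) ≠ 0 := by exact_mod_cast hpp.ne_zero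
  refine DifferentiableAt.inv ?_ ?_
  · refine DifferentiableAt.sub (differentiableAt_const _) ?_
    refine DifferentiableAt.mul (differentiableAt_const _) ?_
    refine DifferentiableAt.const_cpow differentiableAt_id.neg (Or.inl hp0)
  · intro h
    have h2 := hs p hpp
    rw [sub_eq_zero] at h
    rw [← h] at h2
    simp at h2

/-- comparison of the two continuations on the real axis -/
lemma compare (r : ArithmeticFunction ℂ) (hr : ∀ n, 0 ≤ r n) (y : ℕ) (R P : ℂ → ℂ) (σ : ℝ)
    (hσ : σ < 1)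
    (hR : DifferentiableOn ℂ R {s | σ < s.re}) (hP : DifferentiableOn ℂ P {s | σ < s.re})
    (h1 : ∀ s : ℂ, 1 < s.re → LSeriesHasSum (fun n => r n) s (R s))
    (h2 : ∀ s : ℂ, 1 < s.re → LSeriesHasSum (fun n => trunc r y n) s (P s))
    (x : ℝ) (hx : σ < x) (hx2 : x ≤ 2) : P x ≤ R x := by
  set d : ℕ → ℂ := fun n => r n - trunc r y n with hd
  have hd0 : 0 ≤ d := fun n => sub_trunc_nonneg r hr y n
  have hsum : ∀ s : ℂ, 1 < s.re → LSeriesHasSum d s (R s - P s) := fun s hs =>
    (h1 s hs).sub (h2 s hs)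
  have habs : LSeries.abscissaOfAbsConv d ≤ ((1 : ℝ) : EReal) := by
    refine LSeries.abscissaOfAbsConv_le_of_forall_lt_LSeriesSummable ?_
    intro y hy
    exact (hsum y (by simpa using hy)).LSeriesSummable
  have habs2 : LSeries.abscissaOfAbsConv d < ((2 : ℝ) : EReal) :=
    lt_of_le_of_lt habs (by exact_mod_cast one_lt_two)
  have hder := LSeries.iteratedDeriv_alternating hd0 habs2
  set G : ℂ → ℂ := fun z => R (-z) - P (-z) with hG
  have hGeq : ∀ n : ℕ, iteratedDeriv n (fun z => R z - P z) ((2 : ℝ) : ℂ)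
      = iteratedDeriv n (LSeries d) ((2 : ℝ) : ℂ) := by
    intro n
    refine Filter.EventuallyEq.iteratedDeriv_eq n ?_
    have ho : IsOpen {s : ℂ | 1 < s.re} := Complex.continuous_re.isOpen_preimage _ isOpen_Ioi
    filter_upwards [ho.mem_nhds (show ((2 : ℝ) : ℂ) ∈ {s : ℂ | 1 < s.re} by simp)] with s hs
    exact ((hsum s hs).LSeries_eq).symm
  have hball : DifferentiableOn ℂ G (Metric.ball (-((2 : ℝ) : ℂ)) (2 - σ)) := by
    have hsub : ∀ z ∈ Metric.ball (-((2 : ℝ) : ℂ)) (2 - σ), -z ∈ {s : ℂ | σ < s.re} := by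
      intro z hz
      rw [Metric.mem_ball, dist_eq_norm] at hz
      have h3 := Complex.abs_re_le_norm (z - -((2 : ℝ) : ℂ))
      have h4 : (z - -((2 : ℝ) : ℂ)).re = z.re + 2 := by simp
      rw [h4] at h3
      have h5 := le_abs_self (z.re + 2)
      show σ < (-z).re
      rw [Complex.neg_re]
      linarith
    refine DifferentiableOn.sub ?_ ?_
    · exact hR.comp (differentiable_neg.differentiableOn) hsub
    · exact hP.comp (differentiable_neg.differentiableOn) hsub
  have hfin := hball.nonneg_of_iteratedDeriv_nonneg (c := -((2 : ℝ) : ℂ)) ?_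
    (z := -(x : ℂ)) ?_ ?_
  · simp only [hG, neg_neg] at hfin
    exact sub_nonneg.mp hfin
  · intro n
    have h6 := iteratedDeriv_comp_neg n (fun z : ℂ => R z - P z) (-((2 : ℝ) : ℂ))
    rw [neg_neg, hGeq n, smul_eq_mul] at h6
    show 0 ≤ iteratedDeriv n (fun z : ℂ => R (-z) - P (-z)) (-((2 : ℝ) : ℂ))
    rw [h6]
    exact hder n
  · rw [neg_le_neg_iff]
    exact_mod_cast hx2
  · rw [Metric.mem_ball, dist_eq_norm]
    have : -(x : ℂ) - -((2 : ℝ) : ℂ) = ((2 - x : ℝ) : ℂ) := by push_cast; ring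
    rw [this, Complex.norm_real, Real.norm_eq_abs, abs_of_nonneg (by linarith)]
    linarith

end Pool.H232R3
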