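import Mathlib
import Pool.Agent.H232R3.CMOPos
import Pool.Agent.H232R3.CMOTrunc
import Pool.Agent.H232R3.CMOMellin

set_option autoImplicit false

open ArithmeticFunction Finset Filter Topology
open scoped ComplexOrder ComplexConjugate

namespace Pool.H232R3

/-- the function 1/n -/
noncomputable def aInv : ArithmeticFunction ℂ := ⟨fun n => (n : ℂ)⁻¹, by simp⟩

lemma aInv_apply (n : ℕ) : aInv n = (n : ℂ)⁻¹ := rfl

/-- complex conjugate -/
noncomputable def cj (g : ArithmeticFunction ℂ) : ArithmeticFunction ℂ :=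
  ⟨fun n => conj (g n), by simp⟩

lemma cj_apply (g : ArithmeticFunction ℂ) (n : ℕ) : cj g n = conj (g n) := rfl

lemma cm_pow (g : ArithmeticFunction ℂ) (h1 : g 1 = 1)
    (hg : ∀ m n, g (m * n) = g m * g n) (n k : ℕ) : g (n ^ k) = g n ^ k := by
  induction k with
  | zero => simp [h1]
  | succ k ih => rw [pow_succ, pow_succ, hg, ih]

lemma SS_cj (g : ArithmeticFunction ℂ) (N : ℕ) :
    SS (fun n => cj g n) N = conj (SS (fun n => g n) N) := by
  unfold SS
  rw [map_sum]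
  rfl

lemma cj_decay (g : ArithmeticFunction ℂ)
    (hd : Tendsto (fun N : ℕ => Real.sqrt N * ‖SS (fun n => g n) N‖) atTop (𝓝 0)) :
    Tendsto (fun N : ℕ => Real.sqrt N * ‖SS (fun n => cj g n) N‖) atTop (𝓝 0) := by
  refine hd.congr fun N => ?_
  rw [SS_cj, RCLike.norm_conj]

lemma SS_succ (f : ℕ → ℂ) (N : ℕ) : SS f (N + 1) = SS f N + f (N + 1) := by
  unfold SS
  rw [Finset.sum_Icc_succ_top (by omega)]

/-- the terms are o(n^{-1/2}) -/
lemma term_decay (f : ℕ → ℂ)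
    (hd : Tendsto (fun N : ℕ => Real.sqrt N * ‖SS f N‖) atTop (𝓝 0)) :
    Tendsto (fun N : ℕ => Real.sqrt N * ‖f N‖) atTop (𝓝 0) := by
  rw [← tendsto_add_atTop_iff_nat 1]
  have h1 : Tendsto (fun N : ℕ => Real.sqrt (N + 1 : ℕ) * ‖SS f (N + 1)‖
      + 2 * (Real.sqrt N * ‖SS f N‖)) atTop (𝓝 (0 + 2 * 0)) :=
    ((tendsto_add_atTop_iff_nat 1).mpr hd).add (hd.const_mul 2)
  rw [mul_zero, add_zero] at h1
  refine squeeze_zero' (Eventually.of_forall fun N => by positivity) ?_ h1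
  filter_upwards [eventually_ge_atTop 1] with N hN
  have h2 : f (N + 1) = SS f (N + 1) - SS f N := by rw [SS_succ]; ring
  have h3 : Real.sqrt (N + 1 : ℕ) ≤ 2 * Real.sqrt N := by
    have : Real.sqrt (N + 1 : ℕ) ≤ Real.sqrt (4 * N) := by
      apply Real.sqrt_le_sqrt
      have : (1 : ℝ) ≤ N := by exact_mod_cast hN
      push_cast
      linarith
    rw [Real.sqrt_mul (by norm_num)] at this
    have h2 : Real.sqrt 4 = 2 := by
      rw [show (4 : ℝ) = 2 ^ 2 by norm_num]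
      exact Real.sqrt_sq (by norm_num)
    rwa [h2] at this
  rw [h2]
  calc Real.sqrt (N + 1 : ℕ) * ‖SS f (N + 1) - SS f N‖
      ≤ Real.sqrt (N + 1 : ℕ) * (‖SS f (N + 1)‖ + ‖SS f N‖) := by
        gcongr; exact norm_sub_le _ _
    _ = Real.sqrt (N + 1 : ℕ) * ‖SS f (N + 1)‖ + Real.sqrt (N + 1 : ℕ) * ‖SS f N‖ := by ring
    _ ≤ Real.sqrt (N + 1 : ℕ) * ‖SS f (N + 1)‖ + (2 * Real.sqrt N) * ‖SS f N‖ := by gcongr
    _ = _ := by ring

lemma prime_small (g : ArithmeticFunction ℂ) (h1 : g 1 = 1)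
    (hg : ∀ m n, g (m * n) = g m * g n)
    (hd : Tendsto (fun N : ℕ => Real.sqrt N * ‖SS (fun n => g n) N‖) atTop (𝓝 0))
    (p : ℕ) (hp : p.Prime) : ‖g p‖ * Real.sqrt p < 1 := by
  have h2 := term_decay _ hd
  have h3 : Tendsto (fun k : ℕ => p ^ k) atTop atTop := tendsto_pow_atTop_atTop_of_one_lt hp.one_lt
  have h4 := h2.comp h3
  have h5 : ∀ k : ℕ, ((fun N : ℕ => Real.sqrt N * ‖g N‖) ∘ fun k => p ^ k) k
      = (‖g p‖ * Real.sqrt p) ^ k := by
    intro k
    simp only [Function.comp]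
    rw [cm_pow g h1 hg, norm_pow, mul_pow, mul_comm]
    congr 1
    push_cast
    have h0 : (0 : ℝ) ≤ p := Nat.cast_nonneg p
    rw [Real.sqrt_eq_iff_mul_self_eq (by positivity) (by positivity), ← mul_pow,
      Real.mul_self_sqrt h0]
  have h6 : Tendsto (fun k : ℕ => (‖g p‖ * Real.sqrt p) ^ k) atTop (𝓝 0) := by
    refine h4.congr h5
  by_contra hcon
  push Not at hcon
  have h7 : ∀ k : ℕ, 1 ≤ (‖g p‖ * Real.sqrt p) ^ k := fun k => one_le_pow₀ hcon
  have h8 := ge_of_tendsto' h6 h7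
  linarith

lemma aInv_hasSum (s : ℂ) (hs : 0 < s.re) :
    LSeriesHasSum (fun n => aInv n) s (riemannZeta (s + 1)) := by
  have h := LSeriesHasSum_one (s := s + 1) (by simpa using hs)
  unfold LSeriesHasSum at h ⊢
  convert! h using 1
  ext n
  rw [LSeries.term_def, LSeries.term_def]
  by_cases h0 : n = 0
  · simp [h0]
  · rw [if_neg h0, if_neg h0, aInv_apply]
    have hn : (n : ℂ) ≠ 0 := by exact_mod_cast h0
    rw [Complex.cpow_add _ _ hn, Complex.cpow_one]
    simp only [Pi.one_apply]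
    field_simp

lemma pos_prime_pow (g : ArithmeticFunction ℂ) (h1 : g 1 = 1)
    (hg : ∀ m n, g (m * n) = g m * g n)
    (hp : ∀ p : ℕ, p.Prime → ‖g p‖ ≤ 1 / p ∨ 0 ≤ g p) (p k : ℕ) (hpp : p.Prime) (_hk : 0 < k) :
    0 ≤ aInv (p ^ k) + aInv (p ^ k) + g (p ^ k) + cj g (p ^ k) := by
  have hp0 : (0 : ℝ) < p := by exact_mod_cast hpp.pos
  have hrw : aInv (p ^ k) + aInv (p ^ k) + g (p ^ k) + cj g (p ^ k)
      = ((2 * ((1 / (p : ℝ)) ^ k) + 2 * (g p ^ k).re : ℝ) : ℂ) := by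
    rw [aInv_apply, cj_apply, cm_pow g h1 hg, add_assoc, Complex.add_conj]
    push_cast
    rw [one_div, inv_pow]
    ring
  rw [hrw, Complex.zero_le_real]
  rcases hp p hpp with h | h
  · have h2 : |(g p ^ k).re| ≤ (1 / (p : ℝ)) ^ k := by
      refine (Complex.abs_re_le_norm _).trans ?_
      rw [norm_pow]
      gcongr
    have h3 := neg_abs_le (g p ^ k).re
    linarith
  · have h2 : 0 ≤ g p ^ k := pow_nonneg h k
    have h3 : 0 ≤ (g p ^ k).re := (Complex.le_def.mp h2).1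
    have h4 : 0 ≤ (1 / (p : ℝ)) ^ k := by positivity
    linarith

/-- summation of the coefficients of zeta over small n is bounded by the Euler product -/
lemma sum_le_prod (q : ℝ) (hq : 1 < q) (N : ℕ) :
    ∑ n ∈ Finset.range N, 1 / (n : ℝ) ^ q ≤ ∏ p ∈ N.primesBelow, (1 - (p : ℝ) ^ (-q))⁻¹ := by
  let φ : ℕ →* ℝ :=
    { toFun := fun n => (n : ℝ) ^ (-q)
      map_one' := by simp
      map_mul' := fun m n => by
        simp only [Nat.cast_mul]
        rw [Real.mul_rpow (Nat.cast_nonneg _) (Nat.cast_nonneg _)] }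
  have hφ : ∀ n : ℕ, φ n = (n : ℝ) ^ (-q) := fun n => rfl
  have h := (EulerProduct.summable_and_hasSum_smoothNumbers_prod_primesBelow_geometric
    (f := φ) (fun {p} hp => by
      rw [hφ, Real.norm_eq_abs, abs_of_nonneg (by positivity)]
      exact Real.rpow_lt_one_of_one_lt_of_neg (by exact_mod_cast hp.one_lt) (by linarith)) N).2
  have h2 := (hasSum_subtype_iff_indicator (f := fun m => φ m)
    (s := Nat.smoothNumbers N)).mp h
  have h3 := sum_le_hasSum (Finset.range N) (fun n _ => Set.indicator_nonneg (fun m _ => by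
    rw [hφ]; positivity) n) h2
  refine le_trans ?_ h3
  refine Finset.sum_le_sum fun n hn => ?_
  rw [Finset.mem_range] at hn
  rcases Nat.eq_zero_or_pos n with h0 | hpos
  · rw [h0, Nat.cast_zero, Real.zero_rpow (by linarith), div_zero]
    exact Set.indicator_nonneg (fun m _ => by rw [hφ]; positivity) 0
  · rw [Set.indicator_of_mem (Nat.mem_smoothNumbers_of_lt hpos hn), hφ, Real.rpow_neg
      (Nat.cast_nonneg _), one_div]

lemma norm_EP (g : ArithmeticFunction ℂ) (y : ℕ) (s : ℂ) :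
    ‖EP g y s‖ = ∏ p ∈ y.primesBelow, ‖1 - g p * (p : ℂ) ^ (-s)‖⁻¹ := by
  unfold EP
  rw [norm_prod]
  simp_rw [norm_inv]

lemma norm_cpow_real (p : ℕ) (hp : p.Prime) (s : ℂ) : ‖(p : ℂ) ^ (-s)‖ = (p : ℝ) ^ (-s.re) := by
  rw [Complex.norm_natCast_cpow_of_pos hp.pos, Complex.neg_re]

lemma aInv_lt_one (s : ℂ) (hs : -(1/2) < s.re) (p : ℕ) (hp : p.Prime) :
    ‖aInv p * (p : ℂ) ^ (-s)‖ < 1 := by
  have hp1 : (1 : ℝ) < p := by exact_mod_cast hp.one_lt
  have hp0 : (0 : ℝ) < p := by linarith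
  rw [norm_mul, norm_cpow_real p hp, aInv_apply, norm_inv, Complex.norm_natCast,
    ← Real.rpow_neg_one, ← Real.rpow_add hp0]
  exact Real.rpow_lt_one_of_one_lt_of_neg hp1 (by linarith)

lemma g_lt_one (g : ArithmeticFunction ℂ) (p : ℕ) (hp : p.Prime)
    (h : ‖g p‖ * Real.sqrt p < 1) (s : ℂ) (hs : -(1/2) < s.re) :
    ‖g p * (p : ℂ) ^ (-s)‖ < 1 := by
  have hp1 : (1 : ℝ) < p := by exact_mod_cast hp.one_lt
  rw [norm_mul, norm_cpow_real p hp]
  refine lt_of_le_of_lt ?_ h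
  gcongr
  rw [Real.sqrt_eq_rpow]
  exact Real.rpow_le_rpow_of_exponent_le hp1.le (by linarith)

/-- lower bound for the local factor -/
lemma local_bound (g : ArithmeticFunction ℂ) (p : ℕ) (hp : p.Prime)
    (h : ‖g p‖ * Real.sqrt p < 1) (hg : ‖g p‖ ≤ 1 / p ∨ 0 ≤ g p) (x : ℝ) (hx : -(1/2) < x) :
    (1 - (p : ℝ) ^ (-(2 + 2 * x)))⁻¹
      ≤ ‖1 - aInv p * (p : ℂ) ^ (-(x : ℂ))‖⁻¹ * ‖1 - g p * (p : ℂ) ^ (-(x : ℂ))‖⁻¹ := by
  have hp1 : (1 : ℝ) < p := by exact_mod_cast hp.one_lt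
  have hp0 : (0 : ℝ) < p := by linarith
  set t : ℝ := (p : ℝ) ^ (-1 - x) with ht
  have ht0 : 0 < t := by positivity
  have ht1 : t < 1 := Real.rpow_lt_one_of_one_lt_of_neg hp1 (by linarith)
  have e1 : (p : ℝ) ^ (-(2 + 2 * x)) = t * t := by
    rw [ht, ← Real.rpow_add hp0]; congr 1; ring
  have e2 : aInv p * (p : ℂ) ^ (-(x : ℂ)) = (t : ℂ) := by
    rw [aInv_apply, ht, ← Complex.ofReal_neg, Complex.ofReal_cpow hp0.le]
    rw [show ((-1 - x : ℝ) : ℂ) = -1 + ((-x : ℝ) : ℂ) by push_cast; ring,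
      Complex.cpow_add _ _ (by exact_mod_cast hp0.ne'), Complex.cpow_neg_one]
    simp
  have e3 : ‖1 - aInv p * (p : ℂ) ^ (-(x : ℂ))‖ = 1 - t := by
    rw [e2, ← Complex.ofReal_one, ← Complex.ofReal_sub, Complex.norm_real, Real.norm_eq_abs,
      abs_of_nonneg (by linarith)]
  have hlt := g_lt_one g p hp h (x : ℂ) (by simpa using hx)
  have e4 : ‖1 - g p * (p : ℂ) ^ (-(x : ℂ))‖ ≤ 1 + t := by
    rcases hg with h2 | h2
    · refine (norm_sub_le _ _).trans ?_
      rw [norm_one, norm_mul, norm_cpow_real p hp]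
      have : ‖g p‖ * (p : ℝ) ^ (-(x : ℂ).re) ≤ 1 / p * (p : ℝ) ^ (-(x : ℂ).re) := by gcongr
      have e5 : 1 / (p : ℝ) * (p : ℝ) ^ (-(x : ℂ).re) = t := by
        rw [ht, one_div, ← Real.rpow_neg_one, ← Real.rpow_add hp0, Complex.ofReal_re]
        congr 1
      rw [e5] at this
      linarith
    · have h3 : g p = ((g p).re : ℂ) := Complex.eq_re_of_ofReal_le h2
      have h4 : 0 ≤ (g p).re := (Complex.le_def.mp h2).1
      have e6 : g p * (p : ℂ) ^ (-(x : ℂ)) = (((g p).re * (p : ℝ) ^ (-x) : ℝ) : ℂ) := by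
        rw [Complex.ofReal_mul, ← h3, Complex.ofReal_cpow hp0.le]
        simp
      rw [e6] at hlt ⊢
      rw [Complex.norm_real, Real.norm_eq_abs, abs_of_nonneg (by positivity)] at hlt
      rw [← Complex.ofReal_one, ← Complex.ofReal_sub, Complex.norm_real, Real.norm_eq_abs,
        abs_of_nonneg (by linarith)]
      have : 0 ≤ (g p).re * (p : ℝ) ^ (-x) := by positivity
      linarith
  have e7 : 0 < ‖1 - g p * (p : ℂ) ^ (-(x : ℂ))‖ := by
    rw [norm_pos_iff]
    intro h0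
    rw [sub_eq_zero] at h0
    rw [← h0] at hlt
    simp at hlt
  rw [e1, e3, ← mul_inv]
  refine inv_anti₀ ?_ ?_
  · have : 0 < 1 - t := by linarith
    positivity
  · have : 0 ≤ 1 - t := by linarith
    calc (1 - t) * ‖1 - g p * (p : ℂ) ^ (-(x : ℂ))‖ ≤ (1 - t) * (1 + t) := by gcongr
      _ = 1 - t * t := by ring

/-- the final contradiction -/
theorem core (g : ArithmeticFunction ℂ) (h1 : g 1 = 1)
    (hg : ∀ m n, g (m * n) = g m * g n)
    (hd : Tendsto (fun N : ℕ => Real.sqrt N * ‖SS (fun n => g n) N‖) atTop (𝓝 0))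
    (hp : ∀ p : ℕ, p.Prime → ‖g p‖ ≤ 1 / p ∨ 0 ≤ g p) : False := by
  have hdc := cj_decay g hd
  have hc1 : cj g 1 = 1 := by rw [cj_apply, h1, map_one]
  have hcg : ∀ m n, cj g (m * n) = cj g m * cj g n := by
    intro m n; rw [cj_apply, hg, map_mul]; rfl
  have ha1 : aInv 1 = 1 := by rw [aInv_apply]; simp
  have hag : ∀ m n, aInv (m * n) = aInv m * aInv n := by
    intro m n; rw [aInv_apply, aInv_apply, aInv_apply]; push_cast; rw [mul_inv]
  have hps := prime_small g h1 hg hd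
  have hpsc : ∀ p : ℕ, p.Prime → ‖cj g p‖ * Real.sqrt p < 1 := by
    intro p hp; rw [cj_apply, RCLike.norm_conj]; exact hps p hp
  have hpc : ∀ p : ℕ, p.Prime → ‖cj g p‖ ≤ 1 / p ∨ 0 ≤ cj g p := by
    intro p hpp
    rcases hp p hpp with h | h
    · left; rw [cj_apply, RCLike.norm_conj]; exact h
    · right
      rw [cj_apply]
      have h3 : g p = ((g p).re : ℂ) := Complex.eq_re_of_ofReal_le h
      rw [h3, Complex.conj_ofReal, ← h3]
      exact h
  set r := aInv * aInv * (g * cj g) with hr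
  have hr0 : ∀ n, 0 ≤ r n := four_nonneg aInv aInv g (cj g) hag hag hg hcg ha1 ha1 h1 hc1
    (fun p k hpp hk => pos_prime_pow g h1 hg hp p k hpp hk)
  set Z : ℂ → ℂ := fun s => DirichletCharacter.LFunctionTrivChar₁ 1 (s + 1) with hZ
  have hZd : Differentiable ℂ Z :=
    (DirichletCharacter.differentiable_LFunctionTrivChar₁ 1).comp
      (differentiable_id.add (differentiable_const 1))
  have hZe : ∀ s : ℂ, s ≠ 0 → Z s = s * riemannZeta (s + 1) := by
    intro s hs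
    have hs1 : s + 1 ≠ 1 := by simpa using hs
    simp only [hZ]
    rw [DirichletCharacter.LFunctionTrivChar₁, Function.update_of_ne hs1,
      DirichletCharacter.LFunctionTrivChar_eq_mul_riemannZeta hs1]
    simp
  set R : ℂ → ℂ := fun s => Z s * Z s * (Phi (fun n => g n) s * Phi (fun n => cj g n) s) with hR
  have hRd : DifferentiableOn ℂ R {s | -(1/2) < s.re} := by
    intro s hs
    have d1 := Phi_differentiableAt _ hd s hs
    have d2 := Phi_differentiableAt _ hdc s hs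
    exact (((hZd s).mul (hZd s)).mul (d1.mul d2)).differentiableWithinAt
  -- bounded coefficients
  have hbd : ∀ f : ℕ → ℂ, Tendsto (fun N : ℕ => Real.sqrt N * ‖SS f N‖) atTop (𝓝 0) →
      ∀ s : ℂ, 1 < s.re → LSeriesSummable f s := by
    intro f hf s hs
    obtain ⟨C, hC0, hC⟩ := bound_of_tendsto f hf
    have hb := norm_SS_le_const f C hC0 hC
    refine LSeriesSummable_of_bounded_of_one_lt_re (m := 2 * C) ?_ hs
    intro n hn
    obtain ⟨m, rfl⟩ : ∃ m, n = m + 1 := ⟨n - 1, by omega⟩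
    have h2 : f (m + 1) = SS f (m + 1) - SS f m := by rw [SS_succ]; ring
    rw [h2]
    refine (norm_sub_le _ _).trans ?_
    have := hb (m + 1)
    have := hb m
    linarith
  have hsg : ∀ s : ℂ, 1 < s.re → LSeriesHasSum (fun n => g n) s (s * Phi (fun n => g n) s) := by
    intro s hs
    have h2 := hbd _ hd s hs
    rw [← Phi_LSeries _ hd s (by linarith) h2]
    exact h2.LSeriesHasSum
  have hsc : ∀ s : ℂ, 1 < s.re →
      LSeriesHasSum (fun n => cj g n) s (s * Phi (fun n => cj g n) s) := by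
    intro s hs
    have h2 := hbd _ hdc s hs
    rw [← Phi_LSeries _ hdc s (by linarith) h2]
    exact h2.LSeriesHasSum
  have hRsum : ∀ s : ℂ, 1 < s.re → LSeriesHasSum (fun n => r n) s (R s) := by
    intro s hs
    have s0 : s ≠ 0 := by rintro rfl; simp at hs; linarith
    have ha := aInv_hasSum s (by linarith)
    have h2 := ArithmeticFunction.LSeriesHasSum_mul (ArithmeticFunction.LSeriesHasSum_mul ha ha)
      (ArithmeticFunction.LSeriesHasSum_mul (hsg s hs) (hsc s hs))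
    have e : riemannZeta (s + 1) * riemannZeta (s + 1) *
        (s * Phi (fun n => g n) s * (s * Phi (fun n => cj g n) s)) = R s := by
      simp only [hR]
      rw [hZe s s0]
      ring
    rw [e] at h2
    exact h2
  -- the comparison
  have hcmp : ∀ (y : ℕ) (x : ℝ), -(1/2) < x → x ≤ 2 →
      ‖EP aInv y x‖ * ‖EP aInv y x‖ * (‖EP g y x‖ * ‖EP (cj g) y x‖) ≤ ‖R x‖ := by
    intro y x hx hx2
    set P : ℂ → ℂ := fun s => EP aInv y s * EP aInv y s * (EP g y s * EP (cj g) y s) with hP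
    have hPsum : ∀ s : ℂ, -(1/2) < s.re → LSeriesHasSum (fun n => trunc r y n) s (P s) := by
      intro s hs
      have i1 := trunc_hasSum aInv ha1 hag s (aInv_lt_one s hs) y
      have i2 := trunc_hasSum g h1 hg s (fun p hpp => g_lt_one g p hpp (hps p hpp) s hs) y
      have i3 := trunc_hasSum (cj g) hc1 hcg s
        (fun p hpp => g_lt_one (cj g) p hpp (hpsc p hpp) s hs) y
      have i4 := ArithmeticFunction.LSeriesHasSum_mul (ArithmeticFunction.LSeriesHasSum_mul i1 i1)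
        (ArithmeticFunction.LSeriesHasSum_mul i2 i3)
      rw [trunc_mul, trunc_mul, trunc_mul] at i4
      exact i4
    have hPd : DifferentiableOn ℂ P {s | -(1/2) < s.re} := by
      intro s hs
      have d1 := EP_differentiableAt aInv y s (aInv_lt_one s hs)
      have d2 := EP_differentiableAt g y s (fun p hpp => g_lt_one g p hpp (hps p hpp) s hs)
      have d3 := EP_differentiableAt (cj g) y s
        (fun p hpp => g_lt_one (cj g) p hpp (hpsc p hpp) s hs)
      exact ((d1.mul d1).mul (d2.mul d3)).differentiableWithinAt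
    have hle := compare r hr0 y R P (-(1/2)) (by norm_num) hRd hPd hRsum
      (fun s hs => hPsum s (by linarith)) x hx hx2
    have hP0 : 0 ≤ P x := by
      have h3 := hPsum x (by simpa using hx)
      have h4 : HasSum (LSeries.term (fun n => trunc r y n) (x : ℂ)) (P x) := h3
      rw [← h4.tsum_eq]
      refine tsum_nonneg fun n => ?_
      exact LSeries.term_nonneg (trunc_nonneg r hr0 y n) x
    have hR0 : 0 ≤ R x := hP0.trans hle
    have e1 : P x = ((P x).re : ℂ) := Complex.eq_re_of_ofReal_le hP0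
    have e2 : R x = ((R x).re : ℂ) := Complex.eq_re_of_ofReal_le hR0
    have e3 : ‖P x‖ ≤ ‖R x‖ := by
      rw [e1, e2, Complex.norm_real, Complex.norm_real, Real.norm_eq_abs, Real.norm_eq_abs,
        abs_of_nonneg (Complex.le_def.mp hP0).1, abs_of_nonneg (Complex.le_def.mp hR0).1]
      exact (Complex.le_def.mp hle).1
    rw [← norm_mul, ← norm_mul, ← norm_mul]
    exact e3
  -- lower bound for R
  have hlow : ∀ (N : ℕ) (x : ℝ), -(1/2) < x → x ≤ 2 →
      (∑ n ∈ Finset.range N, 1 / (n : ℝ) ^ (2 + 2 * x)) ^ 2 ≤ ‖R x‖ := by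
    intro N x hx hx2
    refine le_trans ?_ (hcmp N x hx hx2)
    rw [norm_EP, norm_EP, norm_EP]
    have hs0 : 0 ≤ ∑ n ∈ Finset.range N, 1 / (n : ℝ) ^ (2 + 2 * x) :=
      Finset.sum_nonneg fun n _ => by positivity
    have h2 := sum_le_prod (2 + 2 * x) (by linarith) N
    have h3 : ∀ G : ArithmeticFunction ℂ, (∀ p : ℕ, p.Prime → ‖G p‖ * Real.sqrt p < 1) →
        (∀ p : ℕ, p.Prime → ‖G p‖ ≤ 1 / p ∨ 0 ≤ G p) →
        ∏ p ∈ N.primesBelow, (1 - (p : ℝ) ^ (-(2 + 2 * x)))⁻¹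
        ≤ (∏ p ∈ N.primesBelow, ‖1 - aInv p * (p : ℂ) ^ (-(x : ℂ))‖⁻¹) *
          (∏ p ∈ N.primesBelow, ‖1 - G p * (p : ℂ) ^ (-(x : ℂ))‖⁻¹) := by
      intro G hG hG2
      rw [← Finset.prod_mul_distrib]
      refine Finset.prod_le_prod ?_ ?_
      · intro p hpb
        have hpp := Nat.prime_of_mem_primesBelow hpb
        have : (p : ℝ) ^ (-(2 + 2 * x)) < 1 :=
          Real.rpow_lt_one_of_one_lt_of_neg (by exact_mod_cast hpp.one_lt) (by linarith)
        rw [inv_nonneg]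
        linarith
      · intro p hpb
        have hpp := Nat.prime_of_mem_primesBelow hpb
        exact local_bound G p hpp (hG p hpp) (hG2 p hpp) x hx
    have h4 := h3 g hps hp
    have h5 := h3 (cj g) hpsc hpc
    have h6 := h2.trans h4
    have h7 := h2.trans h5
    calc (∑ n ∈ Finset.range N, 1 / (n : ℝ) ^ (2 + 2 * x)) ^ 2
        = (∑ n ∈ Finset.range N, 1 / (n : ℝ) ^ (2 + 2 * x)) *
          (∑ n ∈ Finset.range N, 1 / (n : ℝ) ^ (2 + 2 * x)) := by ring
      _ ≤ ((∏ p ∈ N.primesBelow, ‖1 - aInv p * (p : ℂ) ^ (-(x : ℂ))‖⁻¹) *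
          (∏ p ∈ N.primesBelow, ‖1 - g p * (p : ℂ) ^ (-(x : ℂ))‖⁻¹)) *
          ((∏ p ∈ N.primesBelow, ‖1 - aInv p * (p : ℂ) ^ (-(x : ℂ))‖⁻¹) *
          (∏ p ∈ N.primesBelow, ‖1 - cj g p * (p : ℂ) ^ (-(x : ℂ))‖⁻¹)) :=
          mul_le_mul h6 h7 hs0 (hs0.trans h6)
      _ = _ := by ring
  -- the zeta sum
  have hz : ∀ x : ℝ, -(1/2) < x → x ≤ 2 →
      ∑' n : ℕ, 1 / (n : ℝ) ^ (2 + 2 * x) ≤ Real.sqrt ‖R x‖ := by
    intro x hx hx2
    refine Real.tsum_le_of_sum_range_le (fun n => by positivity) fun N => ?_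
    exact Real.le_sqrt_of_sq_le (hlow N x hx hx2)
  have hlim := tendsto_sub_mul_tsum_nat_rpow
  have hev : ∀ᶠ q in 𝓝[>] (1 : ℝ), 1 / 2 < (q - 1) * ∑' n : ℕ, 1 / (n : ℝ) ^ q :=
    (tendsto_order.mp hlim).1 _ (by norm_num)
  rw [eventually_nhdsWithin_iff, Metric.eventually_nhds_iff] at hev
  obtain ⟨δ, hδ, hev⟩ := hev
  -- bound for Z
  obtain ⟨K, hK⟩ : ∃ K : ℝ, ∀ s ∈ Metric.closedBall (0 : ℂ) 1, ‖Z s‖ ≤ K :=
    (isCompact_closedBall (0 : ℂ) 1).exists_bound_of_continuousOn hZd.continuous.continuousOn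
  have hK0 : 0 ≤ K := (norm_nonneg _).trans (hK 0 (by simp))
  set ε : ℝ := 1 / (16 * (K + 1)) with hε
  have hε0 : 0 < ε := by positivity
  obtain ⟨B₁, hB₁0, hB₁⟩ := Phi_small _ hd ε hε0
  obtain ⟨B₂, hB₂0, hB₂⟩ := Phi_small _ hdc ε hε0
  set B := max B₁ B₂ with hB
  have hB0 : 0 ≤ B := hB₁0.trans (le_max_left _ _)
  set h : ℝ := min (min (δ / 4) (1/4)) (1 / (16 * (K + 1) * (B + 1))) with hh
  have hh0 : 0 < h := by
    rw [hh]
    refine lt_min (lt_min (by positivity) (by norm_num)) (by positivity)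
  have hh1 : h ≤ δ / 4 := (min_le_left _ _).trans (min_le_left _ _)
  have hh2 : h ≤ 1 / 4 := (min_le_left _ _).trans (min_le_right _ _)
  have hh3 : h ≤ 1 / (16 * (K + 1) * (B + 1)) := min_le_right _ _
  set x : ℝ := h - 1/2 with hx
  have hx1 : -(1/2) < x := by rw [hx]; linarith
  have hx2 : x ≤ 2 := by rw [hx]; linarith
  have hq := hev (y := 2 + 2 * x) (by
    rw [Real.dist_eq, hx]
    have : 2 + 2 * (h - 1/2) - 1 = 2 * h := by ring
    rw [this, abs_of_nonneg (by linarith)]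
    linarith) (by show (1:ℝ) < 2 + 2 * x; rw [hx]; linarith)
  have hq1 : 2 + 2 * x - 1 = 2 * h := by rw [hx]; ring
  rw [hq1] at hq
  have hzx := hz x hx1 hx2
  have hup : ‖R x‖ ≤ (K * (B + ε / h)) ^ 2 := by
    have hZx : ‖Z x‖ ≤ K := hK x (by
      rw [mem_closedBall_zero_iff, Complex.norm_real, Real.norm_eq_abs, abs_le]
      constructor <;> (rw [hx]; linarith))
    have hxh : x + 1/2 = h := by rw [hx]; ring
    have p1 := hB₁ x hx1
    have p2 := hB₂ x hx1
    rw [hxh] at p1 p2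
    have p3 : ‖Phi (fun n => g n) x‖ ≤ B + ε / h := p1.trans (by gcongr; exact le_max_left _ _)
    have p4 : ‖Phi (fun n => cj g n) x‖ ≤ B + ε / h := p2.trans (by gcongr; exact le_max_right _ _)
    have p5 : 0 ≤ B + ε / h := by positivity
    simp only [hR, norm_mul]
    calc ‖Z x‖ * ‖Z x‖ * (‖Phi (fun n => g n) x‖ * ‖Phi (fun n => cj g n) x‖)
        ≤ K * K * ((B + ε / h) * (B + ε / h)) := by gcongr
      _ = (K * (B + ε / h)) ^ 2 := by ring
  have hsq : Real.sqrt ‖R x‖ ≤ K * (B + ε / h) := by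
    rw [Real.sqrt_le_left (by positivity)]
    exact hup
  have hfin : 1 / 2 < 2 * h * (K * (B + ε / h)) := by
    refine hq.trans_le ?_
    have := hzx.trans hsq
    gcongr
  have e8 : 2 * h * (K * (B + ε / h)) = 2 * K * (h * B) + 2 * K * ε := by
    field_simp
  rw [e8] at hfin
  have e9 : 2 * K * ε ≤ 1 / 8 := by
    rw [hε, mul_one_div, div_le_div_iff₀ (by positivity) (by norm_num)]
    linarith
  have e10 : 2 * K * (h * B) ≤ 1 / 8 := by
    have : h * B ≤ 1 / (16 * (K + 1)) := by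
      calc h * B ≤ 1 / (16 * (K + 1) * (B + 1)) * B := by gcongr
        _ ≤ 1 / (16 * (K + 1) * (B + 1)) * (B + 1) := by gcongr; linarith
        _ = 1 / (16 * (K + 1)) := by field_simp
    calc 2 * K * (h * B) ≤ 2 * K * (1 / (16 * (K + 1))) := by gcongr
      _ ≤ 1 / 8 := e9
  linarith

end Pool.H232R3
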