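import Mathlib
import Pool.Agent.H232R3.CMOCore

set_option autoImplicit false

open ArithmeticFunction Finset Filter Topology

namespace Pool.H232R3

lemma cm_isMultiplicative (g : ArithmeticFunction ℂ) (h1 : g 1 = 1)
    (hg : ∀ m n, g (m * n) = g m * g n) : g.IsMultiplicative := ⟨h1, fun {m n} _ => hg m n⟩

/-- the Dirichlet inverse of a completely multiplicative function -/
noncomputable def muf (f : ArithmeticFunction ℂ) : ArithmeticFunction ℂ :=
  ⟨fun n => ((moebius n : ℤ) : ℂ) * f n, by simp⟩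

lemma muf_apply (f : ArithmeticFunction ℂ) (n : ℕ) : muf f n = ((moebius n : ℤ) : ℂ) * f n := rfl

lemma mul_muf (f : ArithmeticFunction ℂ) (h1 : f 1 = 1) (hf : ∀ m n, f (m * n) = f m * f n) :
    f * muf f = 1 := by
  ext n
  rw [mul_apply]
  have h : ∀ p ∈ n.divisorsAntidiagonal, f p.1 * muf f p.2
      = f n * ((moebius p.2 : ℤ) : ℂ) := by
    intro p hp
    rw [Nat.mem_divisorsAntidiagonal] at hp
    rw [muf_apply, ← hp.1, hf]
    ring
  rw [Finset.sum_congr rfl h, ← Finset.mul_sum]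
  have h2 : ∑ p ∈ n.divisorsAntidiagonal, ((moebius p.2 : ℤ) : ℂ)
      = (1 : ArithmeticFunction ℂ) n := by
    rw [← coe_zeta_mul_coe_moebius (R := ℂ), mul_apply]
    refine Finset.sum_congr rfl fun p hp => ?_
    rw [Nat.mem_divisorsAntidiagonal] at hp
    have ha : p.1 ≠ 0 := by rintro h; rw [h, zero_mul] at hp; exact hp.2 hp.1.symm
    rw [natCoe_apply, zeta_apply, if_neg ha, intCoe_apply]
    simp
  rw [h2]
  by_cases hn : n = 1
  · rw [hn, h1]; simp
  · rw [one_apply_ne hn, mul_zero]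

lemma muf_isMultiplicative (f : ArithmeticFunction ℂ) (h1 : f 1 = 1)
    (hf : ∀ m n, f (m * n) = f m * f n) : (muf f).IsMultiplicative := by
  refine ⟨by rw [muf_apply, h1]; simp, ?_⟩
  intro m n hmn
  rw [muf_apply, muf_apply, muf_apply, isMultiplicative_moebius.map_mul_of_coprime hmn, hf]
  push_cast
  ring

/-- the quotient -/
noncomputable def quo (f g : ArithmeticFunction ℂ) : ArithmeticFunction ℂ := g * muf f

lemma mul_quo (f g : ArithmeticFunction ℂ) (h1 : f 1 = 1) (hf : ∀ m n, f (m * n) = f m * f n) :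
    quo f g * f = g := by
  unfold quo
  rw [mul_assoc, mul_comm (muf f) f, mul_muf f h1 hf, mul_one]

lemma quo_prime_pow (f g : ArithmeticFunction ℂ) (h1 : f 1 = 1)
    (hf : ∀ m n, f (m * n) = f m * f n) (g1 : g 1 = 1) (hg : ∀ m n, g (m * n) = g m * g n)
    (p : ℕ) (hp : p.Prime) (j : ℕ) :
    quo f g (p ^ (j + 1)) = g p ^ j * (g p - f p) := by
  unfold quo
  rw [mul_comm, mul_apply, Nat.sum_divisorsAntidiagonal (f := fun a b => muf f a * g b),
    Nat.sum_divisors_prime_pow hp]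
  rw [Finset.sum_range_succ', Finset.sum_range_succ']
  have h0 : ∑ x ∈ Finset.range j, muf f (p ^ (x + 1 + 1)) * g (p ^ (j + 1) / p ^ (x + 1 + 1)) = 0 := by
    refine Finset.sum_eq_zero fun x _ => ?_
    rw [muf_apply, moebius_apply_prime_pow hp (by omega), if_neg (by omega)]
    simp
  rw [h0, zero_add, zero_add, pow_zero, pow_one, Nat.div_one, muf_apply, muf_apply,
    moebius_apply_prime hp, moebius_apply_one, h1, cm_pow g g1 hg]
  have : p ^ (j + 1) / p = p ^ j := by
    rw [pow_succ, Nat.mul_div_cancel _ hp.pos]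
  rw [this, cm_pow g g1 hg]
  push_cast
  ring

lemma quo_isMultiplicative (f g : ArithmeticFunction ℂ) (h1 : f 1 = 1)
    (hf : ∀ m n, f (m * n) = f m * f n) (g1 : g 1 = 1) (hg : ∀ m n, g (m * n) = g m * g n) :
    (quo f g).IsMultiplicative :=
  (cm_isMultiplicative g g1 hg).mul (muf_isMultiplicative f h1 hf)

/-- summability of the quotient with weight sqrt n -/
lemma quo_summable (f g : ArithmeticFunction ℂ) (h1 : f 1 = 1)
    (hf : ∀ m n, f (m * n) = f m * f n) (g1 : g 1 = 1) (hg : ∀ m n, g (m * n) = g m * g n)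
    (hlt : ∀ p : ℕ, p.Prime → ‖g p‖ * Real.sqrt p < 1)
    (hS : Summable fun p : ℕ => if p.Prime then
      ‖g p - f p‖ * Real.sqrt p / (1 - ‖g p‖ * Real.sqrt p) else 0) :
    Summable fun n : ℕ => ‖quo f g n‖ * Real.sqrt n := by
  set k : ℕ → ℝ := fun n => ‖quo f g n‖ * Real.sqrt n with hk
  have hkm := quo_isMultiplicative f g h1 hf g1 hg
  have hk1 : k 1 = 1 := by simp [hk, hkm.map_one]
  have hkmul : ∀ {m n : ℕ}, Nat.Coprime m n → k (m * n) = k m * k n := by
    intro m n hmn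
    simp only [hk]
    rw [hkm.map_mul_of_coprime hmn, norm_mul, Nat.cast_mul, Real.sqrt_mul (Nat.cast_nonneg _)]
    ring
  have hk0 : ∀ n, 0 ≤ k n := fun n => by simp only [hk]; positivity
  have hkp : ∀ p : ℕ, p.Prime → ∀ j : ℕ, k (p ^ (j + 1))
      = (‖g p - f p‖ * Real.sqrt p) * (‖g p‖ * Real.sqrt p) ^ j := by
    intro p hp j
    simp only [hk]
    rw [quo_prime_pow f g h1 hf g1 hg p hp j, norm_mul, norm_pow, mul_pow]
    have : Real.sqrt ((p ^ (j + 1) : ℕ) : ℝ) = Real.sqrt p ^ j * Real.sqrt p := by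
      rw [← pow_succ]
      push_cast
      have h0 : (0 : ℝ) ≤ p := Nat.cast_nonneg p
      rw [Real.sqrt_eq_iff_mul_self_eq (by positivity) (by positivity), ← mul_pow,
        Real.mul_self_sqrt h0]
    rw [this]
    ring
  have hgeo : ∀ p : ℕ, p.Prime → HasSum (fun j : ℕ => k (p ^ j))
      (1 + ‖g p - f p‖ * Real.sqrt p / (1 - ‖g p‖ * Real.sqrt p)) := by
    intro p hp
    have h2 : HasSum (fun j : ℕ => k (p ^ (j + 1)))
        (‖g p - f p‖ * Real.sqrt p / (1 - ‖g p‖ * Real.sqrt p)) := by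
      simp_rw [hkp p hp]
      rw [div_eq_mul_inv]
      exact (hasSum_geometric_of_lt_one (by positivity) (hlt p hp)).mul_left _
    have h3 := (hasSum_nat_add_iff (f := fun j : ℕ => k (p ^ j)) 1).mp h2
    rw [Finset.sum_range_one, pow_zero, hk1, add_comm] at h3
    exact h3
  have hgs : ∀ {p : ℕ}, p.Prime → Summable (fun n : ℕ => ‖k (p ^ n)‖) := by
    intro p hp
    refine (hgeo p hp).summable.congr fun j => ?_
    rw [Real.norm_eq_abs, abs_of_nonneg (hk0 _)]
  refine summable_of_sum_range_le (c := Real.exp (∑' p : ℕ, if p.Prime then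
      ‖g p - f p‖ * Real.sqrt p / (1 - ‖g p‖ * Real.sqrt p) else 0)) hk0 fun N => ?_
  have hE := (EulerProduct.summable_and_hasSum_smoothNumbers_prod_primesBelow_tsum hk1 hkmul
    hgs N).2
  have h2 := (hasSum_subtype_iff_indicator (f := k) (s := Nat.smoothNumbers N)).mp hE
  have h3 := sum_le_hasSum (Finset.range N) (fun n _ => Set.indicator_nonneg
    (fun m _ => hk0 m) n) h2
  have h4 : ∑ i ∈ Finset.range N, k i ≤ ∑ i ∈ Finset.range N,
      (Nat.smoothNumbers N).indicator k i := by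
    refine Finset.sum_le_sum fun n hn => ?_
    rw [Finset.mem_range] at hn
    rcases Nat.eq_zero_or_pos n with h0 | hpos
    · rw [h0]
      have : k 0 = 0 := by simp [hk]
      rw [this]
      exact Set.indicator_nonneg (fun m _ => hk0 m) 0
    · rw [Set.indicator_of_mem (Nat.mem_smoothNumbers_of_lt hpos hn)]
  refine (h4.trans h3).trans ?_
  have h5 : ∏ p ∈ N.primesBelow, ∑' n : ℕ, k (p ^ n) ≤ ∏ p ∈ N.primesBelow,
      Real.exp (if p.Prime then
      ‖g p - f p‖ * Real.sqrt p / (1 - ‖g p‖ * Real.sqrt p) else 0) := by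
    refine Finset.prod_le_prod (fun p _ => tsum_nonneg fun _ => hk0 _) fun p hpb => ?_
    have hpp := Nat.prime_of_mem_primesBelow hpb
    rw [(hgeo p hpp).tsum_eq, if_pos hpp, add_comm]
    exact Real.add_one_le_exp _
  refine h5.trans ?_
  rw [← Real.exp_sum]
  refine Real.exp_le_exp.mpr ?_
  refine hS.sum_le_tsum _ fun p _ => ?_
  split_ifs with hpp
  · have := hlt p hpp
    have h6 : 0 ≤ 1 - ‖g p‖ * Real.sqrt p := by linarith
    positivity
  · exact le_rfl

lemma SS_quo (f g : ArithmeticFunction ℂ) (h1 : f 1 = 1) (hf : ∀ m n, f (m * n) = f m * f n)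
    (N : ℕ) : SS (fun n => g n) N
      = ∑ d ∈ Finset.Ioc 0 N, quo f g d * SS (fun n => f n) (N / d) := by
  have h := sum_Ioc_mul_eq_sum_sum (quo f g) f N
  rw [mul_quo f g h1 hf] at h
  exact h

/-- removing a summable perturbation keeps the decay -/
theorem perturb (f g : ArithmeticFunction ℂ) (h1 : f 1 = 1)
    (hf : ∀ m n, f (m * n) = f m * f n) (g1 : g 1 = 1) (hg : ∀ m n, g (m * n) = g m * g n)
    (hlt : ∀ p : ℕ, p.Prime → ‖g p‖ * Real.sqrt p < 1)
    (hS : Summable fun p : ℕ => if p.Prime then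
      ‖g p - f p‖ * Real.sqrt p / (1 - ‖g p‖ * Real.sqrt p) else 0)
    (hd : Tendsto (fun N : ℕ => Real.sqrt N * ‖SS (fun n => f n) N‖) atTop (𝓝 0)) :
    Tendsto (fun N : ℕ => Real.sqrt N * ‖SS (fun n => g n) N‖) atTop (𝓝 0) := by
  obtain ⟨C, hC0, hC⟩ := bound_of_tendsto _ hd
  have hsum := quo_summable f g h1 hf g1 hg hlt hS
  set G : ℕ → ℕ → ℝ := fun N d => ‖quo f g d‖ * (Real.sqrt N * ‖SS (fun n => f n) (N / d)‖)
    with hG
  -- sqrt N <= 2 sqrt d sqrt (N/d) as soon as N/d >= 1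
  have hfl : ∀ N d : ℕ, 0 < d → 0 < N / d → Real.sqrt N
      ≤ 2 * Real.sqrt d * Real.sqrt ((N / d : ℕ) : ℝ) := by
    intro N d hd0 hNd
    have h2 : N ≤ 4 * (d * (N / d)) := by
      have := Nat.div_add_mod N d
      have h3 := Nat.mod_lt N hd0
      have h4 : d * 1 ≤ d * (N / d) := Nat.mul_le_mul_left d hNd
      omega
    have h3 : (N : ℝ) ≤ 4 * (d * (N / d : ℕ)) := by exact_mod_cast h2
    have h4 : Real.sqrt N ≤ Real.sqrt (4 * (d * (N / d : ℕ))) := Real.sqrt_le_sqrt h3
    rw [Real.sqrt_mul (by norm_num), Real.sqrt_mul (Nat.cast_nonneg _)] at h4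
    have h5 : Real.sqrt 4 = 2 := by
      rw [show (4 : ℝ) = 2 ^ 2 by norm_num]
      exact Real.sqrt_sq (by norm_num)
    rw [h5] at h4
    linarith
  have hGb : ∀ N d : ℕ, ‖G N d‖ ≤ 2 * C * (‖quo f g d‖ * Real.sqrt d) := by
    intro N d
    rw [Real.norm_eq_abs, abs_of_nonneg (by simp only [hG]; positivity)]
    simp only [hG]
    rcases Nat.eq_zero_or_pos d with h0 | hd0
    · rw [h0]; simp
    rcases Nat.eq_zero_or_pos (N / d) with h0 | hNd
    · rw [h0, SS_zero]; simp; positivity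
    have h2 := hfl N d hd0 hNd
    have h3 := hC (N / d)
    calc ‖quo f g d‖ * (Real.sqrt N * ‖SS (fun n => f n) (N / d)‖)
        ≤ ‖quo f g d‖ * ((2 * Real.sqrt d * Real.sqrt ((N / d : ℕ) : ℝ)) *
          ‖SS (fun n => f n) (N / d)‖) := by gcongr
      _ = 2 * (‖quo f g d‖ * Real.sqrt d) * (Real.sqrt ((N / d : ℕ) : ℝ) *
          ‖SS (fun n => f n) (N / d)‖) := by ring
      _ ≤ 2 * (‖quo f g d‖ * Real.sqrt d) * C := by gcongr
      _ = _ := by ring
  have hGlim : ∀ d : ℕ, Tendsto (fun N => G N d) atTop (𝓝 0) := by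
    intro d
    rcases Nat.eq_zero_or_pos d with h0 | hd0
    · have : ∀ N, G N d = 0 := by intro N; simp only [hG]; rw [h0]; simp
      simp_rw [this]; exact tendsto_const_nhds
    have hdiv : Tendsto (fun N : ℕ => N / d) atTop atTop :=
      Nat.tendsto_div_const_atTop hd0.ne'
    have h2 := hd.comp hdiv
    have h3 := h2.const_mul (‖quo f g d‖ * (2 * Real.sqrt d))
    rw [mul_zero] at h3
    refine squeeze_zero' (Eventually.of_forall fun N => by simp only [hG]; positivity) ?_ h3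
    filter_upwards [hdiv.eventually_ge_atTop 1] with N hN
    have h4 := hfl N d hd0 hN
    simp only [hG, Function.comp]
    calc ‖quo f g d‖ * (Real.sqrt N * ‖SS (fun n => f n) (N / d)‖)
        ≤ ‖quo f g d‖ * ((2 * Real.sqrt d * Real.sqrt ((N / d : ℕ) : ℝ)) *
          ‖SS (fun n => f n) (N / d)‖) := by gcongr
      _ = _ := by ring
  have hT := tendsto_tsum_of_dominated_convergence (𝓕 := atTop) (f := G) (g := fun _ => (0 : ℝ))
    (bound := fun d => 2 * C * (‖quo f g d‖ * Real.sqrt d)) (hsum.mul_left _) hGlim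
    (Eventually.of_forall fun N d => hGb N d)
  rw [tsum_zero] at hT
  refine squeeze_zero (fun N => by positivity) (fun N => ?_) hT
  have hGs : Summable (G N) := Summable.of_norm_bounded (hsum.mul_left (2 * C)) (hGb N)
  rw [SS_quo f g h1 hf N]
  calc Real.sqrt N * ‖∑ d ∈ Finset.Ioc 0 N, quo f g d * SS (fun n => f n) (N / d)‖
      ≤ Real.sqrt N * ∑ d ∈ Finset.Ioc 0 N, ‖quo f g d * SS (fun n => f n) (N / d)‖ := by
        gcongr; exact norm_sum_le _ _
    _ = ∑ d ∈ Finset.Ioc 0 N, G N d := by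
        rw [Finset.mul_sum]
        refine Finset.sum_congr rfl fun d _ => ?_
        simp only [hG]
        rw [norm_mul]
        ring
    _ ≤ ∑' d, G N d := hGs.sum_le_tsum _ fun d _ => by simp only [hG]; positivity

end Pool.H232R3
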