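import Mathlib
import Pool.Agent.H232R3.CMOPerturb

set_option autoImplicit false

open ArithmeticFunction Finset Filter Topology
open scoped ComplexOrder

namespace Pool.H232R3

/-- extension of a sequence by 0 at 0 -/
noncomputable def ext0 (f : ℕ → ℂ) : ArithmeticFunction ℂ := ⟨fun n => if n = 0 then 0 else f n, by simp⟩

lemma ext0_apply (f : ℕ → ℂ) (n : ℕ) (hn : n ≠ 0) : ext0 f n = f n := if_neg hn

lemma ext0_mul (f : ℕ → ℂ) (hf : ∀ m n : ℕ, 0 < m → 0 < n → f (m * n) = f m * f n) (m n : ℕ) :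
    ext0 f (m * n) = ext0 f m * ext0 f n := by
  rcases Nat.eq_zero_or_pos m with h0 | hm
  · rw [h0, zero_mul]; simp
  rcases Nat.eq_zero_or_pos n with h0 | hn
  · rw [h0, mul_zero]; simp
  rw [ext0_apply f _ (Nat.mul_pos hm hn).ne', ext0_apply f _ hm.ne', ext0_apply f _ hn.ne',
    hf m n hm hn]

lemma ext0_SS (f : ℕ → ℂ) (N : ℕ) : SS (fun n => ext0 f n) N = ∑ n ∈ Finset.Icc 1 N, f n := by
  unfold SS
  refine Finset.sum_congr rfl fun n hn => ?_
  rw [Finset.mem_Icc] at hn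
  exact ext0_apply f n (by omega)

/-- the completely multiplicative function with prescribed values at the primes -/
noncomputable def cmOf (u : ℕ → ℂ) : ArithmeticFunction ℂ :=
  ⟨fun n => if n = 0 then 0 else n.factorization.prod fun p k => u p ^ k, by simp⟩

lemma cmOf_apply (u : ℕ → ℂ) (n : ℕ) (hn : n ≠ 0) :
    cmOf u n = n.factorization.prod fun p k => u p ^ k := if_neg hn

lemma cmOf_one (u : ℕ → ℂ) : cmOf u 1 = 1 := by
  rw [cmOf_apply u 1 one_ne_zero]; simp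

lemma cmOf_mul (u : ℕ → ℂ) (m n : ℕ) : cmOf u (m * n) = cmOf u m * cmOf u n := by
  rcases Nat.eq_zero_or_pos m with h0 | hm
  · rw [h0, zero_mul]; simp
  rcases Nat.eq_zero_or_pos n with h0 | hn
  · rw [h0, mul_zero]; simp
  rw [cmOf_apply u _ (Nat.mul_pos hm hn).ne', cmOf_apply u _ hm.ne', cmOf_apply u _ hn.ne',
    Nat.factorization_mul hm.ne' hn.ne', Finsupp.prod_add_index']
  · intro p; exact pow_zero _
  · intro p a b; exact pow_add _ _ _

lemma cmOf_prime (u : ℕ → ℂ) (p : ℕ) (hp : p.Prime) : cmOf u p = u p := by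
  rw [cmOf_apply u p hp.ne_zero, hp.factorization]
  have h := Finsupp.prod_single_index (a := p) (b := 1) (h := fun q k => u q ^ k) (pow_zero (u p))
  rw [h, pow_one]

/-- the class theorem, in contrapositive form -/
theorem class_false (f : ArithmeticFunction ℂ) (h1 : f 1 = 1)
    (hf : ∀ m n, f (m * n) = f m * f n)
    (hd : Tendsto (fun N : ℕ => Real.sqrt N * ‖SS (fun n => f n) N‖) atTop (𝓝 0))
    (hsum : Summable fun p : ℕ => if p.Prime ∧ ¬ ((f p).im = 0 ∧ 0 ≤ (f p).re) then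
      Real.sqrt p * max (‖f p‖ - 1 / p) 0 else 0) : False := by
  classical
  set u : ℕ → ℂ := fun p => if ((f p).im = 0 ∧ 0 ≤ (f p).re) ∨ ‖f p‖ ≤ 1 / p then f p
    else f p * (((1 / (p * ‖f p‖) : ℝ)) : ℂ) with hu
  have hug : ∀ p : ℕ, ((f p).im = 0 ∧ 0 ≤ (f p).re) ∨ ‖f p‖ ≤ 1 / p → u p = f p := by
    intro p hp; simp only [hu]; rw [if_pos hp]
  have hub : ∀ p : ℕ, p.Prime → ¬ (((f p).im = 0 ∧ 0 ≤ (f p).re) ∨ ‖f p‖ ≤ 1 / p) →
      ‖u p‖ = 1 / p ∧ ‖u p - f p‖ = ‖f p‖ - 1 / p := by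
    intro p hpp hp
    have hp0 : (0 : ℝ) < p := by exact_mod_cast hpp.pos
    have hp' := hp
    rw [not_or] at hp'
    have h2 : 1 / (p : ℝ) < ‖f p‖ := not_le.mp hp'.2
    have h3 : 0 < ‖f p‖ := lt_trans (by positivity) h2
    have e : u p = f p * (((1 / (p * ‖f p‖) : ℝ)) : ℂ) := by simp only [hu]; rw [if_neg hp]
    constructor
    · rw [e, norm_mul, Complex.norm_real, Real.norm_eq_abs, abs_of_pos (by positivity)]
      field_simp
    · have e2 : u p - f p = f p * (((1 / (p * ‖f p‖) - 1 : ℝ)) : ℂ) := by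
        rw [e]; push_cast; ring
      have h4 : 1 / (p * ‖f p‖) - 1 ≤ 0 := by
        rw [sub_nonpos, div_le_one (by positivity)]
        rw [div_lt_iff₀ hp0] at h2
        linarith
      rw [e2, norm_mul, Complex.norm_real, Real.norm_eq_abs, abs_of_nonpos h4]
      field_simp
      ring
  have hps := prime_small f h1 hf hd
  have hsq : ∀ p : ℕ, p.Prime → 1 / (p : ℝ) * Real.sqrt p ≤ 3 / 4 := by
    intro p hpp
    have hp2 : (2 : ℝ) ≤ p := by exact_mod_cast hpp.two_le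
    have hp0 : (0 : ℝ) < p := by linarith
    have h4 : 4 / 3 ≤ Real.sqrt p := by
      apply Real.le_sqrt_of_sq_le
      norm_num
      linarith
    have h5 : Real.sqrt p * Real.sqrt p = p := Real.mul_self_sqrt hp0.le
    rw [one_div, inv_mul_le_iff₀ hp0]
    nlinarith
  have hlt : ∀ p : ℕ, p.Prime → ‖cmOf u p‖ * Real.sqrt p < 1 := by
    intro p hpp
    rw [cmOf_prime u p hpp]
    by_cases h : ((f p).im = 0 ∧ 0 ≤ (f p).re) ∨ ‖f p‖ ≤ 1 / p
    · rw [hug p h]; exact hps p hpp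
    · rw [(hub p hpp h).1]
      have := hsq p hpp
      linarith
  have hS : Summable fun p : ℕ => if p.Prime then
      ‖cmOf u p - f p‖ * Real.sqrt p / (1 - ‖cmOf u p‖ * Real.sqrt p) else 0 := by
    refine Summable.of_nonneg_of_le (fun p => ?_) (fun p => ?_) (hsum.mul_left 4)
    · split_ifs with hpp
      · have := hlt p hpp
        have h6 : 0 ≤ 1 - ‖cmOf u p‖ * Real.sqrt p := by linarith
        positivity
      · exact le_rfl
    · by_cases hpp : p.Prime
      · rw [if_pos hpp, cmOf_prime u p hpp]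
        by_cases h : ((f p).im = 0 ∧ 0 ≤ (f p).re) ∨ ‖f p‖ ≤ 1 / p
        · rw [hug p h, sub_self, norm_zero, zero_mul, zero_div]
          split_ifs
          · positivity
          · simp
        · have h' := h
          rw [not_or] at h'
          rw [if_pos ⟨hpp, h'.1⟩, (hub p hpp h).1, (hub p hpp h).2]
          have h2 : 0 ≤ ‖f p‖ - 1 / p := by linarith [not_le.mp h'.2]
          rw [max_eq_left h2]
          have h3 := hsq p hpp
          have h4 : 0 < 1 - 1 / (p : ℝ) * Real.sqrt p := by linarith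
          rw [div_le_iff₀ h4]
          have h5 : 0 ≤ (‖f p‖ - 1 / p) * Real.sqrt p := by positivity
          nlinarith
      · rw [if_neg hpp, if_neg (fun h => hpp h.1), mul_zero]
  have hd' := perturb f (cmOf u) h1 hf (cmOf_one u) (cmOf_mul u) hlt hS hd
  refine core (cmOf u) (cmOf_one u) (cmOf_mul u) hd' ?_
  intro p hpp
  rw [cmOf_prime u p hpp]
  by_cases h : ((f p).im = 0 ∧ 0 ≤ (f p).re) ∨ ‖f p‖ ≤ 1 / p
  · rw [hug p h]
    rcases h with h | h
    · right
      rw [Complex.le_def]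
      exact ⟨h.2, h.1.symm⟩
    · left; exact h
  · left; exact (hub p hpp h).1.le

/-- not Omega implies little o -/
lemma tendsto_of_not_omega (f : ℕ → ℂ)
    (h : ¬ ∃ c : ℝ, 0 < c ∧ ∀ M : ℕ, ∃ N : ℕ, M ≤ N ∧ 0 < N ∧
        c / Real.sqrt (N : ℝ) ≤ ‖∑ n ∈ Finset.Icc 1 N, f n‖) :
    Tendsto (fun N : ℕ => Real.sqrt N * ‖∑ n ∈ Finset.Icc 1 N, f n‖) atTop (𝓝 0) := by
  push Not at h
  rw [Metric.tendsto_atTop]
  intro ε hε
  obtain ⟨M, hM⟩ := h ε hε
  refine ⟨max M 1, fun N hN => ?_⟩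
  have h1 : M ≤ N := (le_max_left _ _).trans hN
  have h2 : 0 < N := lt_of_lt_of_le one_pos ((le_max_right _ _).trans hN)
  have h3 := hM N h1 h2
  have h4 : 0 < Real.sqrt N := Real.sqrt_pos.mpr (by exact_mod_cast h2)
  rw [lt_div_iff₀ h4] at h3
  rw [Real.dist_eq, sub_zero, abs_of_nonneg (by positivity)]
  linarith

theorem class_main (f : ℕ → ℂ) (h1 : f 1 = 1)
    (hf : ∀ m n : ℕ, 0 < m → 0 < n → f (m * n) = f m * f n)
    (hsum : Summable fun p : ℕ => if p.Prime ∧ ¬ ((f p).im = 0 ∧ 0 ≤ (f p).re) then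
      Real.sqrt p * max (‖f p‖ - 1 / p) 0 else 0) :
    ∃ c : ℝ, 0 < c ∧ ∀ M : ℕ, ∃ N : ℕ, M ≤ N ∧ 0 < N ∧
        c / Real.sqrt (N : ℝ) ≤ ‖∑ n ∈ Finset.Icc 1 N, f n‖ := by
  by_contra hcon
  have hd := tendsto_of_not_omega f hcon
  refine class_false (ext0 f) (by rw [ext0_apply f 1 one_ne_zero]; exact h1) (ext0_mul f hf) ?_ ?_
  · simp_rw [ext0_SS]; exact hd
  · refine hsum.congr fun p => ?_
    by_cases hp : p.Prime
    · rw [ext0_apply f p hp.ne_zero]
    · rw [if_neg (fun h => hp h.1), if_neg (fun h => hp h.1)]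

/-- the general decay theorem -/
theorem decay_main (f : ℕ → ℂ) (h1 : f 1 = 1)
    (hf : ∀ m n : ℕ, 0 < m → 0 < n → f (m * n) = f m * f n) :
    ∃ δ : ℝ, 0 < δ ∧ ∀ C : ℝ, ∀ M : ℕ, ∃ N : ℕ, M ≤ N ∧ 0 < N ∧
        C * (N : ℝ) ^ (-1 + δ) ≤ ‖∑ n ∈ Finset.Icc 1 N, f n‖ := by
  by_contra hcon
  push Not at hcon
  have e1 : ext0 f 1 = 1 := by rw [ext0_apply f 1 one_ne_zero]; exact h1
  have hd : Tendsto (fun N : ℕ => Real.sqrt N * ‖SS (fun n => ext0 f n) N‖) atTop (𝓝 0) := by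
    obtain ⟨C, M, hM⟩ := hcon (1/4) (by norm_num)
    have hlim : Tendsto (fun N : ℕ => |C| * (N : ℝ) ^ (-(1/4) : ℝ)) atTop (𝓝 0) := by
      have h2 := (tendsto_rpow_neg_atTop (y := 1/4) (by norm_num)).comp
        (tendsto_natCast_atTop_atTop (R := ℝ))
      have h3 := h2.const_mul |C|
      rw [mul_zero] at h3
      exact h3
    refine squeeze_zero' (Eventually.of_forall fun N => by positivity) ?_ hlim
    filter_upwards [eventually_ge_atTop M, eventually_gt_atTop 0] with N hN hN0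
    have h3 := hM N hN hN0
    rw [ext0_SS]
    have hN' : (0 : ℝ) < N := by exact_mod_cast hN0
    calc Real.sqrt N * ‖∑ n ∈ Finset.Icc 1 N, f n‖
        ≤ Real.sqrt N * (|C| * (N : ℝ) ^ (-1 + 1/4 : ℝ)) := by
          gcongr
          refine h3.le.trans ?_
          gcongr
          exact le_abs_self C
      _ = |C| * (N : ℝ) ^ (-(1/4) : ℝ) := by
          rw [Real.sqrt_eq_rpow, mul_left_comm, ← Real.rpow_add hN']
          congr 2
          norm_num
  refine core (ext0 f) e1 (ext0_mul f hf) hd ?_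
  intro p hpp
  left
  have hp1 : (1 : ℝ) < p := by exact_mod_cast hpp.one_lt
  have hp0 : (0 : ℝ) < p := by linarith
  have hkey : ∀ δ : ℝ, 0 < δ → δ < 1 → ‖ext0 f p‖ ≤ (p : ℝ) ^ (-1 + δ) := by
    intro δ hδ hδ1
    obtain ⟨C, M, hM⟩ := hcon δ hδ
    have hS : ∀ N : ℕ, M ≤ N → 0 < N → ‖SS (fun n => ext0 f n) N‖ ≤ |C| * (N : ℝ) ^ (-1 + δ) := by
      intro N hN hN0
      rw [ext0_SS]
      refine (hM N hN hN0).le.trans ?_
      gcongr
      exact le_abs_self C
    have hb : ∀ N : ℕ, M ≤ N → 0 < N → ‖ext0 f (N + 1)‖ ≤ 3 * |C| * ((N + 1 : ℕ) : ℝ) ^ (-1 + δ) := by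
      intro N hN hN0
      have h2 : ext0 f (N + 1) = SS (fun n => ext0 f n) (N + 1) - SS (fun n => ext0 f n) N := by
        rw [SS_succ]; ring
      have hN' : (0 : ℝ) < N := by exact_mod_cast hN0
      have h3 : (N : ℝ) ^ (-1 + δ) ≤ 2 * ((N + 1 : ℕ) : ℝ) ^ (-1 + δ) := by
        have h4 : ((N + 1 : ℕ) : ℝ) / 2 ≤ N := by
          have : (1 : ℝ) ≤ N := by exact_mod_cast hN0
          push_cast
          linarith
        have h5 : (N : ℝ) ^ (-1 + δ) ≤ (((N + 1 : ℕ) : ℝ) / 2) ^ (-1 + δ) :=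
          Real.rpow_le_rpow_of_nonpos (by positivity) h4 (by linarith)
        refine h5.trans ?_
        rw [Real.div_rpow (by positivity) (by norm_num), div_eq_mul_inv, mul_comm]
        gcongr
        rw [← Real.rpow_neg (by norm_num)]
        calc (2 : ℝ) ^ (-(-1 + δ)) ≤ (2 : ℝ) ^ (1 : ℝ) :=
              Real.rpow_le_rpow_of_exponent_le (by norm_num) (by linarith)
          _ = 2 := Real.rpow_one 2
      rw [h2]
      refine (norm_sub_le _ _).trans ?_
      have h4 := hS (N + 1) (by omega) (by omega)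
      have h5 := hS N hN hN0
      calc ‖SS (fun n => ext0 f n) (N + 1)‖ + ‖SS (fun n => ext0 f n) N‖
          ≤ |C| * ((N + 1 : ℕ) : ℝ) ^ (-1 + δ) + |C| * (2 * ((N + 1 : ℕ) : ℝ) ^ (-1 + δ)) := by
            gcongr
            exact h5.trans (by gcongr)
        _ = _ := by ring
    -- powers of p
    by_contra hgt
    push Not at hgt
    set ρ : ℝ := ‖ext0 f p‖ / (p : ℝ) ^ (-1 + δ) with hρ
    have hpp0 : 0 < (p : ℝ) ^ (-1 + δ) := by positivity
    have hρ1 : 1 < ρ := by rw [hρ, one_lt_div hpp0]; exact hgt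
    have hpow : Tendsto (fun k : ℕ => ρ ^ k) atTop atTop := tendsto_pow_atTop_atTop_of_one_lt hρ1
    have hppow : Tendsto (fun k : ℕ => p ^ k) atTop atTop :=
      tendsto_pow_atTop_atTop_of_one_lt hpp.one_lt
    obtain ⟨k, hk1, hk2⟩ := ((hpow.eventually_gt_atTop (3 * |C|)).and
      (hppow.eventually_ge_atTop (M + 2))).exists
    obtain ⟨N, hN⟩ : ∃ N, p ^ k = N + 1 := ⟨p ^ k - 1, by omega⟩
    have h6 := hb N (by omega) (by omega)
    rw [← hN, cm_pow (ext0 f) e1 (ext0_mul f hf), norm_pow] at h6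
    have h7 : (((p ^ k : ℕ)) : ℝ) ^ (-1 + δ) = ((p : ℝ) ^ (-1 + δ)) ^ k := by
      push_cast
      rw [← Real.rpow_natCast, ← Real.rpow_natCast, ← Real.rpow_mul hp0.le,
        ← Real.rpow_mul hp0.le, mul_comm]
    rw [h7] at h6
    have h8 : ρ ^ k ≤ 3 * |C| := by
      rw [hρ, div_pow, div_le_iff₀ (by positivity)]
      exact h6
    linarith
  have hlim : Tendsto (fun δ : ℝ => (p : ℝ) ^ (-1 + δ)) (𝓝[>] 0) (𝓝 ((p : ℝ) ^ (-1 + 0 : ℝ))) := by
    refine Tendsto.mono_left ?_ nhdsWithin_le_nhds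
    have hc : Continuous fun δ : ℝ => (p : ℝ) ^ (-1 + δ) := by
      refine Continuous.rpow continuous_const (by fun_prop) (fun _ => Or.inl hp0.ne')
    exact hc.tendsto 0
  have h9 := ge_of_tendsto hlim (by
    have : Set.Ioo (0 : ℝ) 1 ∈ 𝓝[>] (0 : ℝ) := Ioo_mem_nhdsGT one_pos
    filter_upwards [this] with δ hδ
    exact hkey δ hδ.1 hδ.2)
  rw [add_zero, Real.rpow_neg_one, ← one_div] at h9
  exact h9

end Pool.H232R3
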