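import Mathlib
import Pool.Agent.H232R3.CMOCore

set_option autoImplicit false

open Finset Filter Topology MeasureTheory Set

namespace Pool.H232R3

lemma SSfloor_bound' (f : ℕ → ℂ) (C β : ℝ) (hC : 0 ≤ C) (hβ : 0 < β)
    (h : ∀ N : ℕ, 0 < N → ‖SS f N‖ ≤ C * (N : ℝ) ^ (-β)) (t : ℝ) (ht1 : 1 ≤ t) :
    ‖SS f ⌊t⌋₊‖ ≤ C * 2 ^ β * t ^ (-β) := by
  have ht0 : 0 < t := by linarith
  have hf1 : 1 ≤ ⌊t⌋₊ := Nat.le_floor (by simpa using ht1)
  have hf1' : (1 : ℝ) ≤ ⌊t⌋₊ := by exact_mod_cast hf1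
  have h1 := h _ hf1
  have hfl : t < ⌊t⌋₊ + 1 := Nat.lt_floor_add_one t
  have h4 : t / 2 ≤ (⌊t⌋₊ : ℝ) := by linarith
  have h5 : (⌊t⌋₊ : ℝ) ^ (-β) ≤ (t / 2) ^ (-β) :=
    Real.rpow_le_rpow_of_nonpos (by positivity) h4 (by linarith)
  have h6 : (t / 2) ^ (-β) = 2 ^ β * t ^ (-β) := by
    rw [Real.div_rpow ht0.le (by norm_num), Real.rpow_neg (by norm_num : (0:ℝ) ≤ 2), div_inv_eq_mul]
    ring
  calc ‖SS f ⌊t⌋₊‖ ≤ C * (⌊t⌋₊ : ℝ) ^ (-β) := h1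
    _ ≤ C * (2 ^ β * t ^ (-β)) := by rw [← h6]; gcongr
    _ = _ := by ring

lemma Phi_differentiableAt' (f : ℕ → ℂ) (C β : ℝ) (hC : 0 ≤ C) (hβ : 0 < β)
    (h : ∀ N : ℕ, 0 < N → ‖SS f N‖ ≤ C * (N : ℝ) ^ (-β)) (s : ℂ)
    (hs : -β < s.re) : DifferentiableAt ℂ (Phi f) s := by
  have hb : ∀ N, ‖SS f N‖ ≤ C := by
    intro N
    rcases Nat.eq_zero_or_pos N with h0 | hpos
    · rw [h0, SS_zero]; simpa using hC
    · refine (h N hpos).trans ?_
      have : (N : ℝ) ^ (-β) ≤ 1 :=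
        Real.rpow_le_one_of_one_le_of_nonpos (by exact_mod_cast hpos) (by linarith)
      nlinarith
  have key : DifferentiableAt ℂ (mellin (fun t : ℝ => SS f ⌊t⌋₊)) (-s) := by
    refine mellin_differentiableAt_of_isBigO_rpow (a := β) (b := (-s).re - 1)
      (locInt_SSfloor f C hb) ?_ ?_ ?_ ?_
    · refine Asymptotics.IsBigO.of_bound (C * 2 ^ β) ?_
      filter_upwards [eventually_ge_atTop (1 : ℝ)] with t ht
      have h1 := SSfloor_bound' f C β hC hβ h t ht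
      rw [Real.norm_eq_abs, abs_of_nonneg (by positivity)]
      exact h1
    · rw [Complex.neg_re]; linarith
    · refine Asymptotics.IsBigO.of_bound 1 ?_
      have : ∀ᶠ t in 𝓝[>] (0 : ℝ), t < 1 :=
        (nhdsWithin_le_nhds) (Iio_mem_nhds one_pos)
      filter_upwards [this] with t ht
      rw [SSfloor_lt_one f t ht, norm_zero]
      positivity
    · linarith
  exact key.comp s (differentiable_neg s)

/-- decay of the terms -/
lemma coef_decay (f : ℕ → ℂ) (C β : ℝ) (hC : 0 ≤ C) (hβ : 0 < β) (hβ1 : β ≤ 1)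
    (h : ∀ N : ℕ, 0 < N → ‖SS f N‖ ≤ C * (N : ℝ) ^ (-β)) (n : ℕ) (hn : 0 < n) :
    ‖f n‖ ≤ 3 * C * (n : ℝ) ^ (-β) := by
  obtain ⟨m, rfl⟩ : ∃ m, n = m + 1 := ⟨n - 1, by omega⟩
  have h2 : f (m + 1) = SS f (m + 1) - SS f m := by rw [SS_succ]; ring
  rw [h2]
  refine (norm_sub_le _ _).trans ?_
  have h3 := h (m + 1) hn
  have h4 : ‖SS f m‖ ≤ 2 * C * ((m + 1 : ℕ) : ℝ) ^ (-β) := by
    rcases Nat.eq_zero_or_pos m with h0 | hpos
    · rw [h0, SS_zero, norm_zero]; positivity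
    · refine (h m hpos).trans ?_
      have hm1 : (1 : ℝ) ≤ m := by exact_mod_cast hpos
      have h5 : (m : ℝ) ^ (-β) ≤ (((m + 1 : ℕ) : ℝ) / 2) ^ (-β) :=
        Real.rpow_le_rpow_of_nonpos (by positivity) (by push_cast; linarith) (by linarith)
      have h6 : (((m + 1 : ℕ) : ℝ) / 2) ^ (-β) = 2 ^ β * ((m + 1 : ℕ) : ℝ) ^ (-β) := by
        rw [Real.div_rpow (by positivity) (by norm_num), Real.rpow_neg (by norm_num : (0:ℝ) ≤ 2),
          div_inv_eq_mul]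
        ring
      have h7 : (2 : ℝ) ^ β ≤ 2 := by
        calc (2 : ℝ) ^ β ≤ 2 ^ (1 : ℝ) := Real.rpow_le_rpow_of_exponent_le (by norm_num) hβ1
          _ = 2 := Real.rpow_one 2
      rw [h6] at h5
      have h8 : (0 : ℝ) ≤ ((m + 1 : ℕ) : ℝ) ^ (-β) := by positivity
      calc C * (m : ℝ) ^ (-β) ≤ C * (2 ^ β * ((m + 1 : ℕ) : ℝ) ^ (-β)) := by gcongr
        _ ≤ C * (2 * ((m + 1 : ℕ) : ℝ) ^ (-β)) := by gcongr
        _ = _ := by ring
  linarith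

/-- decay faster than the square root gives the limit used in the Mellin lemmas -/
lemma decay_tendsto (f : ℕ → ℂ) (C β : ℝ) (hC : 0 ≤ C) (hβ : 1/2 < β)
    (h : ∀ N : ℕ, 0 < N → ‖SS f N‖ ≤ C * (N : ℝ) ^ (-β)) :
    Tendsto (fun N : ℕ => Real.sqrt N * ‖SS f N‖) atTop (𝓝 0) := by
  have h1 : Tendsto (fun N : ℕ => C * (N : ℝ) ^ (-(β - 1/2))) atTop (𝓝 (C * 0)) :=
    ((tendsto_rpow_neg_atTop (by linarith : 0 < β - 1/2)).comp
      tendsto_natCast_atTop_atTop).const_mul C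
  rw [mul_zero] at h1
  refine squeeze_zero' (Eventually.of_forall fun N => by positivity) ?_ h1
  filter_upwards [eventually_gt_atTop 0] with N hN
  have hN0 : (0 : ℝ) < N := by exact_mod_cast hN
  calc Real.sqrt N * ‖SS f N‖ ≤ Real.sqrt N * (C * (N : ℝ) ^ (-β)) := by
        gcongr; exact h N hN
    _ = C * (N : ℝ) ^ (-(β - 1/2)) := by
        rw [Real.sqrt_eq_rpow, mul_left_comm, ← Real.rpow_add hN0]
        congr 2
        ring

end Pool.H232R3
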