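import Mathlib
import Pool.Agent.H232R3.MOMellin

set_option autoImplicit false

open Finset Filter Topology
open scoped ComplexConjugate

namespace Pool.H232R3

lemma log_est2 {z : ℂ} (hz : ‖z‖ < 1) :
    ‖Complex.log (1 + z) - (z - z ^ 2 / 2)‖ ≤ ‖z‖ ^ 3 * (1 - ‖z‖)⁻¹ / 3 := by
  have h := Complex.norm_log_sub_logTaylor_le 2 hz
  have e : Complex.logTaylor (2 + 1) z = z - z ^ 2 / 2 := by
    simp only [Complex.logTaylor_succ, Complex.logTaylor_zero, Pi.add_apply]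
    push_cast
    ring
  rw [e] at h
  refine h.trans_eq ?_
  norm_num

lemma log_est_loc (q : ℝ) (hq0 : 0 ≤ q) (hq : q ≤ 1/4) (a b τ : ℂ) (ha : ‖a‖ ≤ q)
    (hb : ‖b‖ ≤ q ^ 2) (hτ : ‖τ‖ ≤ 2 * q ^ 3) :
    ‖Complex.log (1 + (a + b + τ)) - (a + (b - a ^ 2 / 2))‖ ≤ 6 * q ^ 3 ∧
      ‖a + b + τ‖ < 1 := by
  set w := a + b + τ with hw
  have hwn : ‖w‖ ≤ 11/8 * q := by
    calc ‖w‖ ≤ ‖a‖ + ‖b‖ + ‖τ‖ := norm_add₃_le
      _ ≤ q + q ^ 2 + 2 * q ^ 3 := by linarith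
      _ ≤ 11/8 * q := by nlinarith [mul_nonneg hq0 hq0, mul_nonneg hq0 (mul_nonneg hq0 hq0)]
  have hw1 : ‖w‖ ≤ 11/32 := by linarith
  have hw2 : ‖w‖ < 1 := by linarith
  refine ⟨?_, hw2⟩
  have h1 := log_est2 hw2
  have h2 : ‖w‖ ^ 3 * (1 - ‖w‖)⁻¹ / 3 ≤ 2 * q ^ 3 := by
    have h3 : (1 - ‖w‖)⁻¹ ≤ 32/21 := by
      rw [inv_le_comm₀ (by linarith) (by norm_num)]
      norm_num
      linarith
    have h4 : ‖w‖ ^ 3 ≤ (11/8 * q) ^ 3 := by gcongr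
    have h5 : 0 ≤ (1 - ‖w‖)⁻¹ := by
      rw [inv_nonneg]; linarith
    calc ‖w‖ ^ 3 * (1 - ‖w‖)⁻¹ / 3 ≤ (11/8 * q) ^ 3 * (32/21) / 3 := by gcongr
      _ ≤ 2 * q ^ 3 := by
        have : 0 ≤ q ^ 3 := by positivity
        nlinarith
  have e : Complex.log (1 + w) - (a + (b - a ^ 2 / 2))
      = (Complex.log (1 + w) - (w - w ^ 2 / 2)) + τ - (b + τ) * (w + a) / 2 := by
    rw [hw]; ring
  have h6 : ‖(b + τ) * (w + a) / 2‖ ≤ 2 * q ^ 3 := by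
    rw [norm_div, norm_mul]
    have h7 : ‖b + τ‖ ≤ 3/2 * q ^ 2 := by
      calc ‖b + τ‖ ≤ ‖b‖ + ‖τ‖ := norm_add_le _ _
        _ ≤ q ^ 2 + 2 * q ^ 3 := by linarith
        _ ≤ 3/2 * q ^ 2 := by nlinarith [mul_nonneg hq0 hq0]
    have h8 : ‖w + a‖ ≤ 19/8 * q := by
      calc ‖w + a‖ ≤ ‖w‖ + ‖a‖ := norm_add_le _ _
        _ ≤ 19/8 * q := by linarith
    have h9 : ‖(2 : ℂ)‖ = 2 := by simp
    rw [h9]
    calc ‖b + τ‖ * ‖w + a‖ / 2 ≤ (3/2 * q ^ 2) * (19/8 * q) / 2 := by gcongr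
      _ ≤ 2 * q ^ 3 := by
        have : 0 ≤ q ^ 3 := by positivity
        nlinarith
  rw [e]
  calc ‖(Complex.log (1 + w) - (w - w ^ 2 / 2)) + τ - (b + τ) * (w + a) / 2‖
      ≤ ‖(Complex.log (1 + w) - (w - w ^ 2 / 2)) + τ‖ + ‖(b + τ) * (w + a) / 2‖ := norm_sub_le _ _
    _ ≤ ‖Complex.log (1 + w) - (w - w ^ 2 / 2)‖ + ‖τ‖ + ‖(b + τ) * (w + a) / 2‖ := by
        gcongr; exact norm_add_le _ _
    _ ≤ 6 * q ^ 3 := by linarith

lemma zeta_est1 (r : ℝ) (hr : r ≤ 3/4) (z : ℂ) (hz : ‖z‖ ≤ r) :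
    ‖-Complex.log (1 - z) - (z + z ^ 2 / 2)‖ ≤ 2 * r ^ 3 := by
  have hr0 : 0 ≤ r := (norm_nonneg z).trans hz
  have h := log_est2 (z := -z) (by rw [norm_neg]; linarith)
  rw [norm_neg] at h
  have e : -Complex.log (1 - z) - (z + z ^ 2 / 2)
      = -(Complex.log (1 + -z) - (-z - (-z) ^ 2 / 2)) := by
    rw [← sub_eq_add_neg]; ring
  rw [e, norm_neg]
  refine h.trans ?_
  have h3 : (1 - ‖z‖)⁻¹ ≤ 4 := by
    rw [inv_le_comm₀ (by linarith) (by norm_num)]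
    norm_num
    linarith
  have h5 : 0 ≤ (1 - ‖z‖)⁻¹ := by
    rw [inv_nonneg]; linarith
  calc ‖z‖ ^ 3 * (1 - ‖z‖)⁻¹ / 3 ≤ r ^ 3 * 4 / 3 := by gcongr
    _ ≤ 2 * r ^ 3 := by
      have : 0 ≤ r ^ 3 := by positivity
      linarith

lemma zeta_est2 (r : ℝ) (hr : r ≤ 3/4) (z : ℂ) (hz : ‖z‖ ≤ r) :
    ‖-Complex.log (1 - z ^ 2) - z ^ 2‖ ≤ 2 * r ^ 3 := by
  have hr0 : 0 ≤ r := (norm_nonneg z).trans hz
  have hz2 : ‖-z ^ 2‖ ≤ r ^ 2 := by rw [norm_neg, norm_pow]; gcongr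
  have hr2 : r ^ 2 ≤ 9/16 := by nlinarith
  have h := Complex.norm_log_one_add_sub_self_le (z := -z ^ 2) (by linarith)
  have e : -Complex.log (1 - z ^ 2) - z ^ 2
      = -(Complex.log (1 + -z ^ 2) - (-z ^ 2)) := by
    rw [← sub_eq_add_neg]; ring
  rw [e, norm_neg]
  refine h.trans ?_
  have h3 : (1 - ‖-z ^ 2‖)⁻¹ ≤ 16/7 := by
    rw [inv_le_comm₀ (by linarith) (by norm_num)]
    norm_num
    norm_num at hz2
    linarith
  have h5 : 0 ≤ (1 - ‖-z ^ 2‖)⁻¹ := by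
    rw [inv_nonneg]; linarith
  calc ‖-z ^ 2‖ ^ 2 * (1 - ‖-z ^ 2‖)⁻¹ / 2 ≤ (r ^ 2) ^ 2 * (16/7) / 2 := by gcongr
    _ ≤ 2 * r ^ 3 := by
      have : 0 ≤ r ^ 3 := by positivity
      nlinarith

/-- local factor -/
noncomputable def LF (f : ℕ → ℂ) (p : ℕ) (s : ℂ) : ℂ := ∑' e : ℕ, LSeries.term f s (p ^ e)

lemma LF_term_bound (f : ℕ → ℂ) (C β : ℝ)
    (hdec : ∀ n : ℕ, 0 < n → ‖f n‖ ≤ C * (n : ℝ) ^ (-β)) (p : ℕ) (hp : p.Prime)
    (σ : ℝ) (s : ℂ) (hs : σ ≤ s.re) (e : ℕ) :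
    ‖LSeries.term f s (p ^ e)‖ ≤ C * ((p : ℝ) ^ (-(β + σ))) ^ e := by
  have hp1 : (1 : ℝ) < p := by exact_mod_cast hp.one_lt
  have hp0 : (0 : ℝ) < p := by linarith
  have hpe : 0 < p ^ e := pow_pos hp.pos e
  have hpe' : (0 : ℝ) < ((p ^ e : ℕ) : ℝ) := by exact_mod_cast hpe
  have hpe1 : (1 : ℝ) ≤ ((p ^ e : ℕ) : ℝ) := by exact_mod_cast hpe
  rw [LSeries.norm_term_eq, if_neg hpe.ne']
  have h1 := hdec _ hpe
  have h2 : ((p ^ e : ℕ) : ℝ) ^ σ ≤ ((p ^ e : ℕ) : ℝ) ^ s.re :=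
    Real.rpow_le_rpow_of_exponent_le hpe1 hs
  have h3 : 0 < ((p ^ e : ℕ) : ℝ) ^ σ := by positivity
  calc ‖f (p ^ e)‖ / ((p ^ e : ℕ) : ℝ) ^ s.re
      ≤ ‖f (p ^ e)‖ / ((p ^ e : ℕ) : ℝ) ^ σ := by gcongr
    _ ≤ C * ((p ^ e : ℕ) : ℝ) ^ (-β) / ((p ^ e : ℕ) : ℝ) ^ σ := by gcongr
    _ = C * ((p : ℝ) ^ (-(β + σ))) ^ e := by
        rw [mul_div_assoc, ← Real.rpow_sub hpe', Nat.cast_pow, ← Real.rpow_natCast p e,
          ← Real.rpow_mul hp0.le, ← Real.rpow_natCast (((p : ℝ) ^ (-(β + σ)))) e,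
          ← Real.rpow_mul hp0.le]
        congr 2
        ring

lemma geo_lt (p : ℕ) (hp : p.Prime) (u : ℝ) (hu : 0 < u) : (p : ℝ) ^ (-u) < 1 :=
  Real.rpow_lt_one_of_one_lt_of_neg (by exact_mod_cast hp.one_lt) (by linarith)

lemma LF_summable (f : ℕ → ℂ) (C β : ℝ)
    (hdec : ∀ n : ℕ, 0 < n → ‖f n‖ ≤ C * (n : ℝ) ^ (-β)) (p : ℕ) (hp : p.Prime)
    (s : ℂ) (hs : -β < s.re) : Summable fun e : ℕ => ‖LSeries.term f s (p ^ e)‖ := by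
  refine Summable.of_nonneg_of_le (fun _ => norm_nonneg _)
    (LF_term_bound f C β hdec p hp s.re s le_rfl) ?_
  exact (summable_geometric_of_lt_one (by positivity) (geo_lt p hp _ (by linarith))).mul_left C

lemma LF_differentiableAt (f : ℕ → ℂ) (C β : ℝ)
    (hdec : ∀ n : ℕ, 0 < n → ‖f n‖ ≤ C * (n : ℝ) ^ (-β)) (p : ℕ) (hp : p.Prime)
    (s : ℂ) (hs : -β < s.re) : DifferentiableAt ℂ (LF f p) s := by
  obtain ⟨σ, h1, h2⟩ := exists_between hs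
  have ho : IsOpen {z : ℂ | σ < z.re} := Complex.continuous_re.isOpen_preimage _ isOpen_Ioi
  have hsum : Summable fun e : ℕ => C * ((p : ℝ) ^ (-(β + σ))) ^ e :=
    (summable_geometric_of_lt_one (by positivity) (geo_lt p hp _ (by linarith))).mul_left C
  have := Complex.differentiableOn_tsum_of_summable_norm hsum
    (F := fun e z => LSeries.term f z (p ^ e)) (U := {z : ℂ | σ < z.re})
    (fun e z _ => ((LSeries.hasDerivAt_term f (p ^ e) z).differentiableAt).differentiableWithinAt)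
    ho (fun e z hz => LF_term_bound f C β hdec p hp σ z (le_of_lt hz) e)
  exact (this s h2).differentiableAt (ho.mem_nhds h2)

lemma term_p (f : ℕ → ℂ) (p : ℕ) (hp : p.Prime) (s : ℂ) :
    LSeries.term f s p = f p * (p : ℂ) ^ (-s) := by
  rw [LSeries.term_def, if_neg hp.ne_zero, Complex.cpow_neg, div_eq_mul_inv]

lemma term_p2 (f : ℕ → ℂ) (p : ℕ) (hp : p.Prime) (s : ℂ) :
    LSeries.term f s (p ^ 2) = f (p ^ 2) * ((p : ℂ) ^ (-s)) ^ 2 := by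
  rw [LSeries.term_def, if_neg (pow_ne_zero 2 hp.ne_zero), Complex.cpow_neg, div_eq_mul_inv,
    inv_pow]
  congr 2
  rw [← Complex.cpow_nat_mul, Complex.natCast_cpow_natCast_mul, Nat.cast_pow]

/-- the logarithm of the local factor -/
lemma LF_log_est (f : ℕ → ℂ) (f1 : f 1 = 1) (C : ℝ) (hC1 : 0 ≤ C) (p : ℕ) (hp : p.Prime)
    (hC : ∀ k : ℕ, 1 ≤ k → ‖f (p ^ k)‖ ≤ (C / p) ^ k) (hq : C * (p : ℝ) ^ (-(1/2) : ℝ) ≤ 1/4)
    (s : ℂ) (hs : -(1/2) ≤ s.re) :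
    ‖Complex.log (LF f p s) - (f p * (p : ℂ) ^ (-s)
      + (f (p ^ 2) - f p ^ 2 / 2) * ((p : ℂ) ^ (-s)) ^ 2)‖
      ≤ 6 * (C * (p : ℝ) ^ (-(1/2) : ℝ)) ^ 3 ∧ ‖LF f p s - 1‖ < 1 := by
  have hp1 : (1 : ℝ) < p := by exact_mod_cast hp.one_lt
  have hp0 : (0 : ℝ) < p := by linarith
  set q : ℝ := C * (p : ℝ) ^ (-(1/2) : ℝ) with hqd
  have hq0 : 0 ≤ q := by positivity
  have hb : ∀ k : ℕ, 1 ≤ k → ‖LSeries.term f s (p ^ k)‖ ≤ q ^ k := by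
    intro k hk
    have hpe : 0 < p ^ k := pow_pos hp.pos k
    have hpe' : (0 : ℝ) < ((p ^ k : ℕ) : ℝ) := by exact_mod_cast hpe
    have hpe1 : (1 : ℝ) ≤ ((p ^ k : ℕ) : ℝ) := by exact_mod_cast hpe
    rw [LSeries.norm_term_eq, if_neg hpe.ne']
    have h2 : ((p ^ k : ℕ) : ℝ) ^ (-(1/2) : ℝ) ≤ ((p ^ k : ℕ) : ℝ) ^ s.re :=
      Real.rpow_le_rpow_of_exponent_le hpe1 hs
    calc ‖f (p ^ k)‖ / ((p ^ k : ℕ) : ℝ) ^ s.re
        ≤ (C / p) ^ k / ((p ^ k : ℕ) : ℝ) ^ (-(1/2) : ℝ) := by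
          gcongr
          exact hC k hk
      _ = q ^ k := by
          rw [Nat.cast_pow, ← Real.rpow_natCast (p : ℝ) k, ← Real.rpow_mul hp0.le,
            mul_comm (k : ℝ), Real.rpow_mul hp0.le, Real.rpow_natCast, ← div_pow, hqd]
          congr 1
          rw [div_div, div_eq_mul_inv]
          congr 1
          rw [← Real.rpow_one_add' hp0.le (by norm_num), ← Real.rpow_neg hp0.le]
          congr 1
          norm_num
  have hsumn : Summable fun k : ℕ => ‖LSeries.term f s (p ^ k)‖ := by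
    rw [← summable_nat_add_iff 1]
    refine Summable.of_nonneg_of_le (fun _ => norm_nonneg _) (fun k => hb (k + 1) (by omega)) ?_
    rw [summable_nat_add_iff (f := fun k => q ^ k) 1]
    exact summable_geometric_of_lt_one hq0 (by linarith)
  have hsum : Summable fun k : ℕ => LSeries.term f s (p ^ k) := hsumn.of_norm
  have hsplit := hsum.sum_add_tsum_nat_add 3
  have hτ : ‖∑' k : ℕ, LSeries.term f s (p ^ (k + 3))‖ ≤ 2 * q ^ 3 := by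
    have h3 : HasSum (fun k : ℕ => q ^ 3 * q ^ k) (q ^ 3 * (1 - q)⁻¹) :=
      (hasSum_geometric_of_lt_one hq0 (by linarith)).mul_left _
    refine (tsum_of_norm_bounded h3 fun k => ?_).trans ?_
    · rw [← pow_add, add_comm 3 k]
      exact hb (k + 3) (by omega)
    · have h4 : (1 - q)⁻¹ ≤ 2 := by
        rw [inv_le_comm₀ (by linarith) (by norm_num)]
        norm_num
        linarith
      have : 0 ≤ q ^ 3 := by positivity
      nlinarith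
  have h0 : LSeries.term f s (p ^ 0) = 1 := by
    rw [pow_zero, LSeries.term_def, if_neg one_ne_zero, f1]; simp
  have hLF : LF f p s = 1 + (LSeries.term f s p + LSeries.term f s (p ^ 2)
      + ∑' k : ℕ, LSeries.term f s (p ^ (k + 3))) := by
    unfold LF
    rw [← hsplit]
    simp only [Finset.sum_range_succ, Finset.sum_range_zero, zero_add, h0, pow_one]
    ring
  have h1 := hb 1 le_rfl
  rw [pow_one, pow_one] at h1
  have h2 := hb 2 (by norm_num)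
  obtain ⟨h5, h6⟩ := log_est_loc q hq0 hq _ _ _ h1 h2 hτ
  refine ⟨?_, ?_⟩
  · rw [hLF]
    convert h5 using 2
    rw [term_p f p hp, term_p2 f p hp]
    ring
  · rw [hLF, add_sub_cancel_left]
    exact h6

end Pool.H232R3
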