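import Mathlib
import Pool.Agent.H232R3.MOLocal

set_option autoImplicit false

open Finset Filter Topology
open scoped ComplexConjugate

namespace Pool.H232R3

lemma term_mul_coprime (f : ℕ → ℂ) (hmul : ∀ m n : ℕ, Nat.Coprime m n → f (m * n) = f m * f n)
    (s : ℂ) {m n : ℕ} (h : Nat.Coprime m n) :
    LSeries.term f s (m * n) = LSeries.term f s m * LSeries.term f s n := by
  rw [LSeries.term_def, LSeries.term_def, LSeries.term_def]
  by_cases hm : m = 0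
  · simp [hm]
  by_cases hn : n = 0
  · simp [hn]
  rw [if_neg (mul_ne_zero hm hn), if_neg hm, if_neg hn, hmul m n h, Nat.cast_mul,
    Complex.natCast_mul_natCast_cpow]
  ring

lemma euler_prod (f : ℕ → ℂ) (f1 : f 1 = 1)
    (hmul : ∀ m n : ℕ, Nat.Coprime m n → f (m * n) = f m * f n) (s : ℂ)
    (hs : LSeriesSummable f s) : HasProd (fun p : Nat.Primes => LF f p s) (LSeries f s) := by
  have h := EulerProduct.eulerProduct_hasProd (f := LSeries.term f s)
    (by rw [LSeries.term_def, if_neg one_ne_zero, f1]; simp)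
    (fun {m n} hmn => term_mul_coprime f hmul s hmn) hs.norm (by simp)
  exact h

/-- the primes below P -/
def Ps (P : ℕ) : Finset Nat.Primes := (Finset.range P).subtype Nat.Prime

lemma mem_Ps (P : ℕ) (p : Nat.Primes) : p ∈ Ps P ↔ (p : ℕ) < P := by
  have h := Finset.mem_subtype (p := Nat.Prime) (s := Finset.range P) (a := p)
  rw [Finset.mem_range] at h
  exact h

/-- logarithms of the local factors -/
noncomputable def lf (f : ℕ → ℂ) (P : ℕ) (s : ℂ) (p : Nat.Primes) : ℂ :=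
  if P ≤ (p : ℕ) then Complex.log (LF f p s) else 0

lemma euler_split (f : ℕ → ℂ) (f1 : f 1 = 1)
    (hmul : ∀ m n : ℕ, Nat.Coprime m n → f (m * n) = f m * f n) (s : ℂ)
    (hs : LSeriesSummable f s) (P : ℕ) (hne : ∀ p : Nat.Primes, P ≤ (p : ℕ) → LF f p s ≠ 0)
    (hsum : Summable (lf f P s)) :
    LSeries f s = Complex.exp (∑' p, lf f P s p) * ∏ p ∈ Ps P, LF f p s := by
  have h1 := euler_prod f f1 hmul s hs
  have h2 : HasProd (Complex.exp ∘ lf f P s) (Complex.exp (∑' p, lf f P s p)) :=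
    hsum.hasSum.cexp
  have h3 : HasProd (fun p : Nat.Primes => if (p : ℕ) < P then LF f p s else 1)
      (∏ p ∈ Ps P, LF f p s) := by
    have e : ∏ p ∈ Ps P, LF f p s
        = ∏ p ∈ Ps P, (fun p : Nat.Primes => if (p : ℕ) < P then LF f p s else 1) p := by
      refine Finset.prod_congr rfl fun p hp => ?_
      rw [mem_Ps] at hp
      simp [hp]
    rw [e]
    refine hasProd_prod_of_ne_finset_one ?_
    intro p hp
    rw [mem_Ps] at hp
    simp [hp]
  have h4 := h2.mul h3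
  have e : (fun p : Nat.Primes => (Complex.exp ∘ lf f P s) p *
      (if (p : ℕ) < P then LF f p s else 1)) = fun p : Nat.Primes => LF f p s := by
    ext p
    simp only [Function.comp]
    unfold lf
    by_cases hp : P ≤ (p : ℕ)
    · rw [if_pos hp, if_neg (not_lt.mpr hp), Complex.exp_log (hne p hp), mul_one]
    · rw [if_neg hp, if_pos (not_le.mp hp), Complex.exp_zero, one_mul]
  rw [e] at h4
  exact h1.unique h4

/-- p^(-1-s) -/
noncomputable def zz (s : ℂ) (p : Nat.Primes) : ℂ := (p : ℂ) ^ (-(1 + s))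

lemma zz_norm (s : ℂ) (p : Nat.Primes) : ‖zz s p‖ = (p : ℝ) ^ (-(1 + s.re)) := by
  unfold zz
  rw [Complex.norm_natCast_cpow_of_pos p.2.pos]
  simp

lemma zz_eq (s : ℂ) (p : Nat.Primes) : zz s p = (p : ℂ)⁻¹ * (p : ℂ) ^ (-s) := by
  unfold zz
  have hp : (p : ℂ) ≠ 0 := by exact_mod_cast p.2.ne_zero
  rw [neg_add, Complex.cpow_add _ _ hp, Complex.cpow_neg_one]

lemma half_le (p : Nat.Primes) : (p : ℝ) ^ (-(1/2) : ℝ) ≤ 3/4 := by
  have h2 : (2 : ℝ) ≤ p := by exact_mod_cast p.2.two_le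
  have h1 : (p : ℝ) ^ (-(1/2) : ℝ) ≤ (2 : ℝ) ^ (-(1/2) : ℝ) :=
    Real.rpow_le_rpow_of_nonpos (by norm_num) h2 (by norm_num)
  refine h1.trans ?_
  rw [Real.rpow_neg (by norm_num), ← Real.sqrt_eq_rpow]
  have h3 : (4/3 : ℝ) ≤ Real.sqrt 2 := by
    rw [Real.le_sqrt (by norm_num) (by norm_num)]
    norm_num
  rw [inv_le_comm₀ (by positivity) (by norm_num)]
  norm_num
  linarith

lemma zz_le (s : ℂ) (hs : -(1/2) ≤ s.re) (p : Nat.Primes) :
    ‖zz s p‖ ≤ (p : ℝ) ^ (-(1/2) : ℝ) := by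
  rw [zz_norm]
  exact Real.rpow_le_rpow_of_exponent_le (by exact_mod_cast p.2.one_lt.le) (by linarith)

lemma zz_summable (s : ℂ) (hs : 0 < s.re) : Summable (zz s) := by
  refine Summable.of_norm ?_
  simp_rw [zz_norm]
  exact Nat.Primes.summable_rpow.mpr (by linarith)

lemma zeta_prod1 (s : ℂ) (hs : 0 < s.re) :
    Complex.exp (∑' p : Nat.Primes, -Complex.log (1 - zz s p)) = riemannZeta (s + 1) := by
  rw [add_comm]
  exact riemannZeta_eulerProduct_exp_log (by simpa using hs)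

lemma zz_sq (s : ℂ) (p : Nat.Primes) : zz s p ^ 2 = (p : ℂ) ^ (-(2 * s + 2)) := by
  unfold zz
  rw [← Complex.cpow_nat_mul]
  congr 1
  push_cast
  ring

lemma zeta_prod2 (s : ℂ) (hs : 0 < s.re) :
    Complex.exp (∑' p : Nat.Primes, -Complex.log (1 - zz s p ^ 2)) = riemannZeta (2 * s + 2) := by
  simp_rw [zz_sq]
  exact riemannZeta_eulerProduct_exp_log (by simp; linarith)

lemma log1_summable (s : ℂ) (hs : 0 < s.re) :
    Summable fun p : Nat.Primes => -Complex.log (1 - zz s p) :=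
  (zz_summable s hs).clog_one_sub.neg

lemma log2_summable (s : ℂ) (hs : 0 < s.re) :
    Summable fun p : Nat.Primes => -Complex.log (1 - zz s p ^ 2) := by
  refine Summable.neg (Summable.clog_one_sub ?_)
  refine Summable.of_norm ?_
  simp_rw [norm_pow, zz_norm]
  have : ∀ p : Nat.Primes, ((p : ℝ) ^ (-(1 + s.re))) ^ 2 = (p : ℝ) ^ (-(2 + 2 * s.re)) := by
    intro p
    rw [← Real.rpow_natCast, ← Real.rpow_mul (Nat.cast_nonneg _)]
    congr 1
    push_cast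
    ring
  simp_rw [this]
  exact Nat.Primes.summable_rpow.mpr (by linarith)

/-- the total local exponent -/
noncomputable def GG (f g : ℕ → ℂ) (K P : ℕ) (s : ℂ) (p : Nat.Primes) : ℂ :=
  2 * (-Complex.log (1 - zz s p)) + K * (-Complex.log (1 - zz s p ^ 2)) + (lf f P s p + lf g P s p)

/-- first coefficient -/
noncomputable def c1 (f : ℕ → ℂ) (P : ℕ) (p : ℕ) : ℝ :=
  2 / p + if P ≤ p then 2 * (f p).re else 0

/-- second coefficient -/
noncomputable def e2 (f : ℕ → ℂ) (K P : ℕ) (p : ℕ) : ℝ :=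
  (1 + K) / (p : ℝ) ^ 2 + if P ≤ p then 2 * (f (p ^ 2)).re - ((f p) ^ 2).re else 0

lemma GG_est (f g : ℕ → ℂ) (f1 : f 1 = 1) (hg : ∀ n, g n = conj (f n)) (C : ℝ) (hC1 : 0 ≤ C)
    (hC : ∀ p k : ℕ, p.Prime → 1 ≤ k → ‖f (p ^ k)‖ ≤ (C / p) ^ k) (K P : ℕ)
    (hP : ∀ p : ℕ, p.Prime → P ≤ p → C * (p : ℝ) ^ (-(1/2) : ℝ) ≤ 1/4)
    (s : ℂ) (hs : -(1/2) ≤ s.re) (p : Nat.Primes) :
    ‖GG f g K P s p - ((c1 f P p : ℂ) * (p : ℂ) ^ (-s) + (e2 f K P p : ℂ) * ((p : ℂ) ^ (-s)) ^ 2)‖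
      ≤ (4 + 2 * K + 12 * C ^ 3) * (p : ℝ) ^ (-(3/2) : ℝ) := by
  have hp0 : (0 : ℝ) < p := by exact_mod_cast p.2.pos
  set r : ℝ := (p : ℝ) ^ (-(1/2) : ℝ) with hr
  have hr3 : r ^ 3 = (p : ℝ) ^ (-(3/2) : ℝ) := by
    rw [hr, ← Real.rpow_natCast, ← Real.rpow_mul hp0.le]
    congr 1
    norm_num
  have hr34 : r ≤ 3/4 := half_le p
  have hz := zz_le s hs p
  have h1 := zeta_est1 r hr34 _ hz
  have h2 := zeta_est2 r hr34 _ hz
  set X : ℂ := (p : ℂ) ^ (-s) with hX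
  have hzX : zz s p = (p : ℂ)⁻¹ * X := zz_eq s p
  have hlf : ‖(lf f P s p + lf g P s p)
      - ((((if P ≤ (p : ℕ) then 2 * (f p).re else 0 : ℝ) : ℂ)) * X
        + (((if P ≤ (p : ℕ) then 2 * (f ((p : ℕ) ^ 2)).re - ((f p) ^ 2).re else 0 : ℝ)) : ℂ) * X ^ 2)‖
        ≤ 12 * C ^ 3 * r ^ 3 := by
    unfold lf
    by_cases hp : P ≤ (p : ℕ)
    · simp only [if_pos hp]
      have h3 := (LF_log_est f f1 C hC1 p p.2 (fun k hk => hC p k p.2 hk) (hP p p.2 hp) s hs).1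
      have h4 := (LF_log_est g (by rw [hg, f1, map_one]) C hC1 p p.2 (fun k hk => by
        rw [hg, RCLike.norm_conj]; exact hC p k p.2 hk) (hP p p.2 hp) s hs).1
      rw [← hX] at h3 h4
      have e1 : ((2 * (f p).re : ℝ) : ℂ) = f p + g p := by
        rw [hg, Complex.add_conj]
      have e2' : ((2 * (f ((p : ℕ) ^ 2)).re - ((f p) ^ 2).re : ℝ) : ℂ)
          = (f ((p : ℕ) ^ 2) - f p ^ 2 / 2) + (g ((p : ℕ) ^ 2) - g p ^ 2 / 2) := by
        have e3 : (((f p) ^ 2).re : ℂ) = (f p ^ 2 + g p ^ 2) / 2 := by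
          rw [hg, ← map_pow, Complex.add_conj]
          push_cast
          ring
        have e4 : ((2 * (f ((p : ℕ) ^ 2)).re : ℝ) : ℂ) = f ((p : ℕ) ^ 2) + g ((p : ℕ) ^ 2) := by
          rw [hg, Complex.add_conj]
        rw [Complex.ofReal_sub, e3, e4]
        ring
      rw [e1, e2']
      have e5 : Complex.log (LF f p s) + Complex.log (LF g p s) - ((f p + g p) * X +
          (f ((p : ℕ) ^ 2) - f p ^ 2 / 2 + (g ((p : ℕ) ^ 2) - g p ^ 2 / 2)) * X ^ 2)
          = (Complex.log (LF f p s) - (f p * X + (f ((p : ℕ) ^ 2) - f p ^ 2 / 2) * X ^ 2))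
            + (Complex.log (LF g p s) - (g p * X + (g ((p : ℕ) ^ 2) - g p ^ 2 / 2) * X ^ 2)) := by
        ring
      rw [e5]
      refine (norm_add_le _ _).trans ((add_le_add h3 h4).trans_eq ?_)
      ring
    · simp only [if_neg hp]
      simp
      positivity
  have e : GG f g K P s p - ((c1 f P p : ℂ) * X + (e2 f K P p : ℂ) * X ^ 2)
      = 2 * (-Complex.log (1 - zz s p) - (zz s p + zz s p ^ 2 / 2))
        + K * (-Complex.log (1 - zz s p ^ 2) - zz s p ^ 2)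
        + ((lf f P s p + lf g P s p)
      - ((((if P ≤ (p : ℕ) then 2 * (f p).re else 0 : ℝ) : ℂ)) * X
        + (((if P ≤ (p : ℕ) then 2 * (f ((p : ℕ) ^ 2)).re - ((f p) ^ 2).re else 0 : ℝ)) : ℂ)
          * X ^ 2)) := by
    unfold GG c1 e2
    rw [Complex.ofReal_add, Complex.ofReal_add]
    have h5 : ((2 / (p : ℝ) : ℝ) : ℂ) * X = 2 * zz s p := by
      rw [hzX]; push_cast; ring
    have h6 : (((1 + K) / (p : ℝ) ^ 2 : ℝ) : ℂ) * X ^ 2 = (1 + K) * zz s p ^ 2 := by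
      rw [hzX]; push_cast; ring
    rw [add_mul, add_mul, h5, h6]
    ring
  rw [e]
  refine (norm_add₃_le).trans ?_
  have h7 : ‖2 * (-Complex.log (1 - zz s p) - (zz s p + zz s p ^ 2 / 2))‖ ≤ 4 * r ^ 3 := by
    rw [norm_mul]
    have : ‖(2 : ℂ)‖ = 2 := by simp
    rw [this]
    linarith
  have h8 : ‖(K : ℂ) * (-Complex.log (1 - zz s p ^ 2) - zz s p ^ 2)‖ ≤ 2 * K * r ^ 3 := by
    rw [norm_mul, Complex.norm_natCast]
    calc (K : ℝ) * ‖-Complex.log (1 - zz s p ^ 2) - zz s p ^ 2‖ ≤ K * (2 * r ^ 3) := by gcongr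
      _ = _ := by ring
  rw [← hr3]
  linarith

end Pool.H232R3
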