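import Mathlib
import Pool.Agent.H232R3.CMOMellin

set_option autoImplicit false

open Filter Topology Finset
open scoped ComplexOrder

namespace Pool.H232R3

/-- alternating derivatives at the point a -/
def Alt (u : ℂ → ℂ) (a : ℂ) : Prop := ∀ n : ℕ, 0 ≤ (-1) ^ n * iteratedDeriv n u a

lemma exp_iter (u : ℂ → ℂ) (a : ℂ) (hu : AnalyticAt ℂ u a) (n : ℕ) :
    iteratedDeriv (n + 1) (fun z => Complex.exp (u z)) a
      = ∑ i ∈ Finset.range (n + 1), (n.choose i : ℂ) * iteratedDeriv (i + 1) u a *
        iteratedDeriv (n - i) (fun z => Complex.exp (u z)) a := by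
  have hE : AnalyticAt ℂ (fun z => Complex.exp (u z)) a := hu.cexp
  rw [iteratedDeriv_succ']
  have hev : deriv (fun z => Complex.exp (u z)) =ᶠ[𝓝 a]
      (deriv u) * (fun z => Complex.exp (u z)) := by
    filter_upwards [hu.eventually_analyticAt] with z hz
    rw [Pi.mul_apply, deriv_cexp hz.differentiableAt, mul_comm]
  rw [hev.iteratedDeriv_eq n, iteratedDeriv_mul hu.deriv.contDiffAt hE.contDiffAt]
  refine Finset.sum_congr rfl fun i _ => ?_
  rw [← iteratedDeriv_succ']

lemma Alt_exp_pos (u : ℂ → ℂ) (a : ℂ) (hu : AnalyticAt ℂ u a) (h : Alt u a) :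
    Alt (fun z => Complex.exp (u z)) a := by
  intro n
  induction n using Nat.strong_induction_on with
  | _ n ih =>
    rcases n with _ | n
    · have h0 := h 0
      simp only [pow_zero, one_mul, iteratedDeriv_zero] at h0 ⊢
      have hz : u a = ((u a).re : ℂ) := Complex.eq_re_of_ofReal_le (r := 0) (by simpa using h0)
      rw [hz, ← Complex.ofReal_exp, Complex.zero_le_real]
      exact (Real.exp_pos _).le
    · rw [exp_iter u a hu, Finset.mul_sum]
      refine Finset.sum_nonneg fun i hi => ?_
      rw [Finset.mem_range] at hi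
      have e : (-1 : ℂ) ^ (n + 1) * ((n.choose i : ℂ) * iteratedDeriv (i + 1) u a *
          iteratedDeriv (n - i) (fun z => Complex.exp (u z)) a)
          = (n.choose i : ℂ) * ((-1) ^ (i + 1) * iteratedDeriv (i + 1) u a) *
            ((-1) ^ (n - i) * iteratedDeriv (n - i) (fun z => Complex.exp (u z)) a) := by
        have : (-1 : ℂ) ^ (n + 1) = (-1) ^ (i + 1) * (-1) ^ (n - i) := by
          rw [← pow_add]
          congr 1
          omega
        rw [this]
        ring
      rw [e]
      refine mul_nonneg (mul_nonneg (by exact_mod_cast Nat.zero_le _) (h _)) (ih _ (by omega))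

lemma Alt_exp_sub (u : ℂ → ℂ) (a : ℂ) (hu : AnalyticAt ℂ u a) (h : Alt u a) :
    Alt (fun z => Complex.exp (u z) - u z) a := by
  have hE : AnalyticAt ℂ (fun z => Complex.exp (u z)) a := hu.cexp
  have hpos := Alt_exp_pos u a hu h
  have h0 := h 0
  simp only [pow_zero, one_mul, iteratedDeriv_zero] at h0
  have hre : u a = ((u a).re : ℂ) := Complex.eq_re_of_ofReal_le (r := 0) (by simpa using h0)
  have hre0 : 0 ≤ (u a).re := (Complex.le_def.mp h0).1
  have hexp : Complex.exp (u a) = ((Real.exp (u a).re : ℝ) : ℂ) := by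
    rw [Complex.ofReal_exp, ← hre]
  intro n
  rcases n with _ | n
  · simp only [pow_zero, one_mul, iteratedDeriv_zero]
    rw [hexp]
    nth_rewrite 2 [hre]
    rw [← Complex.ofReal_sub, Complex.zero_le_real]
    have := Real.add_one_le_exp (u a).re
    linarith
  · have e1 : iteratedDeriv (n + 1) (fun z => Complex.exp (u z) - u z) a
        = iteratedDeriv (n + 1) (fun z => Complex.exp (u z)) a - iteratedDeriv (n + 1) u a :=
      iteratedDeriv_fun_sub hE.contDiffAt hu.contDiffAt
    rw [e1, exp_iter u a hu, Finset.sum_range_succ, mul_sub, mul_add, add_sub_assoc]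
    refine add_nonneg ?_ ?_
    · rw [Finset.mul_sum]
      refine Finset.sum_nonneg fun i hi => ?_
      rw [Finset.mem_range] at hi
      have e : (-1 : ℂ) ^ (n + 1) * ((n.choose i : ℂ) * iteratedDeriv (i + 1) u a *
          iteratedDeriv (n - i) (fun z => Complex.exp (u z)) a)
          = (n.choose i : ℂ) * ((-1) ^ (i + 1) * iteratedDeriv (i + 1) u a) *
            ((-1) ^ (n - i) * iteratedDeriv (n - i) (fun z => Complex.exp (u z)) a) := by
        have : (-1 : ℂ) ^ (n + 1) = (-1) ^ (i + 1) * (-1) ^ (n - i) := by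
          rw [← pow_add]
          congr 1
          omega
        rw [this]
        ring
      rw [e]
      refine mul_nonneg (mul_nonneg (by exact_mod_cast Nat.zero_le _) (h _)) (hpos _)
    · rw [Nat.choose_self, Nat.cast_one, one_mul, Nat.sub_self, iteratedDeriv_zero, hexp]
      have e2 : (-1 : ℂ) ^ (n + 1) * (iteratedDeriv (n + 1) u a * ((Real.exp (u a).re : ℝ) : ℂ))
          - (-1) ^ (n + 1) * iteratedDeriv (n + 1) u a
          = ((-1) ^ (n + 1) * iteratedDeriv (n + 1) u a) * ((Real.exp (u a).re - 1 : ℝ) : ℂ) := by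
        push_cast
        ring
      rw [e2]
      refine mul_nonneg (h _) ?_
      rw [Complex.zero_le_real]
      have := Real.one_le_exp hre0
      linarith

/-- power series continuation to the left -/
lemma ball_nonneg (v : ℂ → ℂ) (σ : ℝ) (hv : DifferentiableOn ℂ v {s | σ < s.re})
    (halt : Alt v ((2 : ℝ) : ℂ)) (x : ℝ) (hx : σ < x) (hx2 : x ≤ 2) : 0 ≤ v x := by
  set G : ℂ → ℂ := fun z => v (-z) with hG
  have hball : DifferentiableOn ℂ G (Metric.ball (-((2 : ℝ) : ℂ)) (2 - σ)) := by
    have hsub : ∀ z ∈ Metric.ball (-((2 : ℝ) : ℂ)) (2 - σ), -z ∈ {s : ℂ | σ < s.re} := by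
      intro z hz
      rw [Metric.mem_ball, dist_eq_norm] at hz
      have h3 := Complex.abs_re_le_norm (z - -((2 : ℝ) : ℂ))
      have h4 : (z - -((2 : ℝ) : ℂ)).re = z.re + 2 := by simp
      rw [h4] at h3
      have h5 := le_abs_self (z.re + 2)
      show σ < (-z).re
      rw [Complex.neg_re]
      linarith
    exact hv.comp (differentiable_neg.differentiableOn) hsub
  have hfin := hball.nonneg_of_iteratedDeriv_nonneg (c := -((2 : ℝ) : ℂ)) ?_
    (z := -(x : ℂ)) ?_ ?_
  · simpa only [hG, neg_neg] using hfin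
  · intro n
    have h6 := iteratedDeriv_comp_neg n v (-((2 : ℝ) : ℂ))
    rw [neg_neg, smul_eq_mul] at h6
    show 0 ≤ iteratedDeriv n (fun z : ℂ => v (-z)) (-((2 : ℝ) : ℂ))
    rw [h6]
    exact halt n
  · rw [neg_le_neg_iff]
    exact_mod_cast hx2
  · rw [Metric.mem_ball, dist_eq_norm]
    have : -(x : ℂ) - -((2 : ℝ) : ℂ) = ((2 - x : ℝ) : ℂ) := by push_cast; ring
    rw [this, Complex.norm_real, Real.norm_eq_abs, abs_of_nonneg (by linarith)]
    linarith

/-- partial sums of the Dirichlet series -/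
noncomputable def DPs (d : ℕ → ℂ) (N : ℕ) (s : ℂ) : ℂ :=
  ∑ n ∈ Finset.range N, LSeries.term d s n

/-- the tail coefficients -/
noncomputable def tl (d : ℕ → ℂ) (N : ℕ) (n : ℕ) : ℂ := if n < N then 0 else d n

lemma tl_hasSum (d : ℕ → ℂ) (N : ℕ) (s : ℂ) (hs : LSeriesSummable d s) :
    LSeriesHasSum (tl d N) s (LSeries d s - DPs d N s) := by
  have h1 : HasSum (LSeries.term d s) (LSeries d s) := hs.LSeriesHasSum
  have h2 : HasSum (fun n => if n < N then LSeries.term d s n else 0) (DPs d N s) := by
    unfold DPs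
    have h : ∀ n ∈ Finset.range N, LSeries.term d s n
        = (fun n => if n < N then LSeries.term d s n else 0) n := by
      intro n hn
      rw [Finset.mem_range] at hn
      simp [hn]
    rw [Finset.sum_congr rfl h]
    refine hasSum_sum_of_ne_finset_zero ?_
    intro n hn
    rw [Finset.mem_range] at hn
    simp [hn]
  unfold LSeriesHasSum
  convert! h1.sub h2 using 1
  ext n
  rw [LSeries.term_def]
  by_cases h0 : n = 0
  · rw [if_pos h0, h0]; simp
  · rw [if_neg h0]
    unfold tl
    by_cases hn : n < N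
    · rw [if_pos hn, if_pos hn]; simp
    · rw [if_neg hn, if_neg hn, sub_zero, LSeries.term_def, if_neg h0]

/-- Landau theorem for the exponential of a Dirichlet series -/
lemma exp_landau (d : ℕ → ℂ) (hd : 0 ≤ d) (R : ℂ → ℂ) (σ : ℝ)
    (hR : DifferentiableOn ℂ R {s | σ < s.re})
    (h1 : ∀ s : ℂ, 1 < s.re → LSeriesSummable d s ∧ R s = Complex.exp (LSeries d s))
    (x : ℝ) (hx : σ < x) (hx2 : x ≤ 2) : LSeriesSummable d x := by
  have habs : ∀ t : ℕ → ℂ, (∀ s : ℂ, 1 < s.re → LSeriesSummable t s) →
      LSeries.abscissaOfAbsConv t < ((2 : ℝ) : EReal) := by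
    intro t ht
    have : LSeries.abscissaOfAbsConv t ≤ ((1 : ℝ) : EReal) := by
      refine LSeries.abscissaOfAbsConv_le_of_forall_lt_LSeriesSummable ?_
      intro y hy
      exact ht y (by simpa using hy)
    exact lt_of_le_of_lt this (by exact_mod_cast one_lt_two)
  have hda := habs d (fun s hs => (h1 s hs).1)
  have han : AnalyticAt ℂ (LSeries d) ((2 : ℝ) : ℂ) :=
    (LSeries_analyticOnNhd d) _ (by simpa using hda)
  have halt : Alt (LSeries d) ((2 : ℝ) : ℂ) := fun n => LSeries.iteratedDeriv_alternating hd hda n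
  have hkey : ∀ N : ℕ, DPs d N x ≤ R x := by
    intro N
    have htl0 : 0 ≤ tl d N := by
      intro n
      unfold tl
      split_ifs
      · exact le_rfl
      · exact hd n
    have hta := habs (tl d N) (fun s hs => (tl_hasSum d N s (h1 s hs).1).LSeriesSummable)
    have htan : AnalyticAt ℂ (LSeries (tl d N)) ((2 : ℝ) : ℂ) :=
      (LSeries_analyticOnNhd _) _ (by simpa using hta)
    have halt2 : Alt (LSeries (tl d N)) ((2 : ℝ) : ℂ) :=
      fun n => LSeries.iteratedDeriv_alternating htl0 hta n
    have hdiffP : Differentiable ℂ (DPs d N) := by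
      unfold DPs
      refine Differentiable.fun_sum fun n _ => ?_
      intro s
      exact (LSeries.hasDerivAt_term d n s).differentiableAt
    have halt3 : Alt (fun s => R s - DPs d N s) ((2 : ℝ) : ℂ) := by
      intro n
      have hev : (fun s => R s - DPs d N s) =ᶠ[𝓝 ((2 : ℝ) : ℂ)]
          fun s => (Complex.exp (LSeries d s) - LSeries d s) + LSeries (tl d N) s := by
        have ho : IsOpen {s : ℂ | 1 < s.re} := Complex.continuous_re.isOpen_preimage _ isOpen_Ioi
        filter_upwards [ho.mem_nhds (show ((2 : ℝ) : ℂ) ∈ {s : ℂ | 1 < s.re} by simp)] with s hs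
        rw [(h1 s hs).2, (tl_hasSum d N s (h1 s hs).1).LSeries_eq]
        ring
      rw [hev.iteratedDeriv_eq n]
      have e1 : iteratedDeriv n (fun s => (Complex.exp (LSeries d s) - LSeries d s)
          + LSeries (tl d N) s) ((2 : ℝ) : ℂ)
          = iteratedDeriv n (fun s => Complex.exp (LSeries d s) - LSeries d s) ((2 : ℝ) : ℂ)
            + iteratedDeriv n (LSeries (tl d N)) ((2 : ℝ) : ℂ) :=
        iteratedDeriv_fun_add (han.cexp.sub han).contDiffAt htan.contDiffAt
      rw [e1, mul_add]
      exact add_nonneg (Alt_exp_sub _ _ han halt n) (halt2 n)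
    have := ball_nonneg _ σ (hR.sub hdiffP.differentiableOn) halt3 x hx hx2
    exact sub_nonneg.mp this
  unfold LSeriesSummable
  have hnn : ∀ n, 0 ≤ LSeries.term d (x : ℂ) n := fun n => LSeries.term_nonneg (hd n) x
  have hre : ∀ n, LSeries.term d (x : ℂ) n = ((LSeries.term d (x : ℂ) n).re : ℂ) :=
    fun n => Complex.eq_re_of_ofReal_le (r := 0) (by simpa using hnn n)
  have hnn' : ∀ n, 0 ≤ (LSeries.term d (x : ℂ) n).re := fun n => (Complex.le_def.mp (hnn n)).1
  have hs : Summable fun n => (LSeries.term d (x : ℂ) n).re := by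
    refine summable_of_sum_range_le (c := (R x).re) hnn' fun N => ?_
    have h2 := (Complex.le_def.mp (hkey N)).1
    unfold DPs at h2
    rw [Complex.re_sum] at h2
    exact h2
  have h3 := Complex.hasSum_ofReal.mpr hs.hasSum
  refine h3.summable.congr fun n => ?_
  exact (hre n).symm

end Pool.H232R3
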