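import Mathlib
import Pool.Agent.H232R3.MOAlt
import Pool.Agent.H332R2.FL.ZeroExists

set_option autoImplicit false

open Filter Topology Finset
open scoped ComplexOrder ComplexConjugate

namespace Pool.H232R3

/-- the n-th coefficient identity -/
lemma term_split (d : ℕ → ℂ) (hd : 0 ≤ d) (x : ℝ) (n : ℕ) (τ : ℝ) :
    LSeries.term d ((x : ℂ) + τ * Complex.I) n
      = (((LSeries.term d (x : ℂ) n).re : ℝ) : ℂ) *
        Complex.exp (-(τ * Real.log n : ℝ) * Complex.I) := by
  have hnn : 0 ≤ LSeries.term d (x : ℂ) n := LSeries.term_nonneg (hd n) x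
  have hre : LSeries.term d (x : ℂ) n = ((LSeries.term d (x : ℂ) n).re : ℂ) :=
    Complex.eq_re_of_ofReal_le (r := 0) (by simpa using hnn)
  rw [← hre]
  by_cases h0 : n = 0
  · rw [h0]; simp
  rw [LSeries.term_def, LSeries.term_def, if_neg h0, if_neg h0]
  have hn : (n : ℂ) ≠ 0 := by exact_mod_cast h0
  have e : (n : ℂ) ^ (-((τ : ℂ) * Complex.I))
      = Complex.exp (-(τ * Real.log n : ℝ) * Complex.I) := by
    rw [Complex.cpow_def_of_ne_zero hn, ← Complex.natCast_log]
    congr 1
    push_cast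
    ring
  rw [Complex.cpow_add _ _ hn, ← div_div, div_eq_mul_inv (d n / (n : ℂ) ^ (x : ℂ)),
    ← Complex.cpow_neg, e]

lemma quad_nonneg (d : ℕ → ℂ) (hd : 0 ≤ d) (x : ℝ) (hx : LSeriesSummable d x) {ι : Type}
    [Fintype ι] (w t : ι → ℝ) :
    0 ≤ ∑ i, ∑ j, w i * w j * (LSeries d ((x : ℂ) + (t i - t j : ℝ) * Complex.I)).re := by
  have hsum : ∀ τ : ℝ, LSeriesSummable d ((x : ℂ) + τ * Complex.I) := fun τ =>
    hx.of_re_le_re (by simp)
  have h1 : ∀ i j : ι, HasSum (fun n => w i * w j *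
      (LSeries.term d ((x : ℂ) + (t i - t j : ℝ) * Complex.I) n).re)
      (w i * w j * (LSeries d ((x : ℂ) + (t i - t j : ℝ) * Complex.I)).re) := by
    intro i j
    have h2 : HasSum (LSeries.term d ((x : ℂ) + (t i - t j : ℝ) * Complex.I))
        (LSeries d ((x : ℂ) + (t i - t j : ℝ) * Complex.I)) := (hsum _).LSeriesHasSum
    exact (Complex.hasSum_re h2).mul_left _
  have h2 := hasSum_sum (s := Finset.univ) fun i (_ : i ∈ Finset.univ) =>
    hasSum_sum (s := Finset.univ) fun j (_ : j ∈ Finset.univ) => h1 i j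
  refine h2.nonneg fun n => ?_
  have hnn : 0 ≤ LSeries.term d (x : ℂ) n := LSeries.term_nonneg (hd n) x
  have hnn' : 0 ≤ (LSeries.term d (x : ℂ) n).re := (Complex.le_def.mp hnn).1
  set a := (LSeries.term d (x : ℂ) n).re with ha
  set E : ι → ℂ := fun i => Complex.exp (-(t i * Real.log n : ℝ) * Complex.I) with hE
  have h3 : ∀ i j : ι, LSeries.term d ((x : ℂ) + (t i - t j : ℝ) * Complex.I) n
      = (a : ℂ) * (E i * conj (E j)) := by
    intro i j
    rw [term_split d hd, ← ha, hE]
    simp only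
    rw [← Complex.exp_conj, ← Complex.exp_add]
    congr 2
    simp only [map_mul, map_neg, Complex.conj_ofReal, Complex.conj_I]
    push_cast
    ring
  have h4 : ∑ i, ∑ j, w i * w j *
      (LSeries.term d ((x : ℂ) + (t i - t j : ℝ) * Complex.I) n).re
      = a * Complex.normSq (∑ i, (w i : ℂ) * E i) := by
    have h5 : (((a * Complex.normSq (∑ i, (w i : ℂ) * E i) : ℝ) : ℂ))
        = ∑ i, ∑ j, ((w i : ℂ) * w j) * ((a : ℂ) * (E i * conj (E j))) := by
      rw [Complex.ofReal_mul, ← Complex.mul_conj, map_sum, Finset.sum_mul_sum, Finset.mul_sum]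
      refine Finset.sum_congr rfl fun i _ => ?_
      rw [Finset.mul_sum]
      refine Finset.sum_congr rfl fun j _ => ?_
      rw [map_mul, Complex.conj_ofReal]
      ring
    have h6 := congrArg Complex.re h5
    rw [Complex.ofReal_re, Complex.re_sum] at h6
    rw [h6]
    refine Finset.sum_congr rfl fun i _ => ?_
    rw [Complex.re_sum]
    refine Finset.sum_congr rfl fun j _ => ?_
    rw [h3, ← Complex.ofReal_mul, Complex.re_ofReal_mul, Complex.re_ofReal_mul,
      Complex.re_ofReal_mul]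
  rw [h4]
  exact mul_nonneg hnn' (Complex.normSq_nonneg _)

/-- growth near the point -1/2+it on the line -/
def Bd (R : ℂ → ℂ) (t : ℝ) (m : ℤ) : Prop :=
  ∃ C : ℝ, ∀ᶠ δ in 𝓝[>] (0 : ℝ), ‖R (((-(1/2) + δ : ℝ) : ℂ) + t * Complex.I)‖ ≤ C * δ ^ m

lemma halfplane_preconnected (σ : ℝ) : IsPreconnected {s : ℂ | σ < s.re} :=
  (convex_halfSpace_re_gt σ).isPreconnected

theorem line_contra (d : ℕ → ℂ) (hd : 0 ≤ d) (R : ℂ → ℂ) (K : ℕ) (hK : 1 ≤ K)
    (hR : DifferentiableOn ℂ R {s | -(1/2) < s.re})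
    (h1 : ∀ s : ℂ, 1 < s.re → LSeriesSummable d s ∧ R s = Complex.exp (LSeries d s))
    (h0 : Bd R 0 (-K)) (ht : ∀ t : ℝ, t ≠ 0 → Bd R t 0)
    (hz : ∀ ρ : ℂ, riemannZeta ρ = 0 → 1/2 < ρ.re → ρ.re < 1 → R (ρ - 1) = 0)
    (hz2 : ∀ t : ℝ, t ≠ 0 → riemannZeta (1/2 + t * Complex.I) = 0 → Bd R t 2) : False := by
  have hsx : ∀ x : ℝ, -(1/2) < x → LSeriesSummable d x := by
    intro x hx
    by_cases hx2 : x ≤ 2
    · exact exp_landau d hd R (-(1/2)) hR h1 x hx hx2
    · push Not at hx2
      refine (exp_landau d hd R (-(1/2)) hR h1 2 (by norm_num) le_rfl).of_re_le_re ?_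
      simpa using hx2.le
  have habs : LSeries.abscissaOfAbsConv d ≤ ((-(1/2) : ℝ) : EReal) := by
    refine LSeries.abscissaOfAbsConv_le_of_forall_lt_LSeriesSummable ?_
    intro y hy
    exact hsx y hy
  have hopen : IsOpen {s : ℂ | -(1/2 : ℝ) < s.re} :=
    Complex.continuous_re.isOpen_preimage _ isOpen_Ioi
  have hLan : AnalyticOnNhd ℂ (LSeries d) {s | -(1/2) < s.re} := by
    intro s hs
    refine (LSeries_analyticOnNhd d) s ?_
    refine lt_of_le_of_lt habs ?_
    exact_mod_cast hs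
  have hRexp : Set.EqOn R (fun s => Complex.exp (LSeries d s)) {s | -(1/2) < s.re} := by
    refine AnalyticOnNhd.eqOn_of_preconnected_of_eventuallyEq (hR.analyticOnNhd hopen)
      (fun s hs => (hLan s hs).cexp) (halfplane_preconnected _) (z₀ := 2) (by simp; norm_num) ?_
    have ho : IsOpen {s : ℂ | 1 < s.re} := Complex.continuous_re.isOpen_preimage _ isOpen_Ioi
    filter_upwards [ho.mem_nhds (show (2 : ℂ) ∈ {s : ℂ | 1 < s.re} by simp)] with s hs
    exact (h1 s hs).2
  have hnorm : ∀ s : ℂ, -(1/2) < s.re → ‖R s‖ = Real.exp (LSeries d s).re := by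
    intro s hs
    rw [hRexp hs, Complex.norm_exp]
  -- all zeros on the line
  have hline : ∀ T : ℝ, ∃ t : ℝ, T < t ∧ 0 < t ∧ riemannZeta (1/2 + t * Complex.I) = 0 := by
    intro T
    obtain ⟨ρ, hρ, hr1, hr2, hi1, hi2⟩ := H332.FL.exists_zero_re_ge_half T
    refine ⟨ρ.im, hi2, by linarith, ?_⟩
    rcases hr1.lt_or_eq with h | h
    · have h2 := hz ρ hρ h hr2
      have h3 := hnorm (ρ - 1) (by simp; linarith)
      rw [h2, norm_zero] at h3
      exact absurd h3 (Real.exp_pos _).ne
    · have : (1/2 : ℂ) + ρ.im * Complex.I = ρ := by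
        apply Complex.ext
        · simp [← h]
        · simp
      rw [this]
      exact hρ
  set S : Set ℝ := {t | 0 < t ∧ riemannZeta (1/2 + t * Complex.I) = 0} with hS
  have hinf : S.Infinite := by
    intro hfin
    obtain ⟨M, hM⟩ := hfin.bddAbove
    obtain ⟨t, ht1, ht2, ht3⟩ := hline M
    have := hM (show t ∈ S from ⟨ht2, ht3⟩)
    linarith
  obtain ⟨T, hTS, hTcard⟩ := hinf.exists_subset_card_eq (K ^ 2)
  -- the log bound
  have hlog : ∀ (t : ℝ) (m : ℤ), Bd R t m → ∃ C : ℝ, ∀ᶠ δ in 𝓝[>] (0 : ℝ),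
      (LSeries d (((-(1/2) + δ : ℝ) : ℂ) + t * Complex.I)).re ≤ C + m * Real.log δ := by
    intro t m ⟨C, hC⟩
    refine ⟨Real.log C, ?_⟩
    filter_upwards [hC, self_mem_nhdsWithin] with δ h2 hδ
    have hδ0 : (0 : ℝ) < δ := hδ
    rw [hnorm _ (by simp; linarith)] at h2
    have h3 : 0 < δ ^ m := zpow_pos hδ0 m
    have hC0 : 0 < C := by
      by_contra hcon
      push Not at hcon
      have := mul_nonpos_of_nonpos_of_nonneg hcon h3.le
      have := Real.exp_pos (LSeries d (((-(1/2) + δ : ℝ) : ℂ) + t * Complex.I)).re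
      linarith
    have h4 := Real.log_le_log (Real.exp_pos _) h2
    rw [Real.log_exp, Real.log_mul hC0.ne' h3.ne', Real.log_zpow] at h4
    exact h4
  -- index set
  set w : Option T → ℝ := fun o => match o with
    | none => (K : ℝ)
    | some _ => 1 with hw
  set tt : Option T → ℝ := fun o => match o with
    | none => 0
    | some a => (a : ℝ) with htt
  set mm : Option T → Option T → ℤ := fun o o' => match o, o' with
    | none, none => -K
    | none, some _ => 2
    | some _, none => 2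
    | some a, some b => if a = b then -K else 0 with hmm
  have hbd : ∀ i j : Option T, Bd R (tt i - tt j) (mm i j) := by
    intro i j
    rcases i with _ | a <;> rcases j with _ | b
    · simpa [htt, hmm] using h0
    · have hb := (hTS b.2).2
      simp only [htt, hmm, zero_sub]
      refine hz2 _ (neg_ne_zero.mpr (hTS b.2).1.ne') ?_
      have h5 := riemannZeta_conj (1/2 + (b : ℝ) * Complex.I)
      rw [hb, map_zero] at h5
      rw [← h5]
      congr 1
      simp [map_ofNat]
    · have ha := (hTS a.2).2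
      simp only [htt, hmm, sub_zero]
      exact hz2 _ (hTS a.2).1.ne' ha
    · simp only [htt, hmm]
      by_cases hab : a = b
      · rw [if_pos hab, hab, sub_self]
        exact h0
      · rw [if_neg hab]
        refine ht _ ?_
        intro h6
        exact hab (Subtype.ext (sub_eq_zero.mp h6))
  choose CC hCC using fun i j => hlog _ _ (hbd i j)
  have hall : ∀ᶠ δ in 𝓝[>] (0 : ℝ), ∀ i j : Option T,
      (LSeries d (((-(1/2) + δ : ℝ) : ℂ) + (tt i - tt j : ℝ) * Complex.I)).re
        ≤ CC i j + mm i j * Real.log δ := by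
    rw [eventually_all]
    intro i
    rw [eventually_all]
    intro j
    exact hCC i j
  have hw0 : ∀ i, 0 ≤ w i := by
    intro i
    rcases i with _ | a
    · simp [hw]
    · simp [hw]
  have hfinal : ∀ᶠ δ in 𝓝[>] (0 : ℝ),
      0 ≤ (∑ i, ∑ j, w i * w j * CC i j) + (∑ i, ∑ j, w i * w j * mm i j) * Real.log δ := by
    filter_upwards [hall, self_mem_nhdsWithin] with δ h2 hδ
    have hδ0 : (0 : ℝ) < δ := hδ
    have hq := quad_nonneg d hd (-(1/2) + δ) (hsx _ (by linarith)) w tt
    refine hq.trans ?_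
    rw [Finset.sum_mul, ← Finset.sum_add_distrib]
    refine Finset.sum_le_sum fun i _ => ?_
    rw [Finset.sum_mul, ← Finset.sum_add_distrib]
    refine Finset.sum_le_sum fun j _ => ?_
    have := mul_le_mul_of_nonneg_left (h2 i j) (mul_nonneg (hw0 i) (hw0 j))
    calc _ ≤ _ := this
      _ = _ := by ring
  have hms : (∑ i, ∑ j, w i * w j * mm i j) = 2 * (K : ℝ) ^ 3 := by
    rw [Fintype.sum_option]
    simp only [Fintype.sum_option]
    simp only [hw, hmm]
    have hcard : Fintype.card T = K ^ 2 := by simpa using hTcard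
    have e1 : ∀ a : T, ∑ b : T, (1 : ℝ) * 1 * ((if a = b then (-K : ℤ) else 0 : ℤ) : ℝ)
        = -K := by
      intro a
      simp only [one_mul]
      rw [← Int.cast_sum, Finset.sum_ite_eq]
      simp
    simp only [e1]
    simp only [Finset.sum_const, Finset.card_univ, hcard, nsmul_eq_mul]
    push_cast
    ring
  rw [hms] at hfinal
  have hlim : Tendsto (fun δ : ℝ => (∑ i, ∑ j, w i * w j * CC i j)
      + 2 * (K : ℝ) ^ 3 * Real.log δ) (𝓝[>] (0 : ℝ)) atBot := by
    refine tendsto_atBot_add_const_left _ _ ?_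
    refine Tendsto.const_mul_atBot ?_ Real.tendsto_log_nhdsGT_zero
    have : (0 : ℝ) < K := by exact_mod_cast hK
    positivity
  have hneg := hlim.eventually (eventually_lt_atBot (0 : ℝ))
  obtain ⟨δ, h3, h4⟩ := (hfinal.and hneg).exists
  linarith

end Pool.H232R3
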