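import Mathlib
import Pool.Agent.H232R3.MOEuler
import Pool.Agent.H232R3.MOLine

set_option autoImplicit false

open Finset Filter Topology
open scoped ComplexConjugate ComplexOrder

namespace Pool.H232R3

/-- Dirichlet coefficients of the positive exponent -/
noncomputable def dd1 (f : ℕ → ℂ) (P : ℕ) (n : ℕ) : ℂ :=
  if n.Prime then ((max (c1 f P n) 0 : ℝ) : ℂ) else 0

noncomputable def dd2 (f : ℕ → ℂ) (K P : ℕ) (n : ℕ) : ℂ :=
  if IsSquare n ∧ (n.sqrt).Prime then ((e2 f K P n.sqrt : ℝ) : ℂ) else 0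

lemma dd1_hasSum (f : ℕ → ℂ) (P : ℕ) (s a : ℂ)
    (h : HasSum (fun p : Nat.Primes => ((max (c1 f P p) 0 : ℝ) : ℂ) * (p : ℂ) ^ (-s)) a) :
    LSeriesHasSum (dd1 f P) s a := by
  have hinj : Function.Injective (fun p : Nat.Primes => (p : ℕ)) := Subtype.coe_injective
  unfold LSeriesHasSum
  rw [← hinj.hasSum_iff (f := LSeries.term (dd1 f P) s)]
  · convert! h using 1
    ext p
    simp only [Function.comp]
    rw [term_p _ _ p.2]
    unfold dd1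
    rw [if_pos p.2]
  · intro n hn
    have hnp : ¬ n.Prime := fun hp => hn ⟨⟨n, hp⟩, rfl⟩
    rw [LSeries.term_def]
    unfold dd1
    rw [if_neg hnp]
    simp

lemma dd2_hasSum (f : ℕ → ℂ) (K P : ℕ) (s a : ℂ)
    (h : HasSum (fun p : Nat.Primes => ((e2 f K P p : ℝ) : ℂ) * ((p : ℂ) ^ (-s)) ^ 2) a) :
    LSeriesHasSum (dd2 f K P) s a := by
  have hinj : Function.Injective (fun p : Nat.Primes => (p : ℕ) ^ 2) := by
    intro p q hpq
    exact Subtype.ext (Nat.pow_left_injective (by norm_num : 2 ≠ 0) hpq)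
  unfold LSeriesHasSum
  rw [← hinj.hasSum_iff (f := LSeries.term (dd2 f K P) s)]
  · convert! h using 1
    ext p
    simp only [Function.comp]
    rw [term_p2 _ _ p.2]
    unfold dd2
    have h1 : Nat.sqrt ((p : ℕ) ^ 2) = p := by rw [pow_two, Nat.sqrt_eq]
    rw [h1, if_pos ⟨⟨p, pow_two _⟩, p.2⟩]
  · intro n hn
    rw [LSeries.term_def]
    unfold dd2
    have hnp : ¬ (IsSquare n ∧ (n.sqrt).Prime) := by
      rintro ⟨⟨m, hm⟩, hp⟩
      apply hn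
      refine ⟨⟨n.sqrt, hp⟩, ?_⟩
      show n.sqrt ^ 2 = n
      rw [hm, Nat.sqrt_eq, pow_two]
    rw [if_neg hnp]
    simp

/-- the error exponent -/
noncomputable def HE (f g : ℕ → ℂ) (K P : ℕ) (p : Nat.Primes) (s : ℂ) : ℂ :=
  GG f g K P s p - (((max (c1 f P p) 0 : ℝ) : ℂ) * (p : ℂ) ^ (-s)
    + (e2 f K P p : ℂ) * ((p : ℂ) ^ (-s)) ^ 2)

/-- the majorant -/
noncomputable def uE (f : ℕ → ℂ) (C : ℝ) (K : ℕ) (p : Nat.Primes) : ℝ :=
  (4 + 2 * K + 12 * C ^ 3) * (p : ℝ) ^ (-(3/2) : ℝ)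
    + 2 * (Real.sqrt p * max (-(1 / (p : ℝ)) - (f p).re) 0)

lemma HE_bound (f g : ℕ → ℂ) (f1 : f 1 = 1) (hg : ∀ n, g n = conj (f n)) (C : ℝ) (hC1 : 0 ≤ C)
    (hC : ∀ p k : ℕ, p.Prime → 1 ≤ k → ‖f (p ^ k)‖ ≤ (C / p) ^ k) (K P : ℕ)
    (hP : ∀ p : ℕ, p.Prime → P ≤ p → C * (p : ℝ) ^ (-(1/2) : ℝ) ≤ 1/4)
    (s : ℂ) (hs : -(1/2) ≤ s.re) (p : Nat.Primes) :
    ‖HE f g K P p s‖ ≤ uE f C K p := by
  have hp0 : (0 : ℝ) < p := by exact_mod_cast p.2.pos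
  have h1 := GG_est f g f1 hg C hC1 hC K P hP s hs p
  have e : HE f g K P p s = (GG f g K P s p - ((c1 f P p : ℂ) * (p : ℂ) ^ (-s)
      + (e2 f K P p : ℂ) * ((p : ℂ) ^ (-s)) ^ 2))
      - ((max (c1 f P p) 0 - c1 f P p : ℝ) : ℂ) * (p : ℂ) ^ (-s) := by
    unfold HE
    rw [Complex.ofReal_sub]
    ring
  rw [e]
  refine (norm_sub_le _ _).trans ?_
  unfold uE
  refine add_le_add h1 ?_
  rw [norm_mul, Complex.norm_real, Complex.norm_natCast_cpow_of_pos p.2.pos, Complex.neg_re,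
    Real.norm_eq_abs]
  have h2 : (p : ℝ) ^ (-s.re) ≤ Real.sqrt p := by
    rw [Real.sqrt_eq_rpow]
    exact Real.rpow_le_rpow_of_exponent_le (by exact_mod_cast p.2.one_lt.le) (by linarith)
  have h3 : |max (c1 f P p) 0 - c1 f P p| ≤ 2 * max (-(1 / (p : ℝ)) - (f p).re) 0 := by
    rw [abs_of_nonneg (sub_nonneg.mpr (le_max_left _ _))]
    have h4 : 0 ≤ max (-(1 / (p : ℝ)) - (f p).re) 0 := le_max_right _ _
    have h5 : -(1 / (p : ℝ)) - (f p).re ≤ max (-(1 / (p : ℝ)) - (f p).re) 0 := le_max_left _ _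
    have h6 : (2 : ℝ) / p = 2 * (1 / p) := by ring
    have h7 : 0 < 1 / (p : ℝ) := by positivity
    rcases le_total (c1 f P p) 0 with h | h
    · rw [max_eq_right h]
      unfold c1
      split_ifs
      · rw [h6]; linarith
      · rw [h6]; linarith
    · rw [max_eq_left h]; linarith
  calc |max (c1 f P p) 0 - c1 f P p| * (p : ℝ) ^ (-s.re)
      ≤ (2 * max (-(1 / (p : ℝ)) - (f p).re) 0) * Real.sqrt p := by gcongr
    _ = _ := by ring

lemma HE_differentiableAt (f g : ℕ → ℂ) (f1 : f 1 = 1) (hg : ∀ n, g n = conj (f n)) (C : ℝ)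
    (hC1 : 0 ≤ C)
    (hC : ∀ p k : ℕ, p.Prime → 1 ≤ k → ‖f (p ^ k)‖ ≤ (C / p) ^ k) (K P : ℕ)
    (hP : ∀ p : ℕ, p.Prime → P ≤ p → C * (p : ℝ) ^ (-(1/2) : ℝ) ≤ 1/4)
    (C₁ β : ℝ) (hβ : 1/2 < β)
    (hdec : ∀ n : ℕ, 0 < n → ‖f n‖ ≤ C₁ * (n : ℝ) ^ (-β))
    (s : ℂ) (hs : -(1/2) < s.re) (p : Nat.Primes) :
    DifferentiableAt ℂ (HE f g K P p) s := by
  have hpc : (p : ℂ) ≠ 0 := by exact_mod_cast p.2.ne_zero
  have hX : DifferentiableAt ℂ (fun s : ℂ => (p : ℂ) ^ (-s)) s :=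
    (differentiableAt_id.neg).const_cpow (Or.inl hpc)
  have hz : DifferentiableAt ℂ (fun s : ℂ => zz s p) s := by
    unfold zz
    exact ((differentiableAt_const 1).add differentiableAt_id).neg.const_cpow (Or.inl hpc)
  have hz1 : ‖zz s p‖ < 1 := by
    have h1 := zz_le s hs.le p
    have h2 := half_le p
    linarith
  have hl1 : DifferentiableAt ℂ (fun s : ℂ => Complex.log (1 - zz s p)) s := by
    refine ((differentiableAt_const 1).sub hz).clog ?_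
    have := Complex.mem_slitPlane_of_norm_lt_one (z := -zz s p) (by rwa [norm_neg])
    rwa [← sub_eq_add_neg] at this
  have hl2 : DifferentiableAt ℂ (fun s : ℂ => Complex.log (1 - zz s p ^ 2)) s := by
    refine ((differentiableAt_const 1).sub (hz.pow 2)).clog ?_
    have := Complex.mem_slitPlane_of_norm_lt_one (z := -(zz s p ^ 2)) (by
      rw [norm_neg, norm_pow]
      nlinarith [norm_nonneg (zz s p)])
    rwa [← sub_eq_add_neg] at this
  have hlf : ∀ F : ℕ → ℂ, F 1 = 1 → (∀ p k : ℕ, p.Prime → 1 ≤ k → ‖F (p ^ k)‖ ≤ (C / p) ^ k) →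
      (∀ n : ℕ, 0 < n → ‖F n‖ ≤ C₁ * (n : ℝ) ^ (-β)) →
      DifferentiableAt ℂ (fun s : ℂ => lf F P s p) s := by
    intro F F1 hF hFd
    unfold lf
    by_cases hp : P ≤ (p : ℕ)
    · simp only [if_pos hp]
      have h1 := (LF_log_est F F1 C hC1 p p.2 (fun k hk => hF p k p.2 hk) (hP p p.2 hp) s hs.le).2
      refine (LF_differentiableAt F C₁ β hFd p p.2 s (by linarith)).clog ?_
      have := Complex.mem_slitPlane_of_norm_lt_one h1
      rwa [add_sub_cancel] at this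
    · simp only [if_neg hp]
      exact differentiableAt_const 0
  have hlff := hlf f f1 hC hdec
  have hlfg := hlf g (by rw [hg, f1, map_one]) (fun p k hp hk => by
    rw [hg, RCLike.norm_conj]; exact hC p k hp hk) (fun n hn => by
    rw [hg, RCLike.norm_conj]; exact hdec n hn)
  unfold HE GG
  exact (((hl1.neg.const_mul 2).add (hl2.neg.const_mul (K : ℂ))).add (hlff.add hlfg)).sub
    ((hX.const_mul _).add ((hX.pow 2).const_mul _))

/-- conjugate of the local factor -/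
lemma LF_conj (f g : ℕ → ℂ) (hg : ∀ n, g n = conj (f n)) (p : ℕ) (s : ℂ) :
    LF g p s = conj (LF f p (conj s)) := by
  unfold LF
  rw [Complex.conj_tsum]
  refine tsum_congr fun e => ?_
  rw [LSeries.term_def, LSeries.term_def]
  by_cases h0 : p ^ e = 0
  · simp [h0]
  · rw [if_neg h0, if_neg h0, map_div₀, hg]
    congr 1
    have h1 := Complex.conj_cpow ((p ^ e : ℕ) : ℂ) s (by
      rw [Complex.natCast_arg]; exact Real.pi_pos.ne)
    rw [Complex.conj_natCast] at h1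
    exact h1



lemma lf_summable (f : ℕ → ℂ) (f1 : f 1 = 1) (C : ℝ) (hC1 : 0 ≤ C)
    (hC : ∀ p k : ℕ, p.Prime → 1 ≤ k → ‖f (p ^ k)‖ ≤ (C / p) ^ k) (P : ℕ)
    (hP : ∀ p : ℕ, p.Prime → P ≤ p → C * (p : ℝ) ^ (-(1/2) : ℝ) ≤ 1/4)
    (s : ℂ) (hs : 1 < s.re) : Summable (lf f P s) := by
  have hsum : Summable fun p : Nat.Primes =>
      (C + 2 * C ^ 2 + 6 * C ^ 3) * (p : ℝ) ^ (-(3/2) : ℝ) :=
    (Nat.Primes.summable_rpow.mpr (by norm_num)).mul_left _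
  refine Summable.of_norm_bounded hsum fun p => ?_
  have hp0 : (0 : ℝ) < p := by exact_mod_cast p.2.pos
  have hp1 : (1 : ℝ) ≤ p := by exact_mod_cast p.2.one_lt.le
  unfold lf
  by_cases hp : P ≤ (p : ℕ)
  · rw [if_pos hp]
    have h1 := (LF_log_est f f1 C hC1 p p.2 (fun k hk => hC p k p.2 hk) (hP p p.2 hp) s
      (by linarith)).1
    have hX : ‖(p : ℂ) ^ (-s)‖ ≤ (p : ℝ) ^ (-(1 : ℝ)) := by
      rw [Complex.norm_natCast_cpow_of_pos p.2.pos, Complex.neg_re]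
      exact Real.rpow_le_rpow_of_exponent_le hp1 (by linarith)
    have hX1 : (p : ℝ) ^ (-(1 : ℝ)) ≤ 1 := Real.rpow_le_one_of_one_le_of_nonpos hp1 (by norm_num)
    have hr3 : ((p : ℝ) ^ (-(1/2) : ℝ)) ^ 3 = (p : ℝ) ^ (-(3/2) : ℝ) := by
      rw [← Real.rpow_natCast, ← Real.rpow_mul hp0.le]
      congr 1
      norm_num
    have hr2 : ((p : ℝ)⁻¹) ^ 2 ≤ (p : ℝ) ^ (-(3/2) : ℝ) := by
      rw [← Real.rpow_neg_one, ← Real.rpow_natCast, ← Real.rpow_mul hp0.le]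
      exact Real.rpow_le_rpow_of_exponent_le hp1 (by norm_num)
    have h2 := hC p 1 p.2 le_rfl
    rw [pow_one, pow_one] at h2
    have h3 := hC p 2 p.2 (by norm_num)
    have h4 : ‖f p * (p : ℂ) ^ (-s)‖ ≤ C * (p : ℝ) ^ (-(3/2) : ℝ) := by
      rw [norm_mul]
      calc ‖f p‖ * ‖(p : ℂ) ^ (-s)‖ ≤ (C / p) * (p : ℝ) ^ (-(1 : ℝ)) := by gcongr
        _ = C * ((p : ℝ)⁻¹) ^ 2 := by rw [Real.rpow_neg_one]; ring
        _ ≤ _ := by gcongr
    have h5 : ‖(f ((p : ℕ) ^ 2) - f p ^ 2 / 2) * ((p : ℂ) ^ (-s)) ^ 2‖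
        ≤ 2 * C ^ 2 * (p : ℝ) ^ (-(3/2) : ℝ) := by
      rw [norm_mul, norm_pow]
      have h6 : ‖f ((p : ℕ) ^ 2) - f p ^ 2 / 2‖ ≤ 2 * C ^ 2 * ((p : ℝ)⁻¹) ^ 2 := by
        refine (norm_sub_le _ _).trans ?_
        rw [norm_div, norm_pow]
        have h9 : ‖(2 : ℂ)‖ = 2 := by simp
        rw [h9]
        have h10 : ‖f p‖ ^ 2 ≤ (C / p) ^ 2 := by gcongr
        have h11 : (C / p) ^ 2 = C ^ 2 * ((p : ℝ)⁻¹) ^ 2 := by ring
        have h12 : 0 ≤ C ^ 2 * ((p : ℝ)⁻¹) ^ 2 := by positivity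
        linarith
      have h7 : ‖(p : ℂ) ^ (-s)‖ ^ 2 ≤ 1 := by
        have := hX.trans hX1
        exact pow_le_one₀ (norm_nonneg _) this
      calc ‖f ((p : ℕ) ^ 2) - f p ^ 2 / 2‖ * ‖(p : ℂ) ^ (-s)‖ ^ 2
          ≤ (2 * C ^ 2 * ((p : ℝ)⁻¹) ^ 2) * 1 := by gcongr
        _ ≤ _ := by rw [mul_one]; gcongr
    set a := f p * (p : ℂ) ^ (-s) with ha
    set b := (f ((p : ℕ) ^ 2) - f p ^ 2 / 2) * ((p : ℂ) ^ (-s)) ^ 2 with hb
    have e : Complex.log (LF f p s) = (Complex.log (LF f p s) - (a + b)) + a + b := by ring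
    have h8 : 6 * (C * (p : ℝ) ^ (-(1/2) : ℝ)) ^ 3 = 6 * C ^ 3 * (p : ℝ) ^ (-(3/2) : ℝ) := by
      rw [mul_pow, hr3]; ring
    rw [h8] at h1
    rw [e]
    refine norm_add₃_le.trans ?_
    linarith
  · rw [if_neg hp, norm_zero]
    positivity

/-- the product of small local factors -/
noncomputable def QQ (f g : ℕ → ℂ) (P : ℕ) (s : ℂ) : ℂ :=
  (∏ p ∈ Ps P, LF f p s) * ∏ p ∈ Ps P, LF g p s

/-- s zeta(s+1) -/
noncomputable def Zs (s : ℂ) : ℂ := DirichletCharacter.LFunctionTrivChar₁ 1 (s + 1)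

lemma Z1_eq (s : ℂ) (hs : s ≠ 1) :
    DirichletCharacter.LFunctionTrivChar₁ 1 s = (s - 1) * riemannZeta s := by
  rw [DirichletCharacter.LFunctionTrivChar₁, Function.update_of_ne hs,
    DirichletCharacter.LFunctionTrivChar_eq_mul_riemannZeta hs]
  simp

lemma Zs_eq (s : ℂ) (hs : s ≠ 0) : Zs s = s * riemannZeta (s + 1) := by
  unfold Zs
  rw [Z1_eq _ (by simpa using hs)]
  ring

lemma Zs_diff : Differentiable ℂ Zs :=
  (DirichletCharacter.differentiable_LFunctionTrivChar₁ 1).comp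
    (differentiable_id.add (differentiable_const 1))

/-- the analytic core of the continuation -/
noncomputable def NN (f g : ℕ → ℂ) (K P : ℕ) (s : ℂ) : ℂ :=
  Phi f s * Phi g s * DirichletCharacter.LFunctionTrivChar₁ 1 (2 * s + 2) ^ K / QQ f g P s

/-- the continuation -/
noncomputable def RR (f g : ℕ → ℂ) (K P : ℕ) (s : ℂ) : ℂ :=
  Zs s ^ 2 * NN f g K P s / (2 * s + 1) ^ K * Complex.exp (-∑' p, HE f g K P p s)

end Pool.H232R3
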