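import Mathlib
import Pool.Agent.H232R3.MOMellin

set_option autoImplicit false

open Finset Filter Topology MeasureTheory Set

namespace Pool.H232R3

lemma SSfloor_bound_log (f : ℕ → ℂ) (C A : ℝ) (hC : 0 ≤ C) (hA : 0 ≤ A) (hA1 : A ≤ 1)
    (h : ∀ N : ℕ, 0 < N → ‖SS f N‖ ≤ C * (N : ℝ) ^ (-(1/2) : ℝ) * (1 + Real.log N) ^ (-A))
    (t : ℝ) (ht1 : 1 ≤ t) :
    ‖SS f ⌊t⌋₊‖ ≤ 8 * C * t ^ (-(1/2) : ℝ) * (1 + Real.log t) ^ (-A) := by
  have ht0 : 0 < t := by linarith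
  have hf1 : 1 ≤ ⌊t⌋₊ := Nat.le_floor (by simpa using ht1)
  have hf1' : (1 : ℝ) ≤ ⌊t⌋₊ := by exact_mod_cast hf1
  have h1 := h _ hf1
  have hfl : t < ⌊t⌋₊ + 1 := Nat.lt_floor_add_one t
  have h4 : t / 2 ≤ (⌊t⌋₊ : ℝ) := by linarith
  have hlt : 0 ≤ Real.log t := Real.log_nonneg ht1
  have hlf : 0 ≤ Real.log (⌊t⌋₊ : ℝ) := Real.log_nonneg hf1'
  have h5 : (⌊t⌋₊ : ℝ) ^ (-(1/2) : ℝ) ≤ 2 * t ^ (-(1/2) : ℝ) := by
    have e1 : (⌊t⌋₊ : ℝ) ^ (-(1/2) : ℝ) ≤ (t / 2) ^ (-(1/2) : ℝ) :=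
      Real.rpow_le_rpow_of_nonpos (by positivity) h4 (by norm_num)
    have e2 : (t / 2) ^ (-(1/2) : ℝ) = t ^ (-(1/2) : ℝ) * 2 ^ (1/2 : ℝ) := by
      rw [Real.div_rpow ht0.le (by norm_num), Real.rpow_neg (by norm_num : (0:ℝ) ≤ 2),
        div_inv_eq_mul]
    have e3 : (2 : ℝ) ^ (1/2 : ℝ) ≤ 2 := by
      calc (2 : ℝ) ^ (1/2 : ℝ) ≤ 2 ^ (1 : ℝ) :=
            Real.rpow_le_rpow_of_exponent_le (by norm_num) (by norm_num)
        _ = 2 := Real.rpow_one 2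
    rw [e2] at e1
    have e4 : 0 ≤ t ^ (-(1/2) : ℝ) := by positivity
    nlinarith
  have hlog : (1 + Real.log t) / 4 ≤ 1 + Real.log (⌊t⌋₊ : ℝ) := by
    have e1 : Real.log (t / 2) ≤ Real.log (⌊t⌋₊ : ℝ) := Real.log_le_log (by positivity) h4
    rw [Real.log_div ht0.ne' (by norm_num)] at e1
    have e2 : Real.log 2 < 0.6931471808 := Real.log_two_lt_d9
    linarith
  have h6 : (1 + Real.log (⌊t⌋₊ : ℝ)) ^ (-A) ≤ 4 * (1 + Real.log t) ^ (-A) := by
    have e1 : (1 + Real.log (⌊t⌋₊ : ℝ)) ^ (-A) ≤ ((1 + Real.log t) / 4) ^ (-A) :=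
      Real.rpow_le_rpow_of_nonpos (by positivity) hlog (by linarith)
    have e2 : ((1 + Real.log t) / 4) ^ (-A) = (1 + Real.log t) ^ (-A) * 4 ^ A := by
      rw [Real.div_rpow (by positivity) (by norm_num), Real.rpow_neg (by norm_num : (0:ℝ) ≤ 4),
        div_inv_eq_mul]
    have e3 : (4 : ℝ) ^ A ≤ 4 := by
      calc (4 : ℝ) ^ A ≤ 4 ^ (1 : ℝ) :=
            Real.rpow_le_rpow_of_exponent_le (by norm_num) hA1
        _ = 4 := Real.rpow_one 4
    rw [e2] at e1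
    have e4 : 0 ≤ (1 + Real.log t) ^ (-A) := by positivity
    nlinarith
  calc ‖SS f ⌊t⌋₊‖ ≤ C * (⌊t⌋₊ : ℝ) ^ (-(1/2) : ℝ) * (1 + Real.log (⌊t⌋₊ : ℝ)) ^ (-A) := h1
    _ ≤ C * (2 * t ^ (-(1/2) : ℝ)) * (4 * (1 + Real.log t) ^ (-A)) := by gcongr
    _ = _ := by ring

/-- the logarithmic hypothesis gives the limit used in the Mellin lemmas -/
lemma log_tendsto (f : ℕ → ℂ) (C A : ℝ) (hC : 0 ≤ C) (hA : 0 < A)
    (h : ∀ N : ℕ, 0 < N → ‖SS f N‖ ≤ C * (N : ℝ) ^ (-(1/2) : ℝ) * (1 + Real.log N) ^ (-A)) :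
    Tendsto (fun N : ℕ => Real.sqrt N * ‖SS f N‖) atTop (𝓝 0) := by
  have h0 : Tendsto (fun N : ℕ => 1 + Real.log (N : ℝ)) atTop atTop :=
    tendsto_atTop_add_const_left _ _ (Real.tendsto_log_atTop.comp tendsto_natCast_atTop_atTop)
  have h1 : Tendsto (fun N : ℕ => C * (1 + Real.log (N : ℝ)) ^ (-A)) atTop (𝓝 (C * 0)) :=
    ((tendsto_rpow_neg_atTop hA).comp h0).const_mul C
  rw [mul_zero] at h1
  refine squeeze_zero' (Eventually.of_forall fun N => by positivity) ?_ h1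
  filter_upwards [eventually_gt_atTop 0] with N hN
  have hN0 : (0 : ℝ) < N := by exact_mod_cast hN
  have hN1 : (1 : ℝ) ≤ N := by exact_mod_cast hN
  have hs : Real.sqrt N * (N : ℝ) ^ (-(1/2) : ℝ) = 1 := by
    rw [Real.sqrt_eq_rpow, ← Real.rpow_add hN0]
    norm_num
  calc Real.sqrt N * ‖SS f N‖
      ≤ Real.sqrt N * (C * (N : ℝ) ^ (-(1/2) : ℝ) * (1 + Real.log N) ^ (-A)) := by
        gcongr; exact h N hN
    _ = (Real.sqrt N * (N : ℝ) ^ (-(1/2) : ℝ)) * (C * (1 + Real.log N) ^ (-A)) := by ring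
    _ = _ := by rw [hs, one_mul]

/-- growth of the Mellin transform near the line -/
lemma Phi_growth (f : ℕ → ℂ) (C κ : ℝ) (hC : 0 ≤ C) (hκ : 0 < κ) (hκ1 : κ < 1)
    (h : ∀ N : ℕ, 0 < N → ‖SS f N‖ ≤ C * (N : ℝ) ^ (-(1/2) : ℝ)
      * (1 + Real.log N) ^ (-(1 - κ))) :
    ∃ B : ℝ, 0 ≤ B ∧ ∀ δ : ℝ, 0 < δ → δ ≤ 1 → ∀ t : ℝ,
      ‖Phi f (((-(1/2) + δ : ℝ) : ℂ) + t * Complex.I)‖ ≤ B * δ ^ (-κ) := by
  refine ⟨8 * C * (2 ^ κ / κ + 1), by positivity, fun δ hδ hδ1 t => ?_⟩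
  set s : ℂ := ((-(1/2) + δ : ℝ) : ℂ) + t * Complex.I with hs
  have hsre : s.re = -(1/2) + δ := by rw [hs]; simp
  set T : ℝ := Real.exp (1 / δ) with hT
  have hT1 : 1 ≤ T := Real.one_le_exp (by positivity)
  have hT0 : 0 < T := by linarith
  have hlogT : Real.log T = 1 / δ := Real.log_exp _
  rw [Phi_eq_integral]
  -- majorants
  set g1 : ℝ → ℝ := fun u => u⁻¹ * (1 + Real.log u) ^ (-(1 - κ)) with hg1
  have hderiv : ∀ u ∈ Set.uIcc 1 T, HasDerivAt (fun u => (1 + Real.log u) ^ κ / κ) (g1 u) u := by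
    intro u hu
    rw [Set.uIcc_of_le hT1] at hu
    have hu0 : 0 < u := by linarith [hu.1]
    have hl : 0 ≤ Real.log u := Real.log_nonneg hu.1
    have hne : 1 + Real.log u ≠ 0 := by positivity
    have h1 : HasDerivAt (fun u => 1 + Real.log u) u⁻¹ u := (Real.hasDerivAt_log hu0.ne').const_add 1
    have h2 := (h1.rpow_const (p := κ) (Or.inl hne)).div_const κ
    convert! h2 using 1
    rw [hg1]
    simp only
    rw [show -(1 - κ) = κ - 1 by ring]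
    field_simp
  have hcont : ContinuousOn g1 (Set.uIcc 1 T) := by
    rw [Set.uIcc_of_le hT1, hg1]
    intro u hu
    have hu0 : 0 < u := by linarith [hu.1]
    have hl : 0 ≤ Real.log u := Real.log_nonneg hu.1
    have hne : 1 + Real.log u ≠ 0 := by positivity
    refine ContinuousAt.continuousWithinAt ?_
    refine (continuousAt_inv₀ hu0.ne').mul ?_
    exact ((continuousAt_const.add (Real.continuousAt_log hu0.ne')).rpow_const
      (Or.inl hne))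
  have hint1 : IntervalIntegrable g1 volume 1 T := hcont.intervalIntegrable
  have hI1 : ∫ u in Set.Ioc 1 T, g1 u = ((1 + 1 / δ) ^ κ - 1) / κ := by
    rw [← intervalIntegral.integral_of_le hT1,
      intervalIntegral.integral_eq_sub_of_hasDerivAt hderiv hint1, hlogT]
    simp
    ring
  have hint1' : IntegrableOn (fun u => (Set.Ioc 1 T).indicator g1 u) (Ioi 1) := by
    refine Integrable.integrableOn ?_
    rw [integrable_indicator_iff measurableSet_Ioc]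
    exact (intervalIntegrable_iff_integrableOn_Ioc_of_le hT1).mp hint1
  have hrp : IntegrableOn (fun u : ℝ => δ ^ (1 - κ) * u ^ (-1 - δ : ℝ)) (Ioi T) :=
    (integrableOn_Ioi_rpow_of_lt (by linarith) hT0).const_mul _
  have hint2' : IntegrableOn (fun u => (Ioi T).indicator
      (fun u : ℝ => δ ^ (1 - κ) * u ^ (-1 - δ : ℝ)) u) (Ioi 1) := by
    refine Integrable.integrableOn ?_
    rw [integrable_indicator_iff measurableSet_Ioi]
    exact hrp
  have hle : ‖∫ u in Ioi (1 : ℝ), SS f ⌊u⌋₊ * (u : ℂ) ^ (-(s + 1))‖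
      ≤ ∫ u in Ioi (1 : ℝ), 8 * C * ((Set.Ioc 1 T).indicator g1 u
        + (Ioi T).indicator (fun u : ℝ => δ ^ (1 - κ) * u ^ (-1 - δ : ℝ)) u) := by
    refine norm_integral_le_of_norm_le ((hint1'.add hint2').const_mul _) ?_
    rw [ae_restrict_iff' measurableSet_Ioi]
    refine Eventually.of_forall fun u hu => ?_
    have hu1 : (1 : ℝ) < u := hu
    have hu0 : 0 < u := by linarith
    have hlu : 0 ≤ Real.log u := Real.log_nonneg hu1.le
    rw [norm_mul, Complex.norm_cpow_eq_rpow_re_of_pos hu0]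
    have hre : (-(s + 1)).re = -(1/2) - δ := by
      rw [Complex.neg_re, Complex.add_re, hsre, Complex.one_re]; ring
    rw [hre]
    have h1 := SSfloor_bound_log f C (1 - κ) hC (by linarith) (by linarith) h u hu1.le
    have h2 : u ^ (-(1/2) : ℝ) * u ^ (-(1/2) - δ : ℝ) = u ^ (-1 - δ : ℝ) := by
      rw [← Real.rpow_add hu0]; congr 1; ring
    have h3 : ‖SS f ⌊u⌋₊‖ * u ^ (-(1/2) - δ : ℝ)
        ≤ 8 * C * (u ^ (-1 - δ : ℝ) * (1 + Real.log u) ^ (-(1 - κ))) := by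
      calc ‖SS f ⌊u⌋₊‖ * u ^ (-(1/2) - δ : ℝ)
          ≤ (8 * C * u ^ (-(1/2) : ℝ) * (1 + Real.log u) ^ (-(1 - κ)))
            * u ^ (-(1/2) - δ : ℝ) := by gcongr
        _ = 8 * C * ((u ^ (-(1/2) : ℝ) * u ^ (-(1/2) - δ : ℝ))
            * (1 + Real.log u) ^ (-(1 - κ))) := by ring
        _ = _ := by rw [h2]
    refine h3.trans ?_
    refine mul_le_mul_of_nonneg_left ?_ (by positivity)
    by_cases huT : u ≤ T
    · rw [Set.indicator_of_mem (show u ∈ Set.Ioc 1 T from ⟨hu1, huT⟩),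
        Set.indicator_of_notMem (show u ∉ Ioi T from not_lt.mpr huT), add_zero, hg1]
      simp only
      have h4 : u ^ (-1 - δ : ℝ) ≤ u⁻¹ := by
        rw [← Real.rpow_neg_one]
        exact Real.rpow_le_rpow_of_exponent_le hu1.le (by linarith)
      gcongr
    · rw [Set.indicator_of_notMem (show u ∉ Set.Ioc 1 T from fun hh => huT hh.2),
        Set.indicator_of_mem (show u ∈ Ioi T from not_le.mp huT), zero_add, mul_comm]
      have h4 : 1 / δ ≤ 1 + Real.log u := by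
        have := Real.log_le_log hT0 (not_le.mp huT).le
        rw [hlogT] at this
        linarith
      have h5 : (1 + Real.log u) ^ (-(1 - κ)) ≤ δ ^ (1 - κ) := by
        have e1 : (1 + Real.log u) ^ (-(1 - κ)) ≤ (1 / δ) ^ (-(1 - κ)) :=
          Real.rpow_le_rpow_of_nonpos (by positivity) h4 (by linarith)
        refine e1.trans_eq ?_
        rw [one_div, Real.inv_rpow hδ.le, Real.rpow_neg hδ.le, inv_inv]
      gcongr
  refine hle.trans ?_
  rw [integral_const_mul, integral_add hint1' hint2']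
  have e1 : ∫ u in Ioi (1 : ℝ), (Set.Ioc 1 T).indicator g1 u = ((1 + 1 / δ) ^ κ - 1) / κ := by
    rw [setIntegral_indicator measurableSet_Ioc]
    have : Ioi (1 : ℝ) ∩ Set.Ioc 1 T = Set.Ioc 1 T := by
      ext u; simp
    rw [this, hI1]
  have e2 : ∫ u in Ioi (1 : ℝ), (Ioi T).indicator
      (fun u : ℝ => δ ^ (1 - κ) * u ^ (-1 - δ : ℝ)) u ≤ δ ^ (-κ) := by
    rw [setIntegral_indicator measurableSet_Ioi]
    have : Ioi (1 : ℝ) ∩ Ioi T = Ioi T := by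
      ext u
      simp only [mem_inter_iff, Set.mem_Ioi, and_iff_right_iff_imp]
      intro hu
      linarith
    rw [this, integral_const_mul, integral_Ioi_rpow_of_lt (by linarith) hT0]
    have h6 : -1 - δ + 1 = -δ := by ring
    rw [h6, neg_div_neg_eq]
    have h7 : T ^ (-δ) ≤ 1 := Real.rpow_le_one_of_one_le_of_nonpos hT1 (by linarith)
    calc δ ^ (1 - κ) * (T ^ (-δ) / δ) ≤ δ ^ (1 - κ) * (1 / δ) := by gcongr
      _ = δ ^ (-κ) := by
        rw [one_div, ← Real.rpow_neg_one, ← Real.rpow_add hδ]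
        congr 1
        ring
  rw [e1]
  have e3 : ((1 + 1 / δ) ^ κ - 1) / κ ≤ 2 ^ κ / κ * δ ^ (-κ) := by
    have h8 : 1 + 1 / δ ≤ 2 * (1 / δ) := by
      have : 1 ≤ 1 / δ := by rw [le_div_iff₀ hδ]; linarith
      linarith
    have h9 : (1 + 1 / δ) ^ κ ≤ 2 ^ κ * δ ^ (-κ) := by
      calc (1 + 1 / δ) ^ κ ≤ (2 * (1 / δ)) ^ κ := by gcongr
        _ = 2 ^ κ * δ ^ (-κ) := by
          rw [Real.mul_rpow (by norm_num) (by positivity), one_div, Real.inv_rpow hδ.le,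
            Real.rpow_neg hδ.le]
    rw [div_mul_eq_mul_div]
    gcongr
    linarith
  have h10 : 0 ≤ 8 * C := by positivity
  calc 8 * C * (((1 + 1 / δ) ^ κ - 1) / κ + ∫ u in Ioi (1 : ℝ), (Ioi T).indicator
      (fun u : ℝ => δ ^ (1 - κ) * u ^ (-1 - δ : ℝ)) u)
      ≤ 8 * C * (2 ^ κ / κ * δ ^ (-κ) + δ ^ (-κ)) := by gcongr
    _ = _ := by ring

end Pool.H232R3
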