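import Mathlib
import Pool.Agent.H232R3.MOFinal
import Pool.Agent.H232R3.MOPhi

set_option autoImplicit false

open Finset Filter Topology
open scoped ComplexConjugate ComplexOrder

namespace Pool.H232R3

lemma LF_bound2 (f : ℕ → ℂ) (p : ℕ) (hp : p.Prime) (s : ℂ) (hs : -(1/2) ≤ s.re) (e : ℕ) :
    ‖LSeries.term f s (p ^ e)‖ ≤ ‖f (p ^ e)‖ * Real.sqrt ((p : ℝ) ^ e) := by
  have hpe : 0 < p ^ e := pow_pos hp.pos e
  have hpe1 : (1 : ℝ) ≤ ((p ^ e : ℕ) : ℝ) := by exact_mod_cast hpe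
  have hpe' : (0 : ℝ) < ((p ^ e : ℕ) : ℝ) := by linarith
  rw [LSeries.norm_term_eq, if_neg hpe.ne', div_eq_mul_inv, ← Real.rpow_neg hpe'.le]
  have h1 : ((p ^ e : ℕ) : ℝ) ^ (-s.re) ≤ Real.sqrt ((p : ℝ) ^ e) := by
    rw [Real.sqrt_eq_rpow, ← Nat.cast_pow]
    exact Real.rpow_le_rpow_of_exponent_le hpe1 (by linarith)
  gcongr

lemma LF_differentiableAt2 (f : ℕ → ℂ) (p : ℕ) (hp : p.Prime)
    (hL : Summable fun e : ℕ => ‖f (p ^ e)‖ * Real.sqrt ((p : ℝ) ^ e))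
    (s : ℂ) (hs : -(1/2) < s.re) : DifferentiableAt ℂ (LF f p) s := by
  have ho : IsOpen {z : ℂ | -(1/2 : ℝ) < z.re} :=
    Complex.continuous_re.isOpen_preimage _ isOpen_Ioi
  have := Complex.differentiableOn_tsum_of_summable_norm hL
    (F := fun e z => LSeries.term f z (p ^ e)) (U := {z : ℂ | -(1/2 : ℝ) < z.re})
    (fun e z _ => ((LSeries.hasDerivAt_term f (p ^ e) z).differentiableAt).differentiableWithinAt)
    ho (fun e z hz => LF_bound2 f p hp z (le_of_lt hz) e)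
  exact (this s hs).differentiableAt (ho.mem_nhds hs)

lemma LF_continuousOn2 (f : ℕ → ℂ) (p : ℕ) (hp : p.Prime)
    (hL : Summable fun e : ℕ => ‖f (p ^ e)‖ * Real.sqrt ((p : ℝ) ^ e)) :
    ContinuousOn (LF f p) {z : ℂ | -(1/2 : ℝ) ≤ z.re} := by
  refine continuousOn_tsum (u := fun e : ℕ => ‖f (p ^ e)‖ * Real.sqrt ((p : ℝ) ^ e))
    (fun e z _ => ?_) hL (fun e z hz => LF_bound2 f p hp z hz e)
  exact ((LSeries.hasDerivAt_term f (p ^ e) z).differentiableAt).continuousAt.continuousWithinAt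

noncomputable def dd2' (f : ℕ → ℂ) (K P : ℕ) (n : ℕ) : ℂ :=
  if IsSquare n ∧ (n.sqrt).Prime then ((max (e2 f K P n.sqrt) 0 : ℝ) : ℂ) else 0

lemma dd2'_hasSum (f : ℕ → ℂ) (K P : ℕ) (s a : ℂ)
    (h : HasSum (fun p : Nat.Primes => ((max (e2 f K P p) 0 : ℝ) : ℂ) * ((p : ℂ) ^ (-s)) ^ 2) a) :
    LSeriesHasSum (dd2' f K P) s a := by
  have hinj : Function.Injective (fun p : Nat.Primes => (p : ℕ) ^ 2) := by
    intro p q hpq
    exact Subtype.ext (Nat.pow_left_injective (by norm_num : 2 ≠ 0) hpq)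
  unfold LSeriesHasSum
  rw [← hinj.hasSum_iff (f := LSeries.term (dd2' f K P) s)]
  · convert! h using 1
    ext p
    simp only [Function.comp]
    rw [term_p2 _ _ p.2]
    unfold dd2'
    have h1 : Nat.sqrt ((p : ℕ) ^ 2) = p := by rw [pow_two, Nat.sqrt_eq]
    rw [h1, if_pos ⟨⟨p, pow_two _⟩, p.2⟩]
  · intro n hn
    rw [LSeries.term_def]
    unfold dd2'
    have hnp : ¬ (IsSquare n ∧ (n.sqrt).Prime) := by
      rintro ⟨⟨m, hm⟩, hp⟩
      apply hn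
      refine ⟨⟨n.sqrt, hp⟩, ?_⟩
      show n.sqrt ^ 2 = n
      rw [hm, Nat.sqrt_eq, pow_two]
    rw [if_neg hnp]
    simp

/-- the error exponent, second version -/
noncomputable def HE2 (f g : ℕ → ℂ) (K P : ℕ) (p : Nat.Primes) (s : ℂ) : ℂ :=
  GG f g K P s p - (((max (c1 f P p) 0 : ℝ) : ℂ) * (p : ℂ) ^ (-s)
    + ((max (e2 f K P p) 0 : ℝ) : ℂ) * ((p : ℂ) ^ (-s)) ^ 2)

/-- the majorant, second version -/
noncomputable def uE2 (f : ℕ → ℂ) (C : ℝ) (K : ℕ) (p : Nat.Primes) : ℝ :=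
  uE f C K p + (p : ℝ) * max (((f p) ^ 2).re - 2 * (f ((p : ℕ) ^ 2)).re
    - (1 + K) / (p : ℝ) ^ 2) 0

lemma HE2_bound (f g : ℕ → ℂ) (f1 : f 1 = 1) (hg : ∀ n, g n = conj (f n)) (C : ℝ) (hC1 : 0 ≤ C)
    (hC : ∀ p k : ℕ, p.Prime → 1 ≤ k → ‖f (p ^ k)‖ ≤ (C / p) ^ k) (K P : ℕ)
    (hP : ∀ p : ℕ, p.Prime → P ≤ p → C * (p : ℝ) ^ (-(1/2) : ℝ) ≤ 1/4)
    (s : ℂ) (hs : -(1/2) ≤ s.re) (p : Nat.Primes) :
    ‖HE2 f g K P p s‖ ≤ uE2 f C K p := by
  have hp0 : (0 : ℝ) < p := by exact_mod_cast p.2.pos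
  have h1 := HE_bound f g f1 hg C hC1 hC K P hP s hs p
  have e : HE2 f g K P p s = HE f g K P p s
      - ((max (e2 f K P p) 0 - e2 f K P p : ℝ) : ℂ) * ((p : ℂ) ^ (-s)) ^ 2 := by
    unfold HE HE2
    rw [Complex.ofReal_sub]
    ring
  rw [e]
  refine (norm_sub_le _ _).trans ?_
  unfold uE2
  refine add_le_add h1 ?_
  rw [norm_mul, norm_pow, Complex.norm_real, Complex.norm_natCast_cpow_of_pos p.2.pos,
    Complex.neg_re, Real.norm_eq_abs]
  have h2 : ((p : ℝ) ^ (-s.re)) ^ 2 ≤ (p : ℝ) := by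
    have h3 : (p : ℝ) ^ (-s.re) ≤ Real.sqrt p := by
      rw [Real.sqrt_eq_rpow]
      exact Real.rpow_le_rpow_of_exponent_le (by exact_mod_cast p.2.one_lt.le) (by linarith)
    calc ((p : ℝ) ^ (-s.re)) ^ 2 ≤ (Real.sqrt p) ^ 2 := by gcongr
      _ = (p : ℝ) := Real.sq_sqrt hp0.le
  have h3 : |max (e2 f K P p) 0 - e2 f K P p|
      ≤ max (((f p) ^ 2).re - 2 * (f ((p : ℕ) ^ 2)).re - (1 + K) / (p : ℝ) ^ 2) 0 := by
    rw [abs_of_nonneg (sub_nonneg.mpr (le_max_left _ _))]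
    have h4 : 0 ≤ max (((f p) ^ 2).re - 2 * (f ((p : ℕ) ^ 2)).re - (1 + K) / (p : ℝ) ^ 2) 0 :=
      le_max_right _ _
    have h5 : ((f p) ^ 2).re - 2 * (f ((p : ℕ) ^ 2)).re - (1 + K) / (p : ℝ) ^ 2
      ≤ max (((f p) ^ 2).re - 2 * (f ((p : ℕ) ^ 2)).re - (1 + K) / (p : ℝ) ^ 2) 0 :=
      le_max_left _ _
    have h7 : 0 < (1 + K) / (p : ℝ) ^ 2 := by positivity
    rcases le_total (e2 f K P p) 0 with h | h
    · rw [max_eq_right h]
      unfold e2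
      split_ifs
      · linarith
      · linarith
    · rw [max_eq_left h]; linarith
  calc |max (e2 f K P p) 0 - e2 f K P p| * ((p : ℝ) ^ (-s.re)) ^ 2
      ≤ (max (((f p) ^ 2).re - 2 * (f ((p : ℕ) ^ 2)).re - (1 + K) / (p : ℝ) ^ 2) 0) * p := by
        gcongr
    _ = _ := by ring

lemma HE2_differentiableAt (f g : ℕ → ℂ) (f1 : f 1 = 1) (hg : ∀ n, g n = conj (f n)) (C : ℝ)
    (hC1 : 0 ≤ C)
    (hC : ∀ p k : ℕ, p.Prime → 1 ≤ k → ‖f (p ^ k)‖ ≤ (C / p) ^ k) (K P : ℕ)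
    (hP : ∀ p : ℕ, p.Prime → P ≤ p → C * (p : ℝ) ^ (-(1/2) : ℝ) ≤ 1/4)
    (hL : ∀ p : ℕ, p.Prime → Summable fun e : ℕ => ‖f (p ^ e)‖ * Real.sqrt ((p : ℝ) ^ e))
    (s : ℂ) (hs : -(1/2) < s.re) (p : Nat.Primes) :
    DifferentiableAt ℂ (HE2 f g K P p) s := by
  have hpc : (p : ℂ) ≠ 0 := by exact_mod_cast p.2.ne_zero
  have hX : DifferentiableAt ℂ (fun s : ℂ => (p : ℂ) ^ (-s)) s :=
    (differentiableAt_id.neg).const_cpow (Or.inl hpc)
  have hz : DifferentiableAt ℂ (fun s : ℂ => zz s p) s := by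
    unfold zz
    exact ((differentiableAt_const 1).add differentiableAt_id).neg.const_cpow (Or.inl hpc)
  have hz1 : ‖zz s p‖ < 1 := by
    have h1 := zz_le s hs.le p
    have h2 := half_le p
    linarith
  have hl1 : DifferentiableAt ℂ (fun s : ℂ => Complex.log (1 - zz s p)) s := by
    refine ((differentiableAt_const 1).sub hz).clog ?_
    have := Complex.mem_slitPlane_of_norm_lt_one (z := -zz s p) (by rwa [norm_neg])
    rwa [← sub_eq_add_neg] at this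
  have hl2 : DifferentiableAt ℂ (fun s : ℂ => Complex.log (1 - zz s p ^ 2)) s := by
    refine ((differentiableAt_const 1).sub (hz.pow 2)).clog ?_
    have := Complex.mem_slitPlane_of_norm_lt_one (z := -(zz s p ^ 2)) (by
      rw [norm_neg, norm_pow]
      nlinarith [norm_nonneg (zz s p)])
    rwa [← sub_eq_add_neg] at this
  have hlf : ∀ F : ℕ → ℂ, F 1 = 1 → (∀ p k : ℕ, p.Prime → 1 ≤ k → ‖F (p ^ k)‖ ≤ (C / p) ^ k) →
      (∀ p : ℕ, p.Prime → Summable fun e : ℕ => ‖F (p ^ e)‖ * Real.sqrt ((p : ℝ) ^ e)) →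
      DifferentiableAt ℂ (fun s : ℂ => lf F P s p) s := by
    intro F F1 hF hFd
    unfold lf
    by_cases hp : P ≤ (p : ℕ)
    · simp only [if_pos hp]
      have h1 := (LF_log_est F F1 C hC1 p p.2 (fun k hk => hF p k p.2 hk) (hP p p.2 hp) s hs.le).2
      refine (LF_differentiableAt2 F p p.2 (hFd p p.2) s hs).clog ?_
      have := Complex.mem_slitPlane_of_norm_lt_one h1
      rwa [add_sub_cancel] at this
    · simp only [if_neg hp]
      exact differentiableAt_const 0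
  have hlff := hlf f f1 hC hL
  have hlfg := hlf g (by rw [hg, f1, map_one]) (fun p k hp hk => by
    rw [hg, RCLike.norm_conj]; exact hC p k hp hk) (fun q hq => by
    refine (hL q hq).congr fun e => ?_
    rw [hg, RCLike.norm_conj])
  unfold HE2 GG
  exact (((hl1.neg.const_mul 2).add (hl2.neg.const_mul (K : ℂ))).add (hlff.add hlfg)).sub
    ((hX.const_mul _).add ((hX.pow 2).const_mul _))

/-- the continuation, second version -/
noncomputable def RR2 (f g : ℕ → ℂ) (K P : ℕ) (s : ℂ) : ℂ :=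
  Zs s ^ 2 * (Phi f s * Phi g s) * (DirichletCharacter.LFunctionTrivChar₁ 1 (2 * s + 2) ^ K /
    QQ f g P s) / (2 * s + 1) ^ K * Complex.exp (-∑' p, HE2 f g K P p s)

end Pool.H232R3
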