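import Mathlib
import Pool.Agent.H232R3.MOFinal

set_option autoImplicit false

open Finset Filter Topology
open scoped ComplexConjugate ComplexOrder

namespace Pool.H232R3

lemma ev_bdd (g : ℂ → ℂ) (t : ℝ)
    (hg : ContinuousAt g (((-(1/2) : ℝ) : ℂ) + t * Complex.I)) :
    ∃ B : ℝ, 0 ≤ B ∧ ∀ᶠ δ in 𝓝[>] (0 : ℝ), ‖g (((-(1/2) + δ : ℝ) : ℂ) + t * Complex.I)‖ ≤ B := by
  have hc : ContinuousAt (fun δ : ℝ => ((-(1/2) + δ : ℝ) : ℂ) + t * Complex.I) 0 := by
    have : Continuous (fun δ : ℝ => ((-(1/2) + δ : ℝ) : ℂ) + t * Complex.I) := by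
      fun_prop
    exact this.continuousAt
  have hc2 : ContinuousAt (fun δ : ℝ => g (((-(1/2) + δ : ℝ) : ℂ) + t * Complex.I)) 0 := by
    refine ContinuousAt.comp (g := g) ?_ hc
    simpa using hg
  refine ⟨‖g (((-(1/2) + 0 : ℝ) : ℂ) + t * Complex.I)‖ + 1, by positivity, ?_⟩
  have h3 := (hc2.norm.tendsto).eventually (eventually_lt_nhds
    (show ‖g (((-(1/2) + 0 : ℝ) : ℂ) + t * Complex.I)‖
      < ‖g (((-(1/2) + 0 : ℝ) : ℂ) + t * Complex.I)‖ + 1 by linarith))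
  exact (h3.filter_mono nhdsWithin_le_nhds).mono fun δ hδ => hδ.le

lemma ev_zero (g : ℂ → ℂ) (t : ℝ)
    (hg : DifferentiableAt ℂ g (((-(1/2) : ℝ) : ℂ) + t * Complex.I))
    (h0 : g (((-(1/2) : ℝ) : ℂ) + t * Complex.I) = 0) :
    ∃ B : ℝ, 0 ≤ B ∧
      ∀ᶠ δ in 𝓝[>] (0 : ℝ), ‖g (((-(1/2) + δ : ℝ) : ℂ) + t * Complex.I)‖ ≤ B * δ := by
  have hO := hg.hasDerivAt.isBigO_sub
  obtain ⟨B, hB⟩ := hO.bound
  have hc : Tendsto (fun δ : ℝ => ((-(1/2) + δ : ℝ) : ℂ) + t * Complex.I) (𝓝[>] 0)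
      (𝓝 (((-(1/2) : ℝ) : ℂ) + t * Complex.I)) := by
    have : Continuous (fun δ : ℝ => ((-(1/2) + δ : ℝ) : ℂ) + t * Complex.I) := by
      fun_prop
    have h2 := this.tendsto 0
    simp only [add_zero] at h2
    exact h2.mono_left nhdsWithin_le_nhds
  refine ⟨max B 0, le_max_right _ _, ?_⟩
  filter_upwards [hc.eventually hB, self_mem_nhdsWithin] with δ h2 hδ
  have hδ0 : (0 : ℝ) < δ := hδ
  rw [h0, sub_zero] at h2
  refine h2.trans ?_
  have e : ((-(1/2) + δ : ℝ) : ℂ) + t * Complex.I - (((-(1/2) : ℝ) : ℂ) + t * Complex.I)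
      = (δ : ℂ) := by push_cast; ring
  rw [e, Complex.norm_real, Real.norm_eq_abs, abs_of_pos hδ0]
  gcongr
  exact le_max_left _ _

theorem mo_core (f : ℕ → ℂ) (f1 : f 1 = 1)
    (hmul : ∀ m n : ℕ, Nat.Coprime m n → f (m * n) = f m * f n)
    (C : ℝ) (hC1 : 0 ≤ C) (hC : ∀ p k : ℕ, p.Prime → 1 ≤ k → ‖f (p ^ k)‖ ≤ (C / p) ^ k)
    (ha : Summable fun p : Nat.Primes => Real.sqrt p * max (-(1 / (p : ℝ)) - (f p).re) 0)
    (hc : ∀ p : ℕ, p.Prime → ∀ s : ℂ, -(1/2) ≤ s.re → LF f p s ≠ 0)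
    (C₀ β : ℝ) (hC0 : 0 ≤ C₀) (hβ : 1/2 < β) (hβ1 : β ≤ 1)
    (hS : ∀ N : ℕ, 0 < N → ‖SS f N‖ ≤ C₀ * (N : ℝ) ^ (-β)) : False := by
  set g : ℕ → ℂ := fun n => conj (f n) with hgd
  have hg : ∀ n, g n = conj (f n) := fun n => rfl
  have g1 : g 1 = 1 := by rw [hg, f1, map_one]
  have hgmul : ∀ m n : ℕ, Nat.Coprime m n → g (m * n) = g m * g n := by
    intro m n h
    rw [hg, hg, hg, hmul m n h, map_mul]
  have hgC : ∀ p k : ℕ, p.Prime → 1 ≤ k → ‖g (p ^ k)‖ ≤ (C / p) ^ k := by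
    intro p k hp hk
    rw [hg, RCLike.norm_conj]
    exact hC p k hp hk
  have hSg : ∀ N : ℕ, 0 < N → ‖SS g N‖ ≤ C₀ * (N : ℝ) ^ (-β) := by
    intro N hN
    have : SS g N = conj (SS f N) := by
      unfold SS
      rw [map_sum]
    rw [this, RCLike.norm_conj]
    exact hS N hN
  have hβ0 : 0 < β := by linarith
  have hdf := coef_decay f C₀ β hC0 hβ0 hβ1 hS
  have hdg := coef_decay g C₀ β hC0 hβ0 hβ1 hSg
  have htf := decay_tendsto f C₀ β hC0 hβ hS
  have htg := decay_tendsto g C₀ β hC0 hβ hSg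
  obtain ⟨P, hP⟩ : ∃ P : ℕ, ∀ p : ℕ, p.Prime → P ≤ p → C * (p : ℝ) ^ (-(1/2) : ℝ) ≤ 1/4 := by
    refine ⟨⌈16 * C ^ 2⌉₊, fun p hp hPp => ?_⟩
    have h1 : 16 * C ^ 2 ≤ p := (Nat.le_ceil _).trans (by exact_mod_cast hPp)
    have hp0 : (0 : ℝ) < p := by exact_mod_cast hp.pos
    have h2 : 4 * C ≤ Real.sqrt p := by
      rw [Real.le_sqrt (by positivity) hp0.le]
      nlinarith
    rw [Real.rpow_neg hp0.le, ← Real.sqrt_eq_rpow, ← div_eq_mul_inv,
      div_le_iff₀ (Real.sqrt_pos.mpr hp0)]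
    linarith
  obtain ⟨K, hK1, hK⟩ : ∃ K : ℕ, 1 ≤ K ∧ 3 * C ^ 2 ≤ (K : ℝ) := by
    refine ⟨⌈3 * C ^ 2⌉₊ + 1, by omega, ?_⟩
    push_cast
    have := Nat.le_ceil (3 * C ^ 2)
    linarith
  -- estimates for e2
  have hen : ∀ p : ℕ, p.Prime → |(if P ≤ p then 2 * (f (p ^ 2)).re - ((f p) ^ 2).re else 0)|
      ≤ 3 * C ^ 2 / (p : ℝ) ^ 2 := by
    intro p hp
    split_ifs
    · have h1 := hC p 1 hp le_rfl
      rw [pow_one, pow_one] at h1
      have h2 := hC p 2 hp (by norm_num)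
      have h3 := (Complex.abs_re_le_norm (f (p ^ 2))).trans h2
      have h4 : |((f p) ^ 2).re| ≤ (C / p) ^ 2 := by
        refine (Complex.abs_re_le_norm _).trans ?_
        rw [norm_pow]
        gcongr
      have h5 : 3 * C ^ 2 / (p : ℝ) ^ 2 = 3 * (C / p) ^ 2 := by
        rw [div_pow]; ring
      rw [h5]
      rw [abs_le] at h3 h4 ⊢
      constructor <;> linarith [h3.1, h3.2, h4.1, h4.2]
    · rw [abs_zero]
      positivity
  have he2 : ∀ p : ℕ, p.Prime → 0 ≤ e2 f K P p := by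
    intro p hp
    unfold e2
    have h1 := (abs_le.mp (hen p hp)).1
    have h2 : 3 * C ^ 2 / (p : ℝ) ^ 2 ≤ (1 + K) / (p : ℝ) ^ 2 := by
      gcongr
      linarith
    linarith
  have he2' : ∀ p : ℕ, p.Prime → e2 f K P p ≤ (1 + K + 3 * C ^ 2) / (p : ℝ) ^ 2 := by
    intro p hp
    unfold e2
    have h1 := (abs_le.mp (hen p hp)).2
    have h2 : (1 + K + 3 * C ^ 2) / (p : ℝ) ^ 2
        = (1 + K) / (p : ℝ) ^ 2 + 3 * C ^ 2 / (p : ℝ) ^ 2 := by ring
    linarith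
  have hu : Summable (uE f C K) := by
    unfold uE
    exact ((Nat.Primes.summable_rpow.mpr (by norm_num)).mul_left _).add (ha.mul_left 2)
  set d : ℕ → ℂ := dd1 f P + dd2 f K P with hdd
  have hd : 0 ≤ d := by
    intro n
    show 0 ≤ dd1 f P n + dd2 f K P n
    refine add_nonneg ?_ ?_
    · unfold dd1
      split_ifs
      · rw [Complex.zero_le_real]; exact le_max_right _ _
      · exact le_rfl
    · unfold dd2
      split_ifs with h
      · rw [Complex.zero_le_real]; exact he2 _ h.2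
      · exact le_rfl
  -- small factors
  have hcg : ∀ p : ℕ, p.Prime → ∀ s : ℂ, -(1/2) ≤ s.re → LF g p s ≠ 0 := by
    intro p hp s hs
    rw [LF_conj f g hg]
    intro h
    rw [map_eq_zero] at h
    exact hc p hp (conj s) (by simpa using hs) h
  have hQd : ∀ s : ℂ, -(1/2) ≤ s.re → DifferentiableAt ℂ (QQ f g P) s := by
    intro s hs
    unfold QQ
    refine DifferentiableAt.mul ?_ ?_
    · exact DifferentiableAt.fun_finsetProd fun p _ =>
        LF_differentiableAt f _ β hdf p p.2 s (by linarith)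
    · exact DifferentiableAt.fun_finsetProd fun p _ =>
        LF_differentiableAt g _ β hdg p p.2 s (by linarith)
  have hQ0 : ∀ s : ℂ, -(1/2) ≤ s.re → QQ f g P s ≠ 0 := by
    intro s hs
    unfold QQ
    refine mul_ne_zero ?_ ?_
    · exact Finset.prod_ne_zero_iff.mpr fun p _ => hc p p.2 s hs
    · exact Finset.prod_ne_zero_iff.mpr fun p _ => hcg p p.2 s hs
  have hNd : ∀ s : ℂ, -(1/2) ≤ s.re → DifferentiableAt ℂ (NN f g K P) s := by
    intro s hs
    unfold NN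
    have d1 := Phi_differentiableAt' f C₀ β hC0 hβ0 hS s (by linarith)
    have d2 := Phi_differentiableAt' g C₀ β hC0 hβ0 hSg s (by linarith)
    have d3 : DifferentiableAt ℂ
        (fun s : ℂ => DirichletCharacter.LFunctionTrivChar₁ 1 (2 * s + 2)) s :=
      ((DirichletCharacter.differentiable_LFunctionTrivChar₁ 1).comp
        ((differentiable_id.const_mul (2 : ℂ)).add (differentiable_const 2))) s
    exact ((d1.mul d2).mul (d3.pow K)).div (hQd s hs) (hQ0 s hs)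
  have hHb : ∀ s : ℂ, -(1/2) ≤ s.re → ‖∑' p, HE f g K P p s‖ ≤ ∑' p, uE f C K p := by
    intro s hs
    exact tsum_of_norm_bounded hu.hasSum (HE_bound f g f1 hg C hC1 hC K P hP s hs)
  have hHd : DifferentiableOn ℂ (fun s => ∑' p, HE f g K P p s) {s | -(1/2) < s.re} := by
    have ho : IsOpen {s : ℂ | -(1/2 : ℝ) < s.re} :=
      Complex.continuous_re.isOpen_preimage _ isOpen_Ioi
    exact Complex.differentiableOn_tsum_of_summable_norm hu
      (fun p s hs => (HE_differentiableAt f g f1 hg C hC1 hC K P hP _ β hβ hdf s hs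
        p).differentiableWithinAt) ho
      (fun p s hs => HE_bound f g f1 hg C hC1 hC K P hP s (le_of_lt hs) p)
  have h2s : ∀ s : ℂ, -(1/2) < s.re → 2 * s + 1 ≠ 0 := by
    intro s hs h
    have := congrArg Complex.re h
    simp at this
    linarith
  have hR1 : DifferentiableOn ℂ (RR f g K P) {s | -(1/2) < s.re} := by
    intro s hs
    have hs' : -(1/2) < s.re := hs
    have ho : IsOpen {s : ℂ | -(1/2 : ℝ) < s.re} :=
      Complex.continuous_re.isOpen_preimage _ isOpen_Ioi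
    have d1 : DifferentiableAt ℂ (fun s => ∑' p, HE f g K P p s) s :=
      (hHd s hs).differentiableAt (ho.mem_nhds hs)
    have d2 : DifferentiableAt ℂ (fun s : ℂ => (2 * s + 1) ^ K) s :=
      (((differentiableAt_id.const_mul (2 : ℂ)).add (differentiableAt_const 1)).pow K)
    unfold RR
    exact ((((((Zs_diff s).pow 2).mul (hNd s hs'.le)).div d2 (pow_ne_zero K (h2s s hs'))).mul
      d1.neg.cexp)).differentiableWithinAt
  -- the Euler product
  have hR2 : ∀ s : ℂ, 1 < s.re → LSeriesSummable d s ∧ RR f g K P s = Complex.exp (LSeries d s) := by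
    intro s hs
    have s1 := log1_summable s (by linarith)
    have s2 := log2_summable s (by linarith)
    have sf := lf_summable f f1 C hC1 hC P hP s hs
    have sg := lf_summable g g1 C hC1 hgC P hP s hs
    have hG : HasSum (GG f g K P s) (2 * (∑' p : Nat.Primes, -Complex.log (1 - zz s p))
        + K * (∑' p : Nat.Primes, -Complex.log (1 - zz s p ^ 2))
        + ((∑' p, lf f P s p) + (∑' p, lf g P s p))) :=
      ((s1.hasSum.mul_left 2).add (s2.hasSum.mul_left (K : ℂ))).add (sf.hasSum.add sg.hasSum)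
    have hHs : Summable fun p => HE f g K P p s :=
      Summable.of_norm_bounded hu fun p => HE_bound f g f1 hg C hC1 hC K P hP s (by linarith) p
    have hdif := hG.sub hHs.hasSum
    set TOT : ℂ := (2 * (∑' p : Nat.Primes, -Complex.log (1 - zz s p))
        + K * (∑' p : Nat.Primes, -Complex.log (1 - zz s p ^ 2))
        + ((∑' p, lf f P s p) + (∑' p, lf g P s p))) - ∑' p, HE f g K P p s with hTOT
    have hes : Summable fun p : Nat.Primes => ((e2 f K P p : ℝ) : ℂ) * ((p : ℂ) ^ (-s)) ^ 2 := by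
      have hsum : Summable fun p : Nat.Primes => (1 + K + 3 * C ^ 2) * (p : ℝ) ^ (-2 : ℝ) :=
        (Nat.Primes.summable_rpow.mpr (by norm_num)).mul_left _
      refine Summable.of_norm_bounded hsum fun p => ?_
      rw [norm_mul, norm_pow, Complex.norm_real, Real.norm_eq_abs, abs_of_nonneg (he2 p p.2)]
      have h1 := he2' p p.2
      have hp1 : (1 : ℝ) ≤ p := by exact_mod_cast p.2.one_lt.le
      have h2 : ‖(p : ℂ) ^ (-s)‖ ≤ 1 := by
        rw [Complex.norm_natCast_cpow_of_pos p.2.pos, Complex.neg_re]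
        exact Real.rpow_le_one_of_one_le_of_nonpos hp1 (by linarith)
      have h3 : (1 + K + 3 * C ^ 2) / (p : ℝ) ^ 2 = (1 + K + 3 * C ^ 2) * (p : ℝ) ^ (-2 : ℝ) := by
        rw [Real.rpow_neg (Nat.cast_nonneg _), div_eq_mul_inv]
        norm_cast
      calc e2 f K P p * ‖(p : ℂ) ^ (-s)‖ ^ 2 ≤ ((1 + K + 3 * C ^ 2) / (p : ℝ) ^ 2) * 1 := by
            gcongr
            exact pow_le_one₀ (norm_nonneg _) h2
        _ = _ := by rw [mul_one, h3]
    have hcs : HasSum (fun p : Nat.Primes => ((max (c1 f P p) 0 : ℝ) : ℂ) * (p : ℂ) ^ (-s))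
        (TOT - ∑' p : Nat.Primes, ((e2 f K P p : ℝ) : ℂ) * ((p : ℂ) ^ (-s)) ^ 2) := by
      have h1 := hdif.sub hes.hasSum
      convert! h1 using 1
      ext p
      unfold HE
      ring
    have hL : LSeriesHasSum d s TOT := by
      have h1 := (dd1_hasSum f P s _ hcs).add (dd2_hasSum f K P s _ hes.hasSum)
      rw [sub_add_cancel] at h1
      exact h1
    refine ⟨hL.LSeriesSummable, ?_⟩
    have hLsum : ∀ F : ℕ → ℂ, (∀ n : ℕ, 0 < n → ‖F n‖ ≤ 3 * C₀ * (n : ℝ) ^ (-β)) →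
        LSeriesSummable F s := by
      intro F hF
      refine LSeriesSummable_of_bounded_of_one_lt_re (m := 3 * C₀) ?_ hs
      intro n hn
      have hn0 : 0 < n := Nat.pos_of_ne_zero hn
      refine (hF n hn0).trans ?_
      have h1 : (n : ℝ) ^ (-β) ≤ 1 :=
        Real.rpow_le_one_of_one_le_of_nonpos (by exact_mod_cast hn0) (by linarith)
      nlinarith
    have hne : ∀ F : ℕ → ℂ, (∀ p : ℕ, p.Prime → ∀ s : ℂ, -(1/2) ≤ s.re → LF F p s ≠ 0) →
        ∀ p : Nat.Primes, P ≤ (p : ℕ) → LF F p s ≠ 0 := fun F hF p _ => hF p p.2 s (by linarith)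
    have ef := euler_split f f1 hmul s (hLsum f hdf) P (hne f hc) sf
    have eg := euler_split g g1 hgmul s (hLsum g hdg) P (hne g hcg) sg
    rw [Phi_LSeries f htf s (by linarith) (hLsum f hdf)] at ef
    rw [Phi_LSeries g htg s (by linarith) (hLsum g hdg)] at eg
    have hs0 : s ≠ 0 := by rintro rfl; simp at hs; linarith
    rw [hL.LSeries_eq, hTOT, sub_eq_add_neg, Complex.exp_add, Complex.exp_add, Complex.exp_add,
      two_mul, Complex.exp_add, Complex.exp_add, Complex.exp_nat_mul, zeta_prod1 s (by linarith),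
      zeta_prod2 s (by linarith)]
    unfold RR NN
    rw [Zs_eq s hs0, Z1_eq (2 * s + 2) (by
      intro h
      apply h2s s (by linarith)
      linear_combination h)]
    have hQf : (∏ p ∈ Ps P, LF f p s) ≠ 0 :=
      Finset.prod_ne_zero_iff.mpr fun p _ => hc p p.2 s (by linarith)
    have hQg : (∏ p ∈ Ps P, LF g p s) ≠ 0 :=
      Finset.prod_ne_zero_iff.mpr fun p _ => hcg p p.2 s (by linarith)
    have h21 := h2s s (by linarith)
    have h22 : (2 * s + 2 - 1) = 2 * s + 1 := by ring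
    rw [h22, mul_pow, mul_pow]
    unfold QQ
    have ef' : Complex.exp (∑' p, lf f P s p) = s * Phi f s / ∏ p ∈ Ps P, LF f p s := by
      rw [ef]; field_simp
    have eg' : Complex.exp (∑' p, lf g P s p) = s * Phi g s / ∏ p ∈ Ps P, LF g p s := by
      rw [eg]; field_simp
    rw [ef', eg']
    have hA := pow_ne_zero K h21
    generalize (2 * s + 1) ^ K = A at hA ⊢
    field_simp
  -- bounds at the line
  have hexp : ∀ s : ℂ, -(1/2) ≤ s.re →
      ‖Complex.exp (-∑' p, HE f g K P p s)‖ ≤ Real.exp (∑' p, uE f C K p) := by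
    intro s hs
    rw [Complex.norm_exp, Real.exp_le_exp]
    refine (Complex.re_le_norm _).trans ?_
    rw [norm_neg]
    exact hHb s hs
  have hs0re : ∀ t : ℝ, (((-(1/2) : ℝ) : ℂ) + t * Complex.I).re = -(1/2) := by
    intro t; simp
  have hNb : ∀ t : ℝ, ∃ B : ℝ, 0 ≤ B ∧ ∀ᶠ δ in 𝓝[>] (0 : ℝ),
      ‖NN f g K P (((-(1/2) + δ : ℝ) : ℂ) + t * Complex.I)‖ ≤ B := fun t =>
    ev_bdd _ t (hNd _ (by rw [hs0re])).continuousAt
  have hZb : ∀ t : ℝ, ∃ B : ℝ, 0 ≤ B ∧ ∀ᶠ δ in 𝓝[>] (0 : ℝ),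
      ‖Zs (((-(1/2) + δ : ℝ) : ℂ) + t * Complex.I)‖ ≤ B := fun t =>
    ev_bdd _ t (Zs_diff _).continuousAt
  set E : ℝ := Real.exp (∑' p, uE f C K p) with hE
  have hE0 : 0 ≤ E := (Real.exp_pos _).le
  have hpole : ∀ t : ℝ, t ≠ 0 → ∀ δ : ℝ, 0 < δ →
      ‖(2 * (((-(1/2) + δ : ℝ) : ℂ) + t * Complex.I) + 1) ^ K‖⁻¹ ≤ (|2 * t| ^ K)⁻¹ := by
    intro t ht δ hδ
    have h1 : |2 * t| ≤ ‖2 * (((-(1/2) + δ : ℝ) : ℂ) + t * Complex.I) + 1‖ := by
      refine le_trans (le_of_eq ?_) (Complex.abs_im_le_norm _)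
      simp
    have h2 : 0 < |2 * t| := by positivity
    rw [norm_pow]
    gcongr
  refine line_contra d hd (RR f g K P) K hK1 hR1 hR2 ?_ ?_ ?_ ?_
  · -- the pole
    obtain ⟨B1, hB1, h1⟩ := hNb 0
    obtain ⟨B2, hB2, h2⟩ := hZb 0
    refine ⟨B2 ^ 2 * B1 * E, ?_⟩
    filter_upwards [h1, h2, self_mem_nhdsWithin] with δ h1 h2 hδ
    have hδ0 : (0 : ℝ) < δ := hδ
    set s : ℂ := ((-(1/2) + δ : ℝ) : ℂ) + ((0 : ℝ) : ℂ) * Complex.I with hs
    have hsre : -(1/2) ≤ s.re := by rw [hs]; simp; linarith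
    have h3 := hexp s hsre
    have h4 : ‖(2 * s + 1) ^ K‖⁻¹ ≤ δ ^ (-(K : ℤ)) := by
      have e : 2 * s + 1 = ((2 * δ : ℝ) : ℂ) := by rw [hs]; push_cast; ring
      rw [e, norm_pow, Complex.norm_real, Real.norm_eq_abs, abs_of_pos (by positivity),
        zpow_neg, zpow_natCast]
      gcongr
      linarith
    unfold RR
    rw [norm_mul, norm_div, norm_mul, norm_pow, div_eq_mul_inv]
    calc ‖Zs s‖ ^ 2 * ‖NN f g K P s‖ * ‖(2 * s + 1) ^ K‖⁻¹ *
          ‖Complex.exp (-∑' p, HE f g K P p s)‖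
        ≤ B2 ^ 2 * B1 * δ ^ (-(K : ℤ)) * E := by gcongr
      _ = _ := by ring
  · intro t ht
    obtain ⟨B1, hB1, h1⟩ := hNb t
    obtain ⟨B2, hB2, h2⟩ := hZb t
    refine ⟨B2 ^ 2 * B1 * (|2 * t| ^ K)⁻¹ * E, ?_⟩
    filter_upwards [h1, h2, self_mem_nhdsWithin] with δ h1 h2 hδ
    have hδ0 : (0 : ℝ) < δ := hδ
    have h4 := hpole t ht δ hδ0
    set s : ℂ := ((-(1/2) + δ : ℝ) : ℂ) + (t : ℂ) * Complex.I with hs
    have hsre : -(1/2) ≤ s.re := by rw [hs]; simp; linarith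
    have h3 := hexp s hsre
    unfold RR
    rw [norm_mul, norm_div, norm_mul, norm_pow, div_eq_mul_inv, zpow_zero, mul_one]
    calc ‖Zs s‖ ^ 2 * ‖NN f g K P s‖ * ‖(2 * s + 1) ^ K‖⁻¹ *
          ‖Complex.exp (-∑' p, HE f g K P p s)‖
        ≤ B2 ^ 2 * B1 * (|2 * t| ^ K)⁻¹ * E := by gcongr
      _ = _ := by ring
  · intro ρ hρ h1 h2
    have hne : ρ - 1 ≠ 0 := by
      intro h
      have := congrArg Complex.re h
      simp at this
      linarith
    have : Zs (ρ - 1) = 0 := by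
      rw [Zs_eq _ hne, sub_add_cancel, hρ, mul_zero]
    unfold RR
    rw [this]
    simp
  · intro t ht hz
    have hz0 : Zs (((-(1/2) : ℝ) : ℂ) + t * Complex.I) = 0 := by
      rw [Zs_eq]
      · have e : ((-(1/2) : ℝ) : ℂ) + t * Complex.I + 1 = 1/2 + t * Complex.I := by
          push_cast; ring
        rw [e, hz, mul_zero]
      · intro h
        have := congrArg Complex.re h
        simp at this
    obtain ⟨B1, hB1, h1⟩ := hNb t
    obtain ⟨B2, hB2, h2⟩ := ev_zero Zs t (Zs_diff _) hz0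
    refine ⟨B2 ^ 2 * B1 * (|2 * t| ^ K)⁻¹ * E, ?_⟩
    filter_upwards [h1, h2, self_mem_nhdsWithin] with δ h1 h2 hδ
    have hδ0 : (0 : ℝ) < δ := hδ
    have h4 := hpole t ht δ hδ0
    set s : ℂ := ((-(1/2) + δ : ℝ) : ℂ) + (t : ℂ) * Complex.I with hs
    have hsre : -(1/2) ≤ s.re := by rw [hs]; simp; linarith
    have h3 := hexp s hsre
    unfold RR
    rw [norm_mul, norm_div, norm_mul, norm_pow, div_eq_mul_inv]
    calc ‖Zs s‖ ^ 2 * ‖NN f g K P s‖ * ‖(2 * s + 1) ^ K‖⁻¹ *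
          ‖Complex.exp (-∑' p, HE f g K P p s)‖
        ≤ (B2 * δ) ^ 2 * B1 * (|2 * t| ^ K)⁻¹ * E := by gcongr
      _ = B2 ^ 2 * B1 * (|2 * t| ^ K)⁻¹ * E * δ ^ (2 : ℤ) := by
          rw [show (2 : ℤ) = ((2 : ℕ) : ℤ) by rfl, zpow_natCast]
          ring

end Pool.H232R3
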