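import Mathlib
import Pool.Agent.H232R3.MOMain2

set_option autoImplicit false

open Finset Filter Topology

namespace Pool.H232R3

lemma LF_eq (f : ℕ → ℂ) (p : ℕ) (hp : p.Prime) (s : ℂ) :
    LF f p s = ∑' k : ℕ, f (p ^ k) * (p : ℂ) ^ (-((k : ℂ) * s)) := by
  unfold LF
  refine tsum_congr fun k => ?_
  rw [LSeries.term_def, if_neg (pow_ne_zero k hp.ne_zero), Complex.cpow_neg,
    Complex.natCast_cpow_natCast_mul, div_eq_mul_inv, Nat.cast_pow]

/-- choice of the exponent -/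
lemma exists_kappa (K : ℕ) (A : ℝ) (hA : ((K : ℝ) + 2) / (K + 4) < A) :
    ∃ κ : ℝ, 0 < κ ∧ κ * (K + 4) < 2 ∧ 1 - κ ≤ A := by
  have hK : (0 : ℝ) ≤ K := Nat.cast_nonneg K
  have h4 : (0 : ℝ) < K + 4 := by linarith
  rw [div_lt_iff₀ h4] at hA
  by_cases h1 : 1 ≤ A
  · refine ⟨1 / (K + 4), by positivity, ?_, ?_⟩
    · rw [one_div, inv_mul_cancel₀ h4.ne']; norm_num
    · have : 0 < 1 / ((K : ℝ) + 4) := by positivity
      linarith
  · push Not at h1
    refine ⟨((1 - A) + 2 / (K + 4)) / 2, ?_, ?_, ?_⟩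
    · have : 0 < 2 / ((K : ℝ) + 4) := by positivity
      linarith
    · have e : (2 / ((K : ℝ) + 4)) * (K + 4) = 2 := by field_simp
      nlinarith
    · have e : (1 - A) < 2 / ((K : ℝ) + 4) := by
        rw [lt_div_iff₀ h4]
        nlinarith
      linarith

theorem mo_main (f : ℕ → ℂ) (f1 : f 1 = 1)
    (hmul : ∀ m n : ℕ, 0 < m → 0 < n → Nat.Coprime m n → f (m * n) = f m * f n)
    (C : ℝ) (K : ℕ)
    (hC : ∀ p k : ℕ, p.Prime → 1 ≤ k → ‖f (p ^ k)‖ ≤ (C / p) ^ k)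
    (ha : Summable fun p : Nat.Primes => Real.sqrt p * max (-(1 / (p : ℝ)) - (f p).re) 0)
    (hb : Summable fun p : Nat.Primes =>
      (p : ℝ) * max ((f p ^ 2 - 2 * f ((p : ℕ) ^ 2)).re - (K + 1) / (p : ℝ) ^ 2) 0)
    (hL : ∀ p : ℕ, p.Prime → Summable fun k : ℕ => ‖f (p ^ k)‖ * Real.sqrt ((p : ℝ) ^ k))
    (hc : ∀ p : ℕ, p.Prime → ∀ s : ℂ, -(1/2) ≤ s.re →
      ∑' k : ℕ, f (p ^ k) * (p : ℂ) ^ (-((k : ℂ) * s)) ≠ 0)
    (A : ℝ) (hA : ((K : ℝ) + 2) / (K + 4) < A) (B : ℝ) (M : ℕ) :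
    ∃ N : ℕ, M ≤ N ∧ 1 < N ∧
      B * ((N : ℝ) ^ (-(1/2) : ℝ) * Real.log N ^ (-A)) ≤ ‖∑ n ∈ Finset.Icc 1 N, f n‖ := by
  by_contra hcon
  push Not at hcon
  obtain ⟨κ, hκ, hκ2, hκA⟩ := exists_kappa K A hA
  have hK : (0 : ℝ) ≤ K := Nat.cast_nonneg K
  have hκ1 : κ < 1 := by nlinarith
  have hC1 : 0 ≤ C := by
    have h := (norm_nonneg _).trans (hC 2 1 Nat.prime_two le_rfl)
    rw [pow_one] at h
    push_cast at h
    linarith
  have hmul' : ∀ m n : ℕ, Nat.Coprime m n → f (m * n) = f m * f n := by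
    intro m n h
    rcases Nat.eq_zero_or_pos m with hm | hm
    · rw [hm] at h ⊢
      have hn : n = 1 := by simpa using h
      rw [hn, f1]; simp
    rcases Nat.eq_zero_or_pos n with hn | hn
    · rw [hn] at h ⊢
      have hm1 : m = 1 := by simpa using h
      rw [hm1, f1]; simp
    exact hmul m n hm hn h
  set M' : ℕ := max M 3 with hM'
  set C₀ : ℝ := 2 * |B| + ∑ n ∈ Finset.range M', ‖SS f n‖ * Real.sqrt n * (1 + Real.log n)
    with hC₀
  have hterm : ∀ n : ℕ, 0 ≤ ‖SS f n‖ * Real.sqrt n * (1 + Real.log n) := by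
    intro n
    have : 0 ≤ Real.log n := Real.log_natCast_nonneg n
    positivity
  have hC0 : 0 ≤ C₀ := by
    have : 0 ≤ ∑ n ∈ Finset.range M', ‖SS f n‖ * Real.sqrt n * (1 + Real.log n) :=
      Finset.sum_nonneg fun n _ => hterm n
    positivity
  refine mo_core2 f f1 hmul' C hC1 hC ha K ?_ hL (fun p hp s hs => by
    rw [LF_eq f p hp]; exact hc p hp s hs) C₀ κ hC0 hκ hκ2 ?_
  · refine hb.congr fun p => ?_
    congr 2
    rw [Complex.sub_re, Complex.mul_re]
    simp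
    ring
  · intro N hN
    have hN1 : (1 : ℝ) ≤ N := by exact_mod_cast hN
    have hN0 : (0 : ℝ) < N := by linarith
    have hl0 : 0 ≤ Real.log N := Real.log_nonneg hN1
    by_cases hNM : N < M'
    · have h1 : ‖SS f N‖ * Real.sqrt N * (1 + Real.log N) ≤ C₀ := by
        have h2 := Finset.single_le_sum (f := fun n : ℕ =>
          ‖SS f n‖ * Real.sqrt n * (1 + Real.log n)) (fun n _ => hterm n)
          (Finset.mem_range.mpr hNM)
        have : 0 ≤ 2 * |B| := by positivity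
        rw [hC₀]
        linarith
      have h3 : ‖SS f N‖ = (‖SS f N‖ * Real.sqrt N * (1 + Real.log N)) *
          ((N : ℝ) ^ (-(1/2) : ℝ) * (1 + Real.log N) ^ (-(1 : ℝ))) := by
        rw [Real.rpow_neg hN0.le, ← Real.sqrt_eq_rpow, Real.rpow_neg_one]
        have h4 : Real.sqrt N ≠ 0 := (Real.sqrt_pos.mpr hN0).ne'
        have h5 : 1 + Real.log N ≠ 0 := by positivity
        field_simp
      rw [h3, mul_assoc C₀]
      have h6 : (1 + Real.log N) ^ (-(1 : ℝ)) ≤ (1 + Real.log N) ^ (-(1 - κ)) :=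
        Real.rpow_le_rpow_of_exponent_le (by linarith) (by linarith)
      gcongr
    · push Not at hNM
      have hN3 : 3 ≤ N := (le_max_right M 3).trans hNM
      have h1 := hcon N ((le_max_left M 3).trans hNM) (by omega)
      have hlog1 : 1 ≤ Real.log N := by
        rw [Real.le_log_iff_exp_le hN0]
        have h3 : (3 : ℝ) ≤ N := by exact_mod_cast hN3
        have := Real.exp_one_lt_d9
        linarith
      have h2 : Real.log N ^ (-A) ≤ 2 * (1 + Real.log N) ^ (-(1 - κ)) := by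
        have e1 : Real.log N ^ (-A) ≤ Real.log N ^ (-(1 - κ)) :=
          Real.rpow_le_rpow_of_exponent_le hlog1 (by linarith)
        have e2 : Real.log N ^ (-(1 - κ)) ≤ ((1 + Real.log N) / 2) ^ (-(1 - κ)) :=
          Real.rpow_le_rpow_of_nonpos (by positivity) (by linarith) (by linarith)
        have e3 : ((1 + Real.log N) / 2) ^ (-(1 - κ))
            = (1 + Real.log N) ^ (-(1 - κ)) * 2 ^ (1 - κ) := by
          rw [Real.div_rpow (by positivity) (by norm_num),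
            Real.rpow_neg (by norm_num : (0:ℝ) ≤ 2), div_inv_eq_mul]
        have e4 : (2 : ℝ) ^ (1 - κ) ≤ 2 := by
          calc (2 : ℝ) ^ (1 - κ) ≤ 2 ^ (1 : ℝ) :=
                Real.rpow_le_rpow_of_exponent_le (by norm_num) (by linarith)
            _ = 2 := Real.rpow_one 2
        have e5 : 0 ≤ (1 + Real.log N) ^ (-(1 - κ)) := by positivity
        rw [e3] at e2
        nlinarith
      have h3 : ‖SS f N‖ < B * ((N : ℝ) ^ (-(1/2) : ℝ) * Real.log N ^ (-A)) := h1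
      have hlA : 0 ≤ Real.log N ^ (-A) := by positivity
      calc ‖SS f N‖ ≤ |B| * ((N : ℝ) ^ (-(1/2) : ℝ) * Real.log N ^ (-A)) :=
            h3.le.trans (by gcongr; exact le_abs_self B)
        _ ≤ |B| * ((N : ℝ) ^ (-(1/2) : ℝ) * (2 * (1 + Real.log N) ^ (-(1 - κ)))) := by gcongr
        _ = (2 * |B|) * (N : ℝ) ^ (-(1/2) : ℝ) * (1 + Real.log N) ^ (-(1 - κ)) := by ring
        _ ≤ C₀ * (N : ℝ) ^ (-(1/2) : ℝ) * (1 + Real.log N) ^ (-(1 - κ)) := by
            have : 2 * |B| ≤ C₀ := by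
              have : 0 ≤ ∑ n ∈ Finset.range M', ‖SS f n‖ * Real.sqrt n * (1 + Real.log n) :=
                Finset.sum_nonneg fun n _ => hterm n
              rw [hC₀]
              linarith
            gcongr

end Pool.H232R3
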