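import Mathlib
import Pool.Agent.H232R3.MOEnd

set_option autoImplicit false

open Finset Filter Topology

namespace Pool.H232R3

/-- local factor of a completely multiplicative function -/
lemma LF_cm (f : ℕ → ℂ) (p : ℕ) (hp : p.Prime) (hpow : ∀ k : ℕ, f (p ^ k) = f p ^ k)
    (hsm : ‖f p‖ * Real.sqrt p < 1) (s : ℂ) (hs : -(1/2) ≤ s.re) :
    LF f p s ≠ 0 ∧ Summable fun k : ℕ => ‖f (p ^ k)‖ * Real.sqrt ((p : ℝ) ^ k) := by
  have hp1 : (1 : ℝ) < p := by exact_mod_cast hp.one_lt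
  have hp0 : (0 : ℝ) < p := by linarith
  constructor
  · rw [LF_eq f p hp]
    set z : ℂ := f p * (p : ℂ) ^ (-s) with hz
    have hzn : ‖z‖ < 1 := by
      rw [hz, norm_mul, Complex.norm_natCast_cpow_of_pos hp.pos, Complex.neg_re]
      refine lt_of_le_of_lt ?_ hsm
      gcongr
      rw [Real.sqrt_eq_rpow]
      exact Real.rpow_le_rpow_of_exponent_le hp1.le (by linarith)
    have e : ∀ k : ℕ, f (p ^ k) * (p : ℂ) ^ (-((k : ℂ) * s)) = z ^ k := by
      intro k
      rw [hpow, hz, mul_pow, ← Complex.cpow_nat_mul]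
      congr 2
      ring
    simp_rw [e]
    rw [tsum_geometric_of_norm_lt_one hzn]
    refine inv_ne_zero ?_
    intro h
    rw [sub_eq_zero] at h
    rw [← h] at hzn
    simp at hzn
  · have e : ∀ k : ℕ, ‖f (p ^ k)‖ * Real.sqrt ((p : ℝ) ^ k) = (‖f p‖ * Real.sqrt p) ^ k := by
      intro k
      rw [hpow, norm_pow, mul_pow]
      congr 1
      rw [Real.sqrt_eq_iff_mul_self_eq (by positivity) (by positivity), ← mul_pow,
        Real.mul_self_sqrt hp0.le]
    simp_rw [e]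
    exact summable_geometric_of_lt_one (by positivity) hsm

theorem cmo_log (f : ℕ → ℂ) (f1 : f 1 = 1)
    (hmul : ∀ m n : ℕ, 0 < m → 0 < n → f (m * n) = f m * f n)
    (C : ℝ) (K : ℕ)
    (hC : ∀ p : ℕ, p.Prime → ‖f p‖ ≤ C / p)
    (ha : Summable fun p : Nat.Primes => Real.sqrt p * max (-(1 / (p : ℝ)) - (f p).re) 0)
    (hb : Summable fun p : Nat.Primes =>
      (p : ℝ) * max (-(f p ^ 2).re - (K + 1) / (p : ℝ) ^ 2) 0)
    (A : ℝ) (hA : ((K : ℝ) + 2) / (K + 4) < A) (B : ℝ) (M : ℕ) :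
    ∃ N : ℕ, M ≤ N ∧ 1 < N ∧
      B * ((N : ℝ) ^ (-(1/2) : ℝ) * Real.log N ^ (-A)) ≤ ‖∑ n ∈ Finset.Icc 1 N, f n‖ := by
  by_contra hcon
  have hpow : ∀ p : ℕ, p.Prime → ∀ k : ℕ, f (p ^ k) = f p ^ k := by
    intro p hp k
    induction k with
    | zero => simp [f1]
    | succ k ih => rw [pow_succ, hmul _ _ (pow_pos hp.pos k) hp.pos, ih, pow_succ]
  -- decay
  have hdec : Tendsto (fun N : ℕ => Real.sqrt N * ‖SS f N‖) atTop (𝓝 0) := by
    push Not at hcon
    have hK : (0 : ℝ) ≤ K := Nat.cast_nonneg K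
    have hA0 : 0 < A := lt_of_le_of_lt (by positivity) hA
    have h0 : Tendsto (fun N : ℕ => Real.log (N : ℝ)) atTop atTop :=
      Real.tendsto_log_atTop.comp tendsto_natCast_atTop_atTop
    have h1 : Tendsto (fun N : ℕ => B * (Real.log (N : ℝ)) ^ (-A)) atTop (𝓝 (B * 0)) :=
      ((tendsto_rpow_neg_atTop hA0).comp h0).const_mul B
    rw [mul_zero] at h1
    refine squeeze_zero' (Eventually.of_forall fun N => by positivity) ?_ h1
    filter_upwards [eventually_ge_atTop (max M 2)] with N hN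
    have hN2 : 1 < N := lt_of_lt_of_le one_lt_two ((le_max_right M 2).trans hN)
    have hN0 : (0 : ℝ) < N := by exact_mod_cast (by omega : 0 < N)
    have h2 := hcon N ((le_max_left M 2).trans hN) hN2
    have h3 : ‖SS f N‖ < B * ((N : ℝ) ^ (-(1/2) : ℝ) * Real.log N ^ (-A)) := h2
    have hs : Real.sqrt N * (N : ℝ) ^ (-(1/2) : ℝ) = 1 := by
      rw [Real.sqrt_eq_rpow, ← Real.rpow_add hN0]
      norm_num
    calc Real.sqrt N * ‖SS f N‖
        ≤ Real.sqrt N * (B * ((N : ℝ) ^ (-(1/2) : ℝ) * Real.log N ^ (-A))) := by gcongr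
      _ = (Real.sqrt N * (N : ℝ) ^ (-(1/2) : ℝ)) * (B * Real.log N ^ (-A)) := by ring
      _ = _ := by rw [hs, one_mul]
  -- smallness at primes
  have hsm : ∀ p : ℕ, p.Prime → ‖f p‖ * Real.sqrt p < 1 := by
    intro p hp
    have h2 := term_decay _ hdec
    have h3 : Tendsto (fun k : ℕ => p ^ k) atTop atTop :=
      tendsto_pow_atTop_atTop_of_one_lt hp.one_lt
    have h4 := h2.comp h3
    have h5 : ∀ k : ℕ, ((fun N : ℕ => Real.sqrt N * ‖f N‖) ∘ fun k => p ^ k) k
        = (‖f p‖ * Real.sqrt p) ^ k := by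
      intro k
      simp only [Function.comp]
      rw [hpow p hp, norm_pow, mul_pow, mul_comm]
      congr 1
      push_cast
      have h0 : (0 : ℝ) ≤ p := Nat.cast_nonneg p
      rw [Real.sqrt_eq_iff_mul_self_eq (by positivity) (by positivity), ← mul_pow,
        Real.mul_self_sqrt h0]
    have h6 : Tendsto (fun k : ℕ => (‖f p‖ * Real.sqrt p) ^ k) atTop (𝓝 0) := h4.congr h5
    by_contra hc
    push Not at hc
    have h7 : ∀ k : ℕ, 1 ≤ (‖f p‖ * Real.sqrt p) ^ k := fun k => one_le_pow₀ hc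
    have h8 := ge_of_tendsto' h6 h7
    linarith
  refine hcon (mo_main f f1 (fun m n hm hn _ => hmul m n hm hn) C K ?_ ha ?_ ?_ ?_ A hA B M)
  · intro p k hp _
    rw [hpow p hp, norm_pow]
    have := hC p hp
    gcongr
  · refine hb.congr fun p => ?_
    have : f p ^ 2 - 2 * f ((p : ℕ) ^ 2) = -(f p ^ 2) := by
      rw [hpow p p.2]; ring
    rw [this, Complex.neg_re]
  · intro p hp
    exact (LF_cm f p hp (hpow p hp) (hsm p hp) 0 (by simp)).2
  · intro p hp s hs
    rw [← LF_eq f p hp]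
    exact (LF_cm f p hp (hpow p hp) (hsm p hp) s hs).1

end Pool.H232R3
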