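import Mathlib
import Pool.Agent.H232R3.CMOCore
import Pool.Agent.H232R3.MOAlt

set_option autoImplicit false

open ArithmeticFunction Finset Filter Topology
open scoped ComplexOrder ComplexConjugate

namespace Pool.H232R3.Rig

/-- coefficients of the logarithm of the Dirichlet series of a completely multiplicative g -/
noncomputable def lg (g : ℕ → ℂ) (n : ℕ) : ℂ := g n * ((vonMangoldt n / Real.log n : ℝ) : ℂ)

lemma ratio_nonneg (n : ℕ) : 0 ≤ vonMangoldt n / Real.log n :=
  div_nonneg vonMangoldt_nonneg (Real.log_natCast_nonneg n)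

lemma ratio_le_one (n : ℕ) : vonMangoldt n / Real.log n ≤ 1 :=
  div_le_one_of_le₀ vonMangoldt_le_log (Real.log_natCast_nonneg n)

lemma lg_norm (g : ℕ → ℂ) (n : ℕ) : ‖lg g n‖ ≤ ‖g n‖ := by
  unfold lg
  rw [norm_mul, Complex.norm_real, Real.norm_eq_abs, abs_of_nonneg (ratio_nonneg n)]
  exact mul_le_of_le_one_right (norm_nonneg _) (ratio_le_one n)

lemma lg_summable (g : ℕ → ℂ) (s : ℂ) (h : LSeriesSummable g s) : LSeriesSummable (lg g) s := by
  unfold LSeriesSummable at *
  refine Summable.of_norm_bounded h.norm fun n => ?_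
  exact LSeries.norm_term_le s (lg_norm g n)

lemma ratio_prime_pow (p k : ℕ) (hp : p.Prime) :
    vonMangoldt (p ^ (k + 1)) / Real.log ((p ^ (k + 1) : ℕ) : ℝ) = 1 / ((k : ℝ) + 1) := by
  have h1 : 0 < Real.log p := Real.log_pos (by exact_mod_cast hp.one_lt)
  rw [vonMangoldt_apply_pow (Nat.succ_ne_zero k), vonMangoldt_apply_prime hp, Nat.cast_pow,
    Real.log_pow]
  push_cast
  field_simp

lemma lg_not_primePow (g : ℕ → ℂ) (n : ℕ) (hn : ¬ IsPrimePow n) : lg g n = 0 := by
  unfold lg
  rw [vonMangoldt_eq_zero_iff.mpr hn]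
  simp

/-- the completely multiplicative summand as a homomorphism -/
noncomputable def tm (g : ℕ → ℂ) (h1 : g 1 = 1)
    (hg : ∀ m n : ℕ, 0 < m → 0 < n → g (m * n) = g m * g n) (s : ℂ) : ℕ →*₀ ℂ where
  toFun n := LSeries.term g s n
  map_zero' := by simp
  map_one' := by
    rw [LSeries.term_def]; simp [h1]
  map_mul' m n := by
    rcases Nat.eq_zero_or_pos m with h0 | hm
    · simp [h0]
    rcases Nat.eq_zero_or_pos n with h0 | hn
    · simp [h0]
    rw [LSeries.term_def, LSeries.term_def, LSeries.term_def, if_neg (Nat.mul_pos hm hn).ne',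
      if_neg hm.ne', if_neg hn.ne', hg m n hm hn, Nat.cast_mul, Complex.natCast_mul_natCast_cpow]
    field_simp

lemma exp_lg (g : ℕ → ℂ) (h1 : g 1 = 1)
    (hg : ∀ m n : ℕ, 0 < m → 0 < n → g (m * n) = g m * g n) (s : ℂ)
    (h : LSeriesSummable g s) : Complex.exp (LSeries (lg g) s) = LSeries g s := by
  have hsum : Summable (‖tm g h1 hg s ·‖) := h.norm
  rw [show LSeries g s = ∑' n, tm g h1 hg s n from rfl,
    ← EulerProduct.exp_tsum_primes_log_eq_tsum hsum]
  congr 1
  have hsupp : Function.support (LSeries.term (lg g) s) ⊆ {n | IsPrimePow n} := by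
    intro n hn
    by_contra hc
    apply hn
    rw [LSeries.term_def]
    split_ifs
    · rfl
    · rw [lg_not_primePow g n hc, zero_div]
  have h2 := tsum_eq_tsum_primes_of_support_subset_prime_powers
    (f := LSeries.term (lg g) s) (lg_summable g s h) hsupp
  unfold LSeries
  rw [h2]
  refine tsum_congr fun p => ?_
  have hlt : ‖tm g h1 hg s p‖ < 1 :=
    hsum.of_norm.norm_lt_one (f := (tm g h1 hg s).toMonoidHom) p.2.one_lt
  rw [← (Complex.hasSum_taylorSeries_neg_log' hlt).tsum_eq]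
  refine tsum_congr fun k => ?_
  rw [← map_pow]
  show LSeries.term (lg g) s ((p : ℕ) ^ (k + 1)) = LSeries.term g s ((p : ℕ) ^ (k + 1)) / (k + 1)
  have h0 : (p : ℕ) ^ (k + 1) ≠ 0 := pow_ne_zero _ p.2.ne_zero
  rw [LSeries.term_def, LSeries.term_def, if_neg h0, if_neg h0]
  unfold lg
  rw [ratio_prime_pow p k p.2]
  push_cast
  ring

end Pool.H232R3.Rig
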