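import Mathlib
import Pool.Agent.H232R3.CMOCore

set_option autoImplicit false

open Finset Filter Topology MeasureTheory Set

namespace Pool.H232R3.Rig

lemma SSfloor_le (f : ℕ → ℂ) (C α : ℝ) (hC : 0 ≤ C) (hα : 0 ≤ α)
    (h : ∀ N : ℕ, 0 < N → ‖SS f N‖ ≤ C * (N : ℝ) ^ α) (t : ℝ) :
    ‖SS f ⌊t⌋₊‖ ≤ C * (max t 1) ^ α := by
  rcases lt_or_ge t 1 with ht | ht
  · rw [SSfloor_lt_one f t ht, norm_zero]
    positivity
  · have hf1 : 1 ≤ ⌊t⌋₊ := Nat.le_floor (by simpa using ht)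
    refine (h _ hf1).trans ?_
    have h2 : (⌊t⌋₊ : ℝ) ≤ t := Nat.floor_le (by linarith)
    rw [max_eq_left ht]
    gcongr

lemma locInt (f : ℕ → ℂ) (C α : ℝ) (hC : 0 ≤ C) (hα : 0 ≤ α)
    (h : ∀ N : ℕ, 0 < N → ‖SS f N‖ ≤ C * (N : ℝ) ^ α) :
    LocallyIntegrableOn (fun t : ℝ => SS f ⌊t⌋₊) (Ioi 0) := by
  refine LocallyIntegrable.locallyIntegrableOn ?_ _
  have hc : Continuous fun t : ℝ => C * (max t 1) ^ α := by
    refine continuous_const.mul ((continuous_id.max continuous_const).rpow_const ?_)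
    intro t
    right
    exact hα
  refine hc.locallyIntegrable.mono (measurable_SSfloor f).aestronglyMeasurable ?_
  refine Eventually.of_forall fun t => ?_
  exact (SSfloor_le f C α hC hα h t).trans (le_abs_self _)

lemma Phi_diff (f : ℕ → ℂ) (C α : ℝ) (hC : 0 ≤ C) (hα : 0 ≤ α)
    (h : ∀ N : ℕ, 0 < N → ‖SS f N‖ ≤ C * (N : ℝ) ^ α) (s : ℂ)
    (hs : α < s.re) : DifferentiableAt ℂ (Phi f) s := by
  have key : DifferentiableAt ℂ (mellin (fun t : ℝ => SS f ⌊t⌋₊)) (-s) := by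
    refine mellin_differentiableAt_of_isBigO_rpow (a := -α) (b := (-s).re - 1)
      (locInt f C α hC hα h) ?_ ?_ ?_ ?_
    · refine Asymptotics.IsBigO.of_bound C ?_
      filter_upwards [eventually_ge_atTop (1 : ℝ)] with t ht
      have h1 := SSfloor_le f C α hC hα h t
      rw [max_eq_left ht] at h1
      rw [Real.norm_eq_abs, neg_neg, abs_of_nonneg (by positivity)]
      exact h1
    · rw [Complex.neg_re]; linarith
    · refine Asymptotics.IsBigO.of_bound 1 ?_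
      have : ∀ᶠ t in 𝓝[>] (0 : ℝ), t < 1 :=
        (nhdsWithin_le_nhds) (Iio_mem_nhds one_pos)
      filter_upwards [this] with t ht
      rw [SSfloor_lt_one f t ht, norm_zero]
      positivity
    · linarith
  exact key.comp s (differentiable_neg s)

lemma coef_le (f : ℕ → ℂ) (C α : ℝ) (hC : 0 ≤ C) (hα : 0 ≤ α)
    (h : ∀ N : ℕ, 0 < N → ‖SS f N‖ ≤ C * (N : ℝ) ^ α) (n : ℕ) (hn : 0 < n) :
    ‖f n‖ ≤ 2 * C * (n : ℝ) ^ α := by
  obtain ⟨m, rfl⟩ : ∃ m, n = m + 1 := ⟨n - 1, by omega⟩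
  have h2 : f (m + 1) = SS f (m + 1) - SS f m := by rw [SS_succ]; ring
  rw [h2]
  refine (norm_sub_le _ _).trans ?_
  have h3 := h (m + 1) hn
  have h4 : ‖SS f m‖ ≤ C * ((m + 1 : ℕ) : ℝ) ^ α := by
    rcases Nat.eq_zero_or_pos m with h0 | hpos
    · rw [h0, SS_zero, norm_zero]; positivity
    · refine (h m hpos).trans ?_
      gcongr
      omega
  linarith

lemma Phi_LS (f : ℕ → ℂ) (C α : ℝ) (hα : 0 ≤ α)
    (h : ∀ N : ℕ, 0 < N → ‖SS f N‖ ≤ C * (N : ℝ) ^ α) (s : ℂ)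
    (hs : α < s.re) (hS : LSeriesSummable f s) : LSeries f s = s * Phi f s := by
  rw [Phi_eq_integral]
  refine LSeries_eq_mul_integral f hα hs hS ?_
  refine Asymptotics.IsBigO.of_bound C ?_
  filter_upwards [eventually_gt_atTop 0] with n hn
  rw [Real.norm_eq_abs, abs_of_nonneg (by positivity)]
  exact h n hn

/-- convergence of the Dirichlet series to the continuation -/
lemma series_tendsto (f : ℕ → ℂ) (C α : ℝ) (hC : 0 ≤ C) (hα : 0 ≤ α)
    (h : ∀ N : ℕ, 0 < N → ‖SS f N‖ ≤ C * (N : ℝ) ^ α) (w : ℂ) (hw : α < w.re) :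
    Tendsto (fun N : ℕ => ∑ n ∈ Finset.Icc 1 N, f n * (n : ℂ) ^ (-w)) atTop
      (𝓝 (w * Phi f w)) := by
  set c : ℕ → ℂ := fun n => if n = 0 then 0 else f n with hc
  have hc0 : c 0 = 0 := by simp [hc]
  have hcS : ∀ N : ℕ, ∑ k ∈ Finset.Icc 0 N, c k = SS f N := by
    intro N
    unfold SS
    rw [← Finset.insert_Icc_add_one_left_eq_Icc (Nat.zero_le N), Finset.sum_insert (by simp), hc0, zero_add]
    refine Finset.sum_congr rfl fun n hn => ?_
    rw [Finset.mem_Icc] at hn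
    simp only [hc]
    rw [if_neg (by omega)]
  have hder : ∀ t : ℝ, 1 ≤ t → HasDerivAt (fun t : ℝ => (t : ℂ) ^ (-w)) (-w * (t : ℂ) ^ (-w - 1)) t := by
    intro t ht
    have ht0 : 0 < t := by linarith
    have h1 := (hasDerivAt_id (t : ℂ)).cpow_const (c := -w)
      (by simp only [id]; exact Or.inl (by simpa using ht0))
    have h2 := h1.comp_ofReal
    simpa using h2
  have hfl : ∀ t : ℝ, 1 ≤ t → deriv (fun t : ℝ => (t : ℂ) ^ (-w)) t = -w * (t : ℂ) ^ (-w - 1) :=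
    fun t ht => (hder t ht).deriv
  have hlim : Tendsto (fun n : ℕ => ((n : ℝ) : ℂ) ^ (-w) * ∑ k ∈ Finset.Icc 0 n, c k) atTop (𝓝 0) := by
    rw [tendsto_zero_iff_norm_tendsto_zero]
    have h1 : Tendsto (fun n : ℕ => C * (n : ℝ) ^ (-(w.re - α))) atTop (𝓝 (C * 0)) :=
      ((tendsto_rpow_neg_atTop (by linarith)).comp tendsto_natCast_atTop_atTop).const_mul C
    rw [mul_zero] at h1
    refine squeeze_zero' (Eventually.of_forall fun n => norm_nonneg _) ?_ h1
    filter_upwards [eventually_gt_atTop 0] with n hn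
    have hn0 : (0 : ℝ) < n := by exact_mod_cast hn
    rw [norm_mul, hcS, Complex.norm_cpow_eq_rpow_re_of_pos hn0, Complex.neg_re]
    calc (n : ℝ) ^ (-w.re) * ‖SS f n‖ ≤ (n : ℝ) ^ (-w.re) * (C * (n : ℝ) ^ α) := by
          gcongr; exact h n hn
      _ = C * ((n : ℝ) ^ (-w.re) * (n : ℝ) ^ α) := by ring
      _ = C * (n : ℝ) ^ (-(w.re - α)) := by rw [← Real.rpow_add hn0]; ring_nf
  have key := tendsto_sum_mul_atTop_nhds_one_sub_integral₀ c (f := fun t : ℝ => (t : ℂ) ^ (-w))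
    hc0 (fun t ht => (hder t ht).differentiableAt) ?_ hlim
    (g := fun t : ℝ => t ^ (-(w.re - α) - 1)) ?_ ?_
  · rw [zero_sub] at key
    have e1 : -∫ t in Ioi (1 : ℝ), deriv (fun t : ℝ => (t : ℂ) ^ (-w)) t * ∑ k ∈ Finset.Icc 0 ⌊t⌋₊, c k
        = w * Phi f w := by
      rw [Phi_eq_integral, ← integral_const_mul, ← integral_neg]
      refine setIntegral_congr_fun measurableSet_Ioi fun t ht => ?_
      have ht1 : (1 : ℝ) ≤ t := le_of_lt ht
      show -(deriv (fun t : ℝ => (t : ℂ) ^ (-w)) t * ∑ k ∈ Finset.Icc 0 ⌊t⌋₊, c k) = _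
      rw [hfl t ht1, hcS]
      have : -w - 1 = -(w + 1) := by ring
      rw [this]
      ring
    rw [e1] at key
    refine key.congr fun N => ?_
    rw [← Finset.insert_Icc_add_one_left_eq_Icc (Nat.zero_le N), Finset.sum_insert (by simp), hc0, mul_zero,
      zero_add]
    refine Finset.sum_congr rfl fun n hn => ?_
    rw [Finset.mem_Icc] at hn
    simp only [hc]
    rw [if_neg (by omega)]
    push_cast
    ring
  · have hcont : ContinuousOn (fun t : ℝ => -w * (t : ℂ) ^ (-w - 1)) (Ici 1) := by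
      refine continuousOn_const.mul ?_
      intro t ht
      have ht0 : (0 : ℝ) < t := lt_of_lt_of_le one_pos ht
      refine ContinuousAt.continuousWithinAt ?_
      have h1 := (hasDerivAt_id (t : ℂ)).cpow_const (c := -w - 1)
        (by simp only [id]; exact Or.inl (by simpa using ht0))
      exact h1.comp_ofReal.continuousAt
    refine (hcont.locallyIntegrableOn measurableSet_Ici).congr ?_
    rw [Filter.EventuallyEq, ae_restrict_iff' measurableSet_Ici]
    exact Eventually.of_forall fun t ht => (hfl t ht).symm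
  · refine Asymptotics.IsBigO.of_bound (‖w‖ * C) ?_
    filter_upwards [eventually_ge_atTop (1 : ℝ)] with t ht
    have ht0 : 0 < t := by linarith
    rw [hfl t ht, hcS, norm_mul, norm_mul, norm_neg, Complex.norm_cpow_eq_rpow_re_of_pos ht0]
    have h1 := SSfloor_le f C α hC hα h t
    rw [max_eq_left ht] at h1
    have e2 : (-w - 1).re = -w.re - 1 := by simp
    rw [e2, Real.norm_eq_abs, abs_of_nonneg (by positivity)]
    calc ‖w‖ * t ^ (-w.re - 1) * ‖SS f ⌊t⌋₊‖ ≤ ‖w‖ * t ^ (-w.re - 1) * (C * t ^ α) := by gcongr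
      _ = ‖w‖ * C * (t ^ (-w.re - 1) * t ^ α) := by ring
      _ = ‖w‖ * C * t ^ (-(w.re - α) - 1) := by rw [← Real.rpow_add ht0]; ring_nf
  · refine ⟨Ioi 1, Ioi_mem_atTop 1, ?_⟩
    exact integrableOn_Ioi_rpow_of_lt (by linarith) one_pos

end Pool.H232R3.Rig
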