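import Mathlib
import Pool.Agent.H232R3.RigMellin

set_option autoImplicit false

open ArithmeticFunction Finset Filter Topology

namespace Pool.H232R3.Rig

/-- indicator function of the squares -/
def sqi : ArithmeticFunction ℤ := ⟨fun n => if n ≠ 0 ∧ IsSquare n then 1 else 0, by simp⟩

lemma sqi_apply (n : ℕ) : sqi n = if n ≠ 0 ∧ IsSquare n then 1 else 0 := rfl

lemma isSquare_mul_coprime {m n : ℕ} (h : m.Coprime n) : IsSquare (m * n) ↔ IsSquare m ∧ IsSquare n := by
  constructor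
  · rintro ⟨r, hr⟩
    have h1 : m * n = r ^ 2 := by rw [hr, pow_two]
    have h2 := exists_eq_pow_of_mul_eq_pow (Nat.isUnit_iff.mpr h) h1
    have h3 := exists_eq_pow_of_mul_eq_pow (Nat.isUnit_iff.mpr h.symm) (by rw [mul_comm]; exact h1)
    obtain ⟨a, ha⟩ := h2
    obtain ⟨b, hb⟩ := h3
    exact ⟨⟨a, by rw [ha, pow_two]⟩, ⟨b, by rw [hb, pow_two]⟩⟩
  · rintro ⟨h1, h2⟩
    exact h1.mul h2

lemma sqi_mult : IsMultiplicative sqi := by
  refine ⟨by simp [sqi_apply], fun {m n} h => ?_⟩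
  rw [sqi_apply, sqi_apply, sqi_apply]
  by_cases hm : m = 0
  · subst hm; simp
  by_cases hn : n = 0
  · subst hn; simp
  have h0 : m * n ≠ 0 := mul_ne_zero hm hn
  have := isSquare_mul_coprime h
  by_cases h1 : IsSquare m <;> by_cases h2 : IsSquare n <;> simp [this, h1, h2, hm, hn]

lemma isSquare_prime_pow (p k : ℕ) (hp : p.Prime) : IsSquare (p ^ k) ↔ Even k := by
  constructor
  · rintro ⟨r, hr⟩
    have h1 : r ∣ p ^ k := ⟨r, hr⟩
    obtain ⟨j, hj, rfl⟩ := (Nat.dvd_prime_pow hp).mp h1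
    rw [← pow_add] at hr
    have := Nat.pow_right_injective hp.two_le hr
    exact ⟨j, this⟩
  · intro h
    exact h.isSquare_pow p

lemma sqi_prime_pow (p k : ℕ) (hp : p.Prime) : sqi (p ^ k) = if Even k then 1 else 0 := by
  rw [sqi_apply]
  have h0 : p ^ k ≠ 0 := pow_ne_zero _ hp.ne_zero
  by_cases h : Even k
  · rw [if_pos ⟨h0, (isSquare_prime_pow p k hp).mpr h⟩, if_pos h]
  · rw [if_neg (fun h1 => h ((isSquare_prime_pow p k hp).mp h1.2)), if_neg h]

lemma liouville_eq : liouville = sqi * moebius := by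
  rw [IsMultiplicative.eq_iff_eq_on_prime_powers _ isMultiplicative_liouville _
    (sqi_mult.mul isMultiplicative_moebius)]
  intro p k hp
  rcases k with _ | k
  · simp [liouville_apply_one, mul_apply, sqi_apply]
  · rw [liouville_apply (pow_ne_zero _ hp.ne_zero), cardFactors_apply_prime_pow hp, mul_comm sqi,
      mul_apply, Nat.sum_divisorsAntidiagonal (f := fun a b => moebius a * sqi b),
      Nat.sum_divisors_prime_pow hp, Finset.sum_range_succ', Finset.sum_range_succ']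
    have h1 : ∑ x ∈ Finset.range k, moebius (p ^ (x + 1 + 1)) * sqi (p ^ (k + 1) / p ^ (x + 1 + 1)) = 0 := by
      refine Finset.sum_eq_zero fun x _ => ?_
      rw [moebius_apply_prime_pow hp (by omega), if_neg (by omega), zero_mul]
    rw [h1, zero_add, zero_add, pow_one, moebius_apply_prime hp, pow_zero, moebius_apply_one, one_mul,
      Nat.div_one, pow_succ p k, Nat.mul_div_cancel _ hp.pos, ← pow_succ, sqi_prime_pow p k hp,
      sqi_prime_pow p (k + 1) hp, pow_succ]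
    rcases Nat.even_or_odd k with h | h
    · rw [if_pos h, if_neg (by rw [Nat.even_add_one]; simpa using h), h.neg_one_pow]; norm_num
    · rw [if_neg (Nat.not_even_iff_odd.mpr h), if_pos (by rw [Nat.even_add_one, Nat.not_even_iff_odd]; exact h),
        h.neg_one_pow]; norm_num

lemma sqi_summable (a : ℝ) (ha : 1 / 2 < a) : Summable fun n : ℕ => (sqi n : ℝ) * (n : ℝ) ^ (-a) := by
  have hinj : Function.Injective (fun d : ℕ => (d + 1) ^ 2) := by
    intro d e h
    have := Nat.pow_left_injective (by norm_num : 2 ≠ 0) h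
    omega
  rw [← hinj.summable_iff]
  · have h1 : Summable fun d : ℕ => ((d : ℝ)) ^ (-(2 * a)) := Real.summable_nat_rpow.mpr (by linarith)
    have h2 := (summable_nat_add_iff 1).mpr h1
    refine h2.congr fun d => ?_
    simp only [Function.comp]
    have h3 : sqi ((d + 1) ^ 2) = 1 := by
      rw [sqi_apply, if_pos ⟨by positivity, ⟨d + 1, by ring⟩⟩]
    rw [h3]
    have hd : (0 : ℝ) ≤ (d : ℝ) + 1 := by positivity
    push_cast
    rw [one_mul, ← Real.rpow_natCast, ← Real.rpow_mul hd]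
    congr 1
    push_cast
    ring
  · intro n hn
    rw [sqi_apply, if_neg]
    · simp
    · rintro ⟨h0, r, hr⟩
      apply hn
      refine ⟨r - 1, ?_⟩
      have : r ≠ 0 := by rintro rfl; simp at hr; exact h0 hr
      simp only
      rw [Nat.sub_add_cancel (Nat.pos_of_ne_zero this), hr, pow_two]

lemma sqi_nonneg (n : ℕ) : (0 : ℝ) ≤ (sqi n : ℝ) := by
  rw [sqi_apply]; split_ifs <;> simp

/-- partial sums of the Liouville function from the Mertens function -/
lemma liouville_sum (C a : ℝ) (ha : 1 / 2 < a)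
    (h : ∀ x : ℝ, 1 ≤ x → |∑ n ∈ Finset.Icc 1 ⌊x⌋₊, ((moebius n : ℤ) : ℝ)| ≤ C * x ^ a) :
    ∃ C' : ℝ, 0 ≤ C' ∧ ∀ N : ℕ, 0 < N → ‖SS (fun n => ((liouville n : ℤ) : ℂ)) N‖ ≤ C' * (N : ℝ) ^ a := by
  have hC : 0 ≤ C := by
    have := (abs_nonneg _).trans (h 1 le_rfl)
    simpa using this
  refine ⟨C * ∑' n : ℕ, (sqi n : ℝ) * (n : ℝ) ^ (-a),
    mul_nonneg hC (tsum_nonneg fun n => mul_nonneg (sqi_nonneg n) (by positivity)), fun N hN => ?_⟩
  have hN0 : (0 : ℝ) < N := by exact_mod_cast hN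
  have e1 : SS (fun n => ((liouville n : ℤ) : ℂ)) N
      = (((∑ n ∈ Finset.Ioc 0 N, (sqi n : ℝ) * ∑ m ∈ Finset.Ioc 0 (N / n), ((moebius m : ℤ) : ℝ) : ℝ)) : ℂ) := by
    unfold SS
    have h1 := sum_Ioc_mul_eq_sum_sum sqi moebius N
    rw [← liouville_eq] at h1
    have h2 : ∑ n ∈ Finset.Icc 1 N, ((liouville n : ℤ) : ℂ) = ((∑ n ∈ Finset.Ioc 0 N, liouville n : ℤ) : ℂ) := by
      push_cast
      rfl
    rw [h2, h1]
    push_cast
    rfl
  rw [e1, Complex.norm_real, Real.norm_eq_abs]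
  calc |∑ n ∈ Finset.Ioc 0 N, (sqi n : ℝ) * ∑ m ∈ Finset.Ioc 0 (N / n), ((moebius m : ℤ) : ℝ)|
      ≤ ∑ n ∈ Finset.Ioc 0 N, |(sqi n : ℝ) * ∑ m ∈ Finset.Ioc 0 (N / n), ((moebius m : ℤ) : ℝ)| :=
        Finset.abs_sum_le_sum_abs _ _
    _ ≤ ∑ n ∈ Finset.Ioc 0 N, (C * (N : ℝ) ^ a) * ((sqi n : ℝ) * (n : ℝ) ^ (-a)) := by
        refine Finset.sum_le_sum fun n hn => ?_
        rw [Finset.mem_Ioc] at hn
        have hn0 : (0 : ℝ) < n := by exact_mod_cast hn.1
        have hx : (1 : ℝ) ≤ (N : ℝ) / n := by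
          rw [le_div_iff₀ hn0, one_mul]; exact_mod_cast hn.2
        have h3 := h _ hx
        rw [Nat.floor_div_eq_div] at h3
        rw [abs_mul, abs_of_nonneg (sqi_nonneg n)]
        have h4 : ∑ m ∈ Finset.Ioc 0 (N / n), ((moebius m : ℤ) : ℝ) = ∑ m ∈ Finset.Icc 1 (N / n), ((moebius m : ℤ) : ℝ) := rfl
        rw [h4]
        calc (sqi n : ℝ) * |∑ m ∈ Finset.Icc 1 (N / n), ((moebius m : ℤ) : ℝ)|
            ≤ (sqi n : ℝ) * (C * ((N : ℝ) / n) ^ a) := mul_le_mul_of_nonneg_left h3 (sqi_nonneg n)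
          _ = (C * (N : ℝ) ^ a) * ((sqi n : ℝ) * (n : ℝ) ^ (-a)) := by
            rw [Real.div_rpow hN0.le hn0.le, Real.rpow_neg hn0.le]; ring
    _ = (C * (N : ℝ) ^ a) * ∑ n ∈ Finset.Ioc 0 N, ((sqi n : ℝ) * (n : ℝ) ^ (-a)) := by
        rw [Finset.mul_sum]
    _ ≤ (C * (N : ℝ) ^ a) * ∑' n : ℕ, (sqi n : ℝ) * (n : ℝ) ^ (-a) := by
        refine mul_le_mul_of_nonneg_left ?_ (by positivity)
        exact (sqi_summable a ha).sum_le_tsum _ fun n _ => mul_nonneg (sqi_nonneg n) (by positivity)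
    _ = _ := by ring

/-- the L-series of the Liouville function tends to zero at 1 -/
lemma liouville_LSeries :
    Tendsto (fun σ : ℝ => LSeries (fun n => ((liouville n : ℤ) : ℂ)) σ) (𝓝[>] 1) (𝓝 0) := by
  have hsq : ∀ σ : ℝ, 1 ≤ σ → LSeriesSummable (fun n => ((sqi n : ℤ) : ℂ)) σ ∧
      ‖LSeries (fun n => ((sqi n : ℤ) : ℂ)) σ‖ ≤ ∑' n : ℕ, (sqi n : ℝ) * (n : ℝ) ^ (-1 : ℝ) := by
    intro σ hσ
    have hb : ∀ n : ℕ, ‖LSeries.term (fun n => ((sqi n : ℤ) : ℂ)) (σ : ℂ) n‖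
        ≤ (sqi n : ℝ) * (n : ℝ) ^ (-1 : ℝ) := by
      intro n
      rw [LSeries.norm_term_eq]
      by_cases h0 : n = 0
      · rw [if_pos h0, h0]; simp
      · rw [if_neg h0]
        have hn : (1 : ℝ) ≤ n := by exact_mod_cast Nat.one_le_iff_ne_zero.mpr h0
        have h1 : ‖((sqi n : ℤ) : ℂ)‖ = (sqi n : ℝ) := by
          rw [Complex.norm_intCast, abs_of_nonneg (sqi_nonneg n)]
        simp only [h1, Complex.ofReal_re]
        rw [div_eq_mul_inv, ← Real.rpow_neg (by linarith)]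
        refine mul_le_mul_of_nonneg_left ?_ (sqi_nonneg n)
        exact Real.rpow_le_rpow_of_exponent_le hn (by linarith)
    have hs := Summable.of_norm_bounded (sqi_summable 1 (by norm_num)) hb
    exact ⟨hs, tsum_of_norm_bounded (sqi_summable 1 (by norm_num)).hasSum hb⟩
  set B : ℝ := ∑' n : ℕ, (sqi n : ℝ) * (n : ℝ) ^ (-1 : ℝ) with hB
  have hB0 : 0 ≤ B := (norm_nonneg _).trans (hsq 1 le_rfl).2
  have hprod : ∀ σ : ℝ, 1 < σ → LSeries (fun n => ((liouville n : ℤ) : ℂ)) σ * riemannZeta σ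
      = LSeries (fun n => ((sqi n : ℤ) : ℂ)) σ := by
    intro σ hσ
    have hσ' : 1 < (σ : ℂ).re := by simpa using hσ
    have h1 : (fun n => ((liouville n : ℤ) : ℂ))
        = fun n => ((sqi : ArithmeticFunction ℂ) * (moebius : ArithmeticFunction ℂ)) n := by
      funext n
      have := congrArg (fun F : ArithmeticFunction ℤ => ((F : ArithmeticFunction ℂ) n)) liouville_eq
      simp only [intCoe_mul] at this
      rw [← this]
      rfl
    have h2 : LSeriesSummable (fun n => ((moebius : ArithmeticFunction ℂ)) n) σ := by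
      have := LSeriesSummable_moebius_iff.mpr hσ'
      exact this
    have h3 : LSeriesSummable (fun n => ((sqi : ArithmeticFunction ℂ)) n) σ := (hsq σ hσ.le).1
    rw [h1, LSeries_mul' h3 h2]
    have h4 := LSeries_zeta_mul_Lseries_moebius hσ'
    rw [LSeries_zeta_eq_riemannZeta hσ'] at h4
    have h5 : LSeries (fun n => ((moebius : ArithmeticFunction ℂ)) n) σ
        = LSeries (fun n => ((moebius n : ℤ) : ℂ)) σ := rfl
    rw [h5, mul_assoc, mul_comm (LSeries _ _) (riemannZeta _), h4, mul_one]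
    rfl
  have hres : Tendsto (fun σ : ℝ => ((σ : ℂ) - 1) * riemannZeta σ) (𝓝[>] 1) (𝓝 1) := by
    have h1 : Tendsto (fun σ : ℝ => (σ : ℂ)) (𝓝[>] 1) (𝓝[≠] 1) := by
      refine tendsto_nhdsWithin_iff.mpr ⟨?_, ?_⟩
      · have := Complex.continuous_ofReal.tendsto (1 : ℝ)
        rw [Complex.ofReal_one] at this
        exact this.mono_left nhdsWithin_le_nhds
      · filter_upwards [self_mem_nhdsWithin] with σ hσ
        have : (1 : ℝ) < σ := hσ
        simp only [Set.mem_compl_iff, Set.mem_singleton_iff]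
        intro h
        have h2 := congrArg Complex.re h
        simp at h2
        linarith
    exact riemannZeta_residue_one.comp h1
  have hev : ∀ᶠ σ : ℝ in 𝓝[>] 1, 1 / 2 < ‖((σ : ℂ) - 1) * riemannZeta σ‖ := by
    have := (continuous_norm.tendsto (1 : ℂ)).comp hres
    rw [norm_one] at this
    exact (tendsto_order.mp this).1 _ (by norm_num)
  rw [tendsto_zero_iff_norm_tendsto_zero]
  have hlim : Tendsto (fun σ : ℝ => 2 * B * (σ - 1)) (𝓝[>] 1) (𝓝 (2 * B * (1 - 1))) := by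
    have : Continuous fun σ : ℝ => 2 * B * (σ - 1) := by fun_prop
    exact (this.tendsto 1).mono_left nhdsWithin_le_nhds
  rw [sub_self, mul_zero] at hlim
  refine squeeze_zero' (Eventually.of_forall fun σ => norm_nonneg _) ?_ hlim
  filter_upwards [hev, self_mem_nhdsWithin] with σ h1 h2
  have hσ : (1 : ℝ) < σ := h2
  have h3 := hprod σ hσ
  have h4 := (hsq σ hσ.le).2
  rw [← h3, norm_mul] at h4
  have h5 : ‖(σ : ℂ) - 1‖ = σ - 1 := by
    rw [← Complex.ofReal_one, ← Complex.ofReal_sub, Complex.norm_real, Real.norm_eq_abs,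
      abs_of_pos (by linarith)]
  rw [norm_mul, h5] at h1
  have h6 := norm_nonneg (LSeries (fun n => ((liouville n : ℤ) : ℂ)) σ)
  have h7 : 0 < σ - 1 := by linarith
  nlinarith [mul_le_mul_of_nonneg_left h4 h7.le, mul_le_mul_of_nonneg_left h1.le h6]

/-- the harmonic Liouville series has sum zero -/
lemma liouville_series (C a : ℝ) (hC : 0 ≤ C) (ha0 : 0 ≤ a) (ha : a < 1)
    (h : ∀ N : ℕ, 0 < N → ‖SS (fun n => ((liouville n : ℤ) : ℂ)) N‖ ≤ C * (N : ℝ) ^ a) :
    Tendsto (fun N : ℕ => ∑ n ∈ Finset.Icc 1 N, ((liouville n : ℤ) : ℂ) * (n : ℂ) ^ (-(1 : ℂ)))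
      atTop (𝓝 0) := by
  set f : ℕ → ℂ := fun n => ((liouville n : ℤ) : ℂ) with hf
  have h1 := series_tendsto f C a hC ha0 h 1 (by simpa using ha)
  have h2 : (1 : ℂ) * Phi f 1 = 0 := by
    have hd := Phi_diff f C a hC ha0 h 1 (by simpa using ha)
    have hc : ContinuousAt (fun s : ℂ => s * Phi f s) 1 := continuousAt_id.mul hd.continuousAt
    have h3 : Tendsto (fun σ : ℝ => (σ : ℂ) * Phi f σ) (𝓝[>] 1) (𝓝 ((1 : ℂ) * Phi f 1)) := by
      have h4 : Tendsto (fun σ : ℝ => (σ : ℂ)) (𝓝[>] 1) (𝓝 1) := by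
        have := Complex.continuous_ofReal.tendsto (1 : ℝ)
        rw [Complex.ofReal_one] at this
        exact this.mono_left nhdsWithin_le_nhds
      exact Tendsto.comp (g := fun s : ℂ => s * Phi f s) hc h4
    refine tendsto_nhds_unique h3 (liouville_LSeries.congr' ?_)
    filter_upwards [self_mem_nhdsWithin] with σ hσ
    have hσ' : (1 : ℝ) < σ := hσ
    refine Phi_LS f C a ha0 h σ (by simp; linarith) ?_
    refine LSeriesSummable_of_bounded_of_one_lt_re (m := 1) ?_ (by simpa using hσ')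
    intro n hn
    rw [hf]
    simp only
    rw [liouville_apply hn]
    simp
  rw [h2] at h1
  exact h1

end Pool.H232R3.Rig
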