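import Mathlib
import Pool.Agent.H232R3.RigLog
import Pool.Agent.H232R3.RigMellin
import Pool.Agent.H232R3.MOFinal

set_option autoImplicit false

open ArithmeticFunction Finset Filter Topology
open scoped ComplexOrder ComplexConjugate

namespace Pool.H232R3.Rig

lemma SS_conj (f : ℕ → ℂ) (N : ℕ) : SS (fun n => conj (f n)) N = conj (SS f N) := by
  unfold SS
  rw [map_sum]

/-- the twisted function -/
noncomputable def gw (f : ℕ → ℂ) (w : ℂ) (n : ℕ) : ℂ := f n * (n : ℂ) ^ (-w)

lemma gw_term (f : ℕ → ℂ) (w s : ℂ) (n : ℕ) :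
    LSeries.term (gw f w) s n = LSeries.term f (s + w) n := by
  rw [LSeries.term_def, LSeries.term_def]
  split_ifs with h
  · rfl
  · have hn : (n : ℂ) ≠ 0 := by exact_mod_cast h
    unfold gw
    rw [Complex.cpow_add _ _ hn, Complex.cpow_neg]
    have h1 : (n : ℂ) ^ s ≠ 0 := by rw [Complex.cpow_def_of_ne_zero hn]; exact Complex.exp_ne_zero _
    have h2 : (n : ℂ) ^ w ≠ 0 := by rw [Complex.cpow_def_of_ne_zero hn]; exact Complex.exp_ne_zero _
    field_simp

lemma gw_LSeries (f : ℕ → ℂ) (w s : ℂ) : LSeries (gw f w) s = LSeries f (s + w) := by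
  unfold LSeries
  exact tsum_congr fun n => gw_term f w s n

lemma gw_summable (f : ℕ → ℂ) (w s : ℂ) : LSeriesSummable (gw f w) s ↔ LSeriesSummable f (s + w) := by
  unfold LSeriesSummable
  rw [show LSeries.term (gw f w) s = LSeries.term f (s + w) from funext fun n => gw_term f w s n]

lemma gw_mul (f : ℕ → ℂ) (hmul : ∀ m n : ℕ, 0 < m → 0 < n → f (m * n) = f m * f n) (w : ℂ)
    (m n : ℕ) (hm : 0 < m) (hn : 0 < n) : gw f w (m * n) = gw f w m * gw f w n := by
  unfold gw
  rw [hmul m n hm hn, Nat.cast_mul, Complex.natCast_mul_natCast_cpow]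
  ring

lemma gw_one (f : ℕ → ℂ) (f1 : f 1 = 1) (w : ℂ) : gw f w 1 = 1 := by
  unfold gw; simp [f1]

lemma conj_cpow_nat (n : ℕ) (w : ℂ) : conj ((n : ℂ) ^ w) = (n : ℂ) ^ (conj w) := by
  rcases Nat.eq_zero_or_pos n with h0 | hn
  · subst h0
    by_cases hw : w = 0
    · subst hw; simp
    · have hw' : conj w ≠ 0 := by simpa using hw
      rw [Nat.cast_zero, Complex.zero_cpow hw, Complex.zero_cpow hw', _root_.map_zero]
  · have h := Complex.cpow_conj (n : ℂ) w (by
      rw [Complex.natCast_arg]; exact Real.pi_pos.ne)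
    rw [Complex.conj_natCast] at h
    exact h.symm

lemma gw_conj (f : ℕ → ℂ) (w : ℂ) (n : ℕ) :
    gw (fun n => conj (f n)) (conj w) n = conj (gw f w n) := by
  unfold gw
  rw [map_mul, conj_cpow_nat, map_neg]

/-- coefficient function of the logarithm of the fourfold product -/
noncomputable def dd (g : ℕ → ℂ) (n : ℕ) : ℂ :=
  ((2 * (1 / (n : ℝ)) + 2 * (g n).re : ℝ) : ℂ) * ((vonMangoldt n / Real.log n : ℝ) : ℂ)

lemma dd_eq (g : ℕ → ℂ) :
    dd g = lg (fun n => aInv n) + lg (fun n => aInv n) + (lg g + lg (fun n => conj (g n))) := by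
  funext n
  simp only [Pi.add_apply, dd, lg, aInv_apply]
  have h : g n + conj (g n) = ((2 * (g n).re : ℝ) : ℂ) := by rw [Complex.add_conj]
  rw [Complex.ofReal_add, ← h]
  generalize (((vonMangoldt n / Real.log n : ℝ)) : ℂ) = x
  push_cast
  ring

lemma dd_nonneg (g : ℕ → ℂ)
    (h : ∀ p k : ℕ, p.Prime → 0 ≤ 1 / ((p : ℝ) ^ (k + 1)) + (g (p ^ (k + 1))).re) : 0 ≤ dd g := by
  intro n
  show 0 ≤ dd g n
  by_cases hn : IsPrimePow n
  · obtain ⟨p, k, hp, hk, rfl⟩ := hn
    obtain ⟨j, rfl⟩ : ∃ j, k = j + 1 := ⟨k - 1, by omega⟩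
    unfold dd
    rw [← Complex.ofReal_mul, Complex.zero_le_real]
    refine mul_nonneg ?_ (ratio_nonneg _)
    have := h p j hp.nat_prime
    push_cast
    linarith
  · unfold dd
    rw [vonMangoldt_eq_zero_iff.mpr hn]
    simp

/-- the core of the rigidity theorem -/
theorem core (f : ℕ → ℂ) (f1 : f 1 = 1)
    (hmul : ∀ m n : ℕ, 0 < m → 0 < n → f (m * n) = f m * f n)
    (t C α : ℝ) (hC : 0 ≤ C) (hα : 0 ≤ α) (hα1 : α < 1)
    (hbd : ∀ N : ℕ, 0 < N → ‖SS f N‖ ≤ C * (N : ℝ) ^ α)
    (hp : ∀ p : ℕ, p.Prime → ‖f p‖ ≤ 1 ∨ ∃ r : ℝ, 0 ≤ r ∧ f p = r * (p : ℂ) ^ (t * Complex.I))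
    (hz : Tendsto (fun N : ℕ => ∑ n ∈ Finset.Icc 1 N, f n * (n : ℂ) ^ (-(1 + t * Complex.I)))
      atTop (𝓝 0)) :
    (∀ s : ℂ, α < s.re → riemannZeta s ≠ 0) ∧
    ∀ x : ℝ, α - 1 < x → x ≤ 2 → LSeriesSummable (dd (gw f (1 + t * Complex.I))) x := by
  set w : ℂ := 1 + t * Complex.I with hw
  have hwre : w.re = 1 := by simp [hw]
  set fb : ℕ → ℂ := fun n => conj (f n) with hfb
  set wb : ℂ := conj w with hwb
  have hwbre : wb.re = 1 := by rw [hwb, Complex.conj_re, hwre]
  have hbd2 : ∀ N : ℕ, 0 < N → ‖SS fb N‖ ≤ C * (N : ℝ) ^ α := by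
    intro N hN
    rw [hfb, SS_conj, RCLike.norm_conj]
    exact hbd N hN
  set g : ℕ → ℂ := gw f w with hg
  have hgb : gw fb wb = fun n => conj (g n) := by
    funext n
    rw [hfb, hwb, gw_conj, hg]
  -- continuations
  set U : Set ℂ := {s : ℂ | α - 1 < s.re} with hU
  have hUo : IsOpen U := Complex.continuous_re.isOpen_preimage _ isOpen_Ioi
  have h0U : (0 : ℂ) ∈ U := by show α - 1 < (0 : ℂ).re; simp; linarith
  set G : ℂ → ℂ := fun s => (s + w) * Phi f (s + w) with hG
  set G2 : ℂ → ℂ := fun s => (s + wb) * Phi fb (s + wb) with hG2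
  have hGd : DifferentiableOn ℂ G U := by
    intro s hs
    have hs' : α < (s + w).re := by rw [Complex.add_re, hwre]; have : α - 1 < s.re := hs; linarith
    have d1 := Phi_diff f C α hC hα hbd (s + w) hs'
    have d2 : DifferentiableAt ℂ (fun s : ℂ => Phi f (s + w)) s :=
      DifferentiableAt.comp (g := Phi f) (f := fun s : ℂ => s + w) s d1
        (differentiableAt_id.add (differentiableAt_const w))
    exact ((differentiableAt_id.add (differentiableAt_const w)).mul d2).differentiableWithinAt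
  have hG2d : DifferentiableOn ℂ G2 U := by
    intro s hs
    have hs' : α < (s + wb).re := by
      rw [Complex.add_re, hwbre]; have : α - 1 < s.re := hs; linarith
    have d1 := Phi_diff fb C α hC hα hbd2 (s + wb) hs'
    have d2 : DifferentiableAt ℂ (fun s : ℂ => Phi fb (s + wb)) s :=
      DifferentiableAt.comp (g := Phi fb) (f := fun s : ℂ => s + wb) s d1
        (differentiableAt_id.add (differentiableAt_const wb))
    exact ((differentiableAt_id.add (differentiableAt_const wb)).mul d2).differentiableWithinAt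
  have hG0 : G 0 = 0 := by
    have h1 := series_tendsto f C α hC hα hbd w (by rw [hwre]; exact hα1)
    have h2 := tendsto_nhds_unique h1 hz
    simp only [hG, zero_add]
    exact h2
  have hG20 : G2 0 = 0 := by
    have h1 := series_tendsto fb C α hC hα hbd2 wb (by rw [hwbre]; exact hα1)
    have h3 : Tendsto (fun N : ℕ => ∑ n ∈ Finset.Icc 1 N, fb n * (n : ℂ) ^ (-wb)) atTop (𝓝 0) := by
      have h4 := (Complex.continuous_conj.tendsto (0 : ℂ)).comp hz
      rw [_root_.map_zero] at h4
      refine h4.congr fun N => ?_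
      simp only [Function.comp]
      rw [map_sum]
      refine Finset.sum_congr rfl fun n _ => ?_
      rw [map_mul, conj_cpow_nat, map_neg]
    have h2 := tendsto_nhds_unique h1 h3
    simp only [hG2, zero_add]
    exact h2
  set K : ℂ → ℂ := dslope G 0 with hK
  set K2 : ℂ → ℂ := dslope G2 0 with hK2
  have hKd : DifferentiableOn ℂ K U := (Complex.differentiableOn_dslope (hUo.mem_nhds h0U)).mpr hGd
  have hK2d : DifferentiableOn ℂ K2 U :=
    (Complex.differentiableOn_dslope (hUo.mem_nhds h0U)).mpr hG2d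
  have hKe : ∀ s : ℂ, G s = s * K s := by
    intro s
    have := sub_smul_dslope G 0 s
    rw [sub_zero, smul_eq_mul, hG0, sub_zero] at this
    exact this.symm
  have hK2e : ∀ s : ℂ, G2 s = s * K2 s := by
    intro s
    have := sub_smul_dslope G2 0 s
    rw [sub_zero, smul_eq_mul, hG20, sub_zero] at this
    exact this.symm
  set R : ℂ → ℂ := fun s => Zs s * Zs s * (K s * K2 s) with hR
  have hRd : DifferentiableOn ℂ R U :=
    ((Zs_diff.differentiableOn).mul (Zs_diff.differentiableOn)).mul (hKd.mul hK2d)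
  -- absolute convergence
  have hcoef : ∀ f' : ℕ → ℂ, (∀ N : ℕ, 0 < N → ‖SS f' N‖ ≤ C * (N : ℝ) ^ α) →
      ∀ s : ℂ, α + 1 < s.re → LSeriesSummable f' s := by
    intro f' hf' s hs
    refine LSeriesSummable_of_le_const_mul_rpow hs ⟨2 * C, fun n hn => ?_⟩
    have := coef_le f' C α hC hα hf' n (Nat.pos_of_ne_zero hn)
    rw [add_sub_cancel_right]
    exact this
  have hsg : ∀ s : ℂ, 1 < s.re → LSeriesSummable g s ∧ LSeries g s = G s := by
    intro s hs
    have h1 : LSeriesSummable f (s + w) :=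
      hcoef f hbd (s + w) (by rw [Complex.add_re, hwre]; linarith)
    refine ⟨(gw_summable f w s).mpr h1, ?_⟩
    rw [hg, gw_LSeries]
    exact Phi_LS f C α hα hbd (s + w) (by rw [Complex.add_re, hwre]; linarith) h1
  have hsg2 : ∀ s : ℂ, 1 < s.re → LSeriesSummable (fun n => conj (g n)) s ∧
      LSeries (fun n => conj (g n)) s = G2 s := by
    intro s hs
    have h1 : LSeriesSummable fb (s + wb) :=
      hcoef fb hbd2 (s + wb) (by rw [Complex.add_re, hwbre]; linarith)
    rw [← hgb]
    refine ⟨(gw_summable fb wb s).mpr h1, ?_⟩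
    rw [gw_LSeries]
    exact Phi_LS fb C α hα hbd2 (s + wb) (by rw [Complex.add_re, hwbre]; linarith) h1
  have hgm : ∀ m n : ℕ, 0 < m → 0 < n → g (m * n) = g m * g n := gw_mul f hmul w
  have hg1 : g 1 = 1 := gw_one f f1 w
  have hg2m : ∀ m n : ℕ, 0 < m → 0 < n → (fun n => conj (g n)) (m * n)
      = (fun n => conj (g n)) m * (fun n => conj (g n)) n := by
    intro m n hm hn
    simp only
    rw [hgm m n hm hn, map_mul]
  have hexp : ∀ s : ℂ, 1 < s.re → LSeriesSummable (dd g) s ∧ R s = Complex.exp (LSeries (dd g) s) := by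
    intro s hs
    have s0 : s ≠ 0 := by rintro rfl; simp at hs; linarith
    have ha : LSeriesHasSum (fun n => aInv n) s (riemannZeta (s + 1)) := aInv_hasSum s (by linarith)
    have ha1 : (fun n => aInv n) 1 = (1 : ℂ) := by simp [aInv_apply]
    have ham : ∀ m n : ℕ, 0 < m → 0 < n → (fun n => aInv n) (m * n)
        = (fun n => aInv n) m * (fun n => aInv n) n := by
      intro m n _ _
      simp only [aInv_apply]
      push_cast
      rw [mul_inv]
    have e1 := exp_lg (fun n => aInv n) ha1 ham s ha.LSeriesSummable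
    have e2 := exp_lg g hg1 hgm s (hsg s hs).1
    have e3 := exp_lg (fun n => conj (g n)) (by simp [hg1]) hg2m s (hsg2 s hs).1
    have i1 := lg_summable (fun n => aInv n) s ha.LSeriesSummable
    have i2 := lg_summable g s (hsg s hs).1
    have i3 := lg_summable (fun n => conj (g n)) s (hsg2 s hs).1
    rw [dd_eq]
    refine ⟨(i1.add i1).add (i2.add i3), ?_⟩
    rw [LSeries_add (i1.add i1) (i2.add i3), LSeries_add i1 i1, LSeries_add i2 i3,
      Complex.exp_add, Complex.exp_add, Complex.exp_add, e1, e2, e3, (hsg s hs).2, (hsg2 s hs).2,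
      ha.LSeries_eq, hKe, hK2e]
    simp only [hR]
    rw [Zs_eq s s0]
    ring
  -- positivity
  have hd0 : 0 ≤ dd g := by
    refine dd_nonneg g fun p k hpp => ?_
    have hp0 : (0 : ℝ) < p := by exact_mod_cast hpp.pos
    have hpc : (p : ℂ) ≠ 0 := by exact_mod_cast hpp.ne_zero
    have hpow : g (p ^ (k + 1)) = g p ^ (k + 1) := by
      have : ∀ j : ℕ, g (p ^ j) = g p ^ j := by
        intro j
        induction j with
        | zero => simp [hg1]
        | succ j ih => rw [pow_succ, pow_succ, hgm _ _ (pow_pos hpp.pos j) hpp.pos, ih]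
      exact this _
    rw [hpow]
    rcases hp p hpp with h | ⟨r, hr, h⟩
    · have h1 : ‖g p‖ ≤ 1 / p := by
        rw [hg]
        unfold gw
        rw [norm_mul, Complex.norm_natCast_cpow_of_pos hpp.pos, Complex.neg_re, hwre,
          Real.rpow_neg_one, one_div]
        exact mul_le_of_le_one_left (by positivity) h
      have h2 : |(g p ^ (k + 1)).re| ≤ (1 / (p : ℝ)) ^ (k + 1) := by
        refine (Complex.abs_re_le_norm _).trans ?_
        rw [norm_pow]
        gcongr
      have h3 := neg_abs_le (g p ^ (k + 1)).re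
      have h4 : (1 / (p : ℝ)) ^ (k + 1) = 1 / (p : ℝ) ^ (k + 1) := by rw [one_div, inv_pow, one_div]
      rw [h4] at h2
      linarith
    · have h1 : g p = ((r / p : ℝ) : ℂ) := by
        rw [hg]
        unfold gw
        rw [h, hw, neg_add, Complex.cpow_add _ _ hpc, Complex.cpow_neg_one, Complex.cpow_neg]
        have h5 : (p : ℂ) ^ (t * Complex.I) ≠ 0 := by
          rw [Complex.cpow_def_of_ne_zero hpc]; exact Complex.exp_ne_zero _
        push_cast
        field_simp
      rw [h1, ← Complex.ofReal_pow, Complex.ofReal_re]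
      positivity
  have hland : ∀ x : ℝ, α - 1 < x → x ≤ 2 → LSeriesSummable (dd g) x := fun x hx hx2 =>
    exp_landau (dd g) hd0 R (α - 1) hRd hexp x hx hx2
  refine ⟨?_, hland⟩
  -- the identity theorem
  have habs : LSeries.abscissaOfAbsConv (dd g) ≤ ((α - 1 : ℝ) : EReal) := by
    refine LSeries.abscissaOfAbsConv_le_of_forall_lt_LSeriesSummable' ?_
    intro y hy
    have hy' : α - 1 < y := by exact_mod_cast hy
    by_cases h2 : y ≤ 2
    · exact hland y hy' h2
    · push Not at h2
      exact (hland 2 (by linarith) le_rfl).of_re_le_re (by simpa using h2.le)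
  have hEd : DifferentiableOn ℂ (fun s => Complex.exp (LSeries (dd g) s)) U := by
    intro s hs
    have : LSeries.abscissaOfAbsConv (dd g) < s.re :=
      lt_of_le_of_lt habs (by exact_mod_cast (show α - 1 < s.re from hs))
    exact ((LSeries_analyticOnNhd (dd g)) s this).differentiableAt.cexp.differentiableWithinAt
  have hpre : IsPreconnected U := (convex_halfSpace_re_gt (α - 1)).isPreconnected
  have heq : Set.EqOn R (fun s => Complex.exp (LSeries (dd g) s)) U := by
    refine (hRd.analyticOnNhd hUo).eqOn_of_preconnected_of_eventuallyEq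
      (hEd.analyticOnNhd hUo) hpre (z₀ := 2) ?_ ?_
    · show α - 1 < (2 : ℂ).re
      simp; linarith
    · have ho : IsOpen {s : ℂ | 1 < s.re} := Complex.continuous_re.isOpen_preimage _ isOpen_Ioi
      filter_upwards [ho.mem_nhds (show (2 : ℂ) ∈ {s : ℂ | 1 < s.re} by simp)] with s hs
      exact (hexp s hs).2
  intro s hs hzero
  by_cases h1 : 1 ≤ s.re
  · exact riemannZeta_ne_zero_of_one_le_re h1 hzero
  · push Not at h1
    have hs1 : s - 1 ∈ U := by show α - 1 < (s - 1).re; simp; linarith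
    have hne : s - 1 ≠ 0 := by
      intro h0
      have := congrArg Complex.re h0
      simp at this
      linarith
    have h3 := heq hs1
    simp only [hR] at h3
    rw [Zs_eq (s - 1) hne, sub_add_cancel, hzero, mul_zero, zero_mul, zero_mul] at h3
    exact Complex.exp_ne_zero _ h3.symm

end Pool.H232R3.Rig
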