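import Mathlib
import Pool.Agent.H232R3.RigMain
import Pool.Agent.H232R3.RigLam
import Pool.Agent.H295R2.M

set_option autoImplicit false

open ArithmeticFunction Finset Filter Topology
open scoped ComplexOrder ComplexConjugate

namespace Pool.H232R3.Rig

/-- the class -/
def ZeroSum (f : ℕ → ℂ) (t : ℝ) : Prop :=
  f 1 = 1 ∧ (∀ m n : ℕ, 0 < m → 0 < n → f (m * n) = f m * f n) ∧
  (∀ p : ℕ, p.Prime → ‖f p‖ ≤ 1 ∨ ∃ r : ℝ, 0 ≤ r ∧ f p = r * (p : ℂ) ^ (t * Complex.I)) ∧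
  Tendsto (fun N : ℕ => ∑ n ∈ Finset.Icc 1 N, f n * (n : ℂ) ^ (-(1 + t * Complex.I))) atTop (𝓝 0)

/-- the growth exponent of the partial sums is at most θ -/
def Exponent (f : ℕ → ℂ) (θ : ℝ) : Prop :=
  ∀ ε : ℝ, 0 < ε → ∃ C : ℝ, ∀ N : ℕ, 1 ≤ N → ‖∑ n ∈ Finset.Icc 1 N, f n‖ ≤ C * (N : ℝ) ^ (θ + ε)

lemma exp_bound (f : ℕ → ℂ) (t θ α : ℝ) (hf : ZeroSum f t) (he : Exponent f θ) (h : θ < α) :
    ∃ C : ℝ, 0 ≤ C ∧ ∀ N : ℕ, 0 < N → ‖SS f N‖ ≤ C * (N : ℝ) ^ α := by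
  obtain ⟨C, hC⟩ := he (α - θ) (by linarith)
  refine ⟨C, ?_, fun N hN => ?_⟩
  · have h1 := hC 1 le_rfl
    rw [Finset.Icc_self, Finset.sum_singleton, hf.1, norm_one, Nat.cast_one, Real.one_rpow,
      mul_one] at h1
    linarith
  · have h1 := hC N hN
    rw [add_sub_cancel] at h1
    exact h1

lemma zero_free (f : ℕ → ℂ) (t θ : ℝ) (h0 : 0 ≤ θ) (hf : ZeroSum f t) (he : Exponent f θ) (s : ℂ)
    (hs : θ < s.re) : riemannZeta s ≠ 0 := by
  by_cases h1 : 1 ≤ s.re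
  · exact riemannZeta_ne_zero_of_one_le_re h1
  · push Not at h1
    obtain ⟨C, hC0, hC⟩ := exp_bound f t θ ((θ + s.re) / 2) hf he (by linarith)
    exact (core f hf.1 hf.2.1 t C ((θ + s.re) / 2) hC0 (by linarith) (by linarith) hC hf.2.2.1
      hf.2.2.2).1 s (by linarith)

lemma re_nonneg (f : ℕ → ℂ) (t : ℝ) (p : ℕ) (hpp : p.Prime)
    (hp : ‖f p‖ ≤ 1 ∨ ∃ r : ℝ, 0 ≤ r ∧ f p = r * (p : ℂ) ^ (t * Complex.I)) :
    0 ≤ 1 + (f p * (p : ℂ) ^ (-(t * Complex.I))).re := by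
  have hpc : (p : ℂ) ≠ 0 := by exact_mod_cast hpp.ne_zero
  rcases hp with h | ⟨r, hr, h⟩
  · have h1 : ‖f p * (p : ℂ) ^ (-(t * Complex.I))‖ ≤ 1 := by
      rw [norm_mul, Complex.norm_natCast_cpow_of_pos hpp.pos]
      simpa using h
    have h2 := (Complex.abs_re_le_norm _).trans h1
    have h3 := neg_abs_le (f p * (p : ℂ) ^ (-(t * Complex.I))).re
    linarith
  · rw [h, Complex.cpow_neg, mul_assoc, mul_inv_cancel₀, mul_one, Complex.ofReal_re]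
    · linarith
    · rw [Complex.cpow_def_of_ne_zero hpc]; exact Complex.exp_ne_zero _

lemma prime_summable (f : ℕ → ℂ) (t θ : ℝ) (h0 : 0 ≤ θ) (h1 : θ < 1) (hf : ZeroSum f t)
    (he : Exponent f θ) (σ : ℝ) (hσ : θ < σ) :
    Summable fun p : Nat.Primes => (1 + (f p * (p : ℂ) ^ (-(t * Complex.I))).re) * (p : ℝ) ^ (-σ) := by
  set σ₀ : ℝ := min σ 2 with hσ₀
  have hs0 : θ < σ₀ := lt_min hσ (by linarith)
  have hs2 : σ₀ ≤ 2 := min_le_right _ _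
  have hsσ : σ₀ ≤ σ := min_le_left _ _
  set α : ℝ := min ((θ + σ₀) / 2) ((θ + 1) / 2) with hα
  have hα1 : α < 1 := lt_of_le_of_lt (min_le_right _ _) (by linarith)
  have hαθ : θ < α := lt_min (by linarith) (by linarith)
  have hασ : α < σ₀ := lt_of_le_of_lt (min_le_left _ _) (by linarith)
  obtain ⟨C, hC0, hC⟩ := exp_bound f t θ α hf he hαθ
  have hc := (core f hf.1 hf.2.1 t C α hC0 (by linarith) hα1 hC hf.2.2.1 hf.2.2.2).2 (σ₀ - 1)
    (by linarith) (by linarith)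
  have hn : Summable fun n : ℕ => ‖LSeries.term (dd (gw f (1 + t * Complex.I))) ((σ₀ - 1 : ℝ) : ℂ) n‖ :=
    hc.norm
  have hinj : Function.Injective (fun p : Nat.Primes => (p : ℕ)) := Subtype.coe_injective
  have h2 := (hn.comp_injective hinj).mul_left (1 / 2)
  refine Summable.of_nonneg_of_le (fun p => ?_) (fun p => ?_) h2
  · exact mul_nonneg (re_nonneg f t p p.2 (hf.2.2.1 p p.2)) (by positivity)
  · have hp1 : (1 : ℝ) < p := by exact_mod_cast p.2.one_lt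
    have hp0 : (0 : ℝ) < p := by linarith
    have hpc : ((p : ℕ) : ℂ) ≠ 0 := by exact_mod_cast p.2.ne_zero
    have hnn := re_nonneg f t p p.2 (hf.2.2.1 p p.2)
    have e1 : dd (gw f (1 + t * Complex.I)) p
        = ((2 * (1 + (f p * (p : ℂ) ^ (-(t * Complex.I))).re) / p : ℝ) : ℂ) := by
      unfold dd
      have e2 : vonMangoldt (p : ℕ) / Real.log (p : ℕ) = 1 := by
        have := ratio_prime_pow p 0 p.2
        simpa using this
      have e3 : (gw f (1 + t * Complex.I) p).re = (f p * (p : ℂ) ^ (-(t * Complex.I))).re / p := by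
        unfold gw
        rw [neg_add, Complex.cpow_add _ _ hpc, Complex.cpow_neg_one]
        have e4 : f p * (((p : ℕ) : ℂ)⁻¹ * ((p : ℕ) : ℂ) ^ (-(t * Complex.I)))
            = (((p : ℝ)⁻¹ : ℝ) : ℂ) * (f p * ((p : ℕ) : ℂ) ^ (-(t * Complex.I))) := by
          push_cast
          ring
        rw [e4, Complex.re_ofReal_mul]
        ring
      rw [e2, e3, Complex.ofReal_one, mul_one]
      congr 1
      field_simp
    show _ ≤ 1 / 2 * ‖LSeries.term (dd (gw f (1 + t * Complex.I))) ((σ₀ - 1 : ℝ) : ℂ) (p : ℕ)‖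
    rw [LSeries.norm_term_eq, if_neg p.2.ne_zero, e1, Complex.norm_real, Real.norm_eq_abs,
      abs_of_nonneg (by positivity), Complex.ofReal_re]
    have e5 : (p : ℝ) ^ (-σ) ≤ (p : ℝ) ^ (-σ₀) :=
      Real.rpow_le_rpow_of_exponent_le hp1.le (by linarith)
    have e6 : (p : ℝ) ^ (-σ₀) = ((p : ℝ) * (p : ℝ) ^ (σ₀ - 1))⁻¹ := by
      rw [Real.rpow_neg hp0.le]
      congr 1
      rw [Real.rpow_sub_one hp0.ne']
      field_simp
    calc (1 + (f p * (p : ℂ) ^ (-(t * Complex.I))).re) * (p : ℝ) ^ (-σ)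
        ≤ (1 + (f p * (p : ℂ) ^ (-(t * Complex.I))).re) * (p : ℝ) ^ (-σ₀) := by gcongr
      _ = _ := by
        rw [e6]
        field_simp

/-- the Mertens function -/
noncomputable def Mer (x : ℝ) : ℝ := ∑ n ∈ Finset.Icc 1 ⌊x⌋₊, ((moebius n : ℤ) : ℝ)

lemma mertens_of_free (θ : ℝ) (h0 : 1 / 2 ≤ θ) (h1 : θ < 1)
    (hz : ∀ s : ℂ, θ < s.re → riemannZeta s ≠ 0) (θ' : ℝ) (hθ' : θ < θ') :
    ∃ C : ℝ, ∀ x : ℝ, 1 ≤ x → |Mer x| ≤ C * x ^ θ' := by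
  have hZs : ∀ s : ℂ, θ < s.re → Pool.Agent.H295R2.Zs s ≠ 0 := by
    intro s hs
    by_cases h : s = 1
    · rw [h]
      unfold Pool.Agent.H295R2.Zs
      simp
    · rw [← Pool.Agent.H295R2.Zs_eq h]
      exact mul_ne_zero (sub_ne_zero.2 h) (hz s hs)
  have hm : θ < min θ' 2 := lt_min hθ' (by linarith)
  obtain ⟨C', _, hC'⟩ := Pool.Agent.H295R2.mertens_bound (by linarith) hZs hm (min_le_right _ _)
  have hC0 : 0 ≤ C' := by
    have := (abs_nonneg _).trans (hC' 1 le_rfl)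
    simpa using this
  refine ⟨C', fun x hx => ?_⟩
  have h3 : |Mer x| ≤ C' * x ^ (min θ' 2) := hC' x hx
  exact h3.trans (mul_le_mul_of_nonneg_left (Real.rpow_le_rpow_of_exponent_le hx (min_le_left _ _)) hC0)

/-- the Liouville function belongs to the class -/
lemma liouville_class (θ : ℝ) (h0 : 1 / 2 ≤ θ) (h1 : θ < 1)
    (h : ∀ ε : ℝ, 0 < ε → ∃ C : ℝ, ∀ x : ℝ, 1 ≤ x → |Mer x| ≤ C * x ^ (θ + ε)) :
    ∃ (f : ℕ → ℂ) (t : ℝ), ZeroSum f t ∧ Exponent f θ := by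
  have key : ∀ ε : ℝ, 0 < ε → ∃ C' : ℝ, 0 ≤ C' ∧ ∀ N : ℕ, 0 < N →
      ‖SS (fun n => ((liouville n : ℤ) : ℂ)) N‖ ≤ C' * (N : ℝ) ^ (θ + ε) := by
    intro ε hε
    obtain ⟨C, hC⟩ := h ε hε
    exact liouville_sum C (θ + ε) (by linarith) hC
  refine ⟨fun n => ((liouville n : ℤ) : ℂ), 0, ⟨by simp [liouville_apply_one], ?_, ?_, ?_⟩, ?_⟩
  · intro m n _ _
    simp only
    rw [liouville_apply_mul]
    push_cast
    rfl
  · intro p hp
    left
    simp only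
    rw [liouville_apply hp.ne_zero]
    simp
  · obtain ⟨C', hC', hb⟩ := key ((1 - θ) / 2) (by linarith)
    have := liouville_series C' (θ + (1 - θ) / 2) hC' (by linarith) (by linarith) hb
    refine this.congr fun N => ?_
    refine Finset.sum_congr rfl fun n _ => ?_
    simp
  · intro ε hε
    obtain ⟨C', _, hb⟩ := key ε hε
    exact ⟨C', fun N hN => hb N hN⟩

theorem main_equiv (θ : ℝ) (h0 : 1 / 2 ≤ θ) (h1 : θ < 1) :
    (∀ ε : ℝ, 0 < ε → ∃ C : ℝ, ∀ x : ℝ, 1 ≤ x → |Mer x| ≤ C * x ^ (θ + ε)) ↔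
      ∃ (f : ℕ → ℂ) (t : ℝ), ZeroSum f t ∧ Exponent f θ := by
  refine ⟨liouville_class θ h0 h1, ?_⟩
  rintro ⟨f, t, hf, he⟩ ε hε
  exact mertens_of_free θ h0 h1 (fun s hs => zero_free f t θ (by linarith) hf he s hs) (θ + ε)
    (by linarith)

lemma Exponent.mono {f : ℕ → ℂ} {θ θ' : ℝ} (h : Exponent f θ) (hθ : θ ≤ θ')
    (f1 : f 1 = 1) : Exponent f θ' := by
  intro ε hε
  obtain ⟨C, hC⟩ := h ε hε
  have hC0 : 0 ≤ C := by
    have h1 := hC 1 le_rfl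
    rw [Finset.Icc_self, Finset.sum_singleton, f1, norm_one, Nat.cast_one, Real.one_rpow,
      mul_one] at h1
    linarith
  refine ⟨C, fun N hN => (hC N hN).trans ?_⟩
  have hN1 : (1 : ℝ) ≤ N := by exact_mod_cast hN
  gcongr

theorem q1_equiv :
    (∃ ε C : ℝ, ε < 1 / 2 ∧ ∀ x : ℝ, 1 ≤ x → |Mer x| ≤ C * x ^ (1 / 2 + ε)) ↔
      ∃ (f : ℕ → ℂ) (t θ : ℝ), θ < 1 ∧ ZeroSum f t ∧ Exponent f θ := by
  constructor
  · rintro ⟨ε, C, hε, hC⟩
    have hC0 : 0 ≤ C := by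
      have := (abs_nonneg _).trans (hC 1 le_rfl)
      simpa using this
    have hθ : max (1 / 2 + ε) (1 / 2) < 1 := max_lt (by linarith) (by norm_num)
    obtain ⟨f, t, hf, he⟩ := liouville_class (max (1 / 2 + ε) (1 / 2)) (le_max_right _ _) hθ
      (fun δ hδ => ⟨C, fun x hx => (hC x hx).trans (by
        refine mul_le_mul_of_nonneg_left (Real.rpow_le_rpow_of_exponent_le hx ?_) hC0
        have := le_max_left (1 / 2 + ε) (1 / 2)
        linarith)⟩)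
    exact ⟨f, t, _, hθ, hf, he⟩
  · rintro ⟨f, t, θ, hθ, hf, he⟩
    set θ' : ℝ := max θ (1 / 2) with hθ'
    have h1 : θ' < 1 := max_lt hθ (by norm_num)
    have he' : Exponent f θ' := he.mono (le_max_left _ _) hf.1
    obtain ⟨C, hC⟩ := (main_equiv θ' (le_max_right _ _) h1).mpr ⟨f, t, hf, he'⟩ ((1 - θ') / 2)
      (by linarith)
    refine ⟨θ' + (1 - θ') / 2 - 1 / 2, C, by linarith, fun x hx => ?_⟩
    have := hC x hx
    rw [show 1 / 2 + (θ' + (1 - θ') / 2 - 1 / 2) = θ' + (1 - θ') / 2 by ring]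
    exact this

end Pool.H232R3.Rig
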